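import Pool.Agent.Helper45.AD.APt

set_option autoImplicit false

/-! # AD-06: the end point depends measurably on the parameters

PROOF. `measurable_of_Ici`: for `y` the set `{a | y ≤ aPt S (α a) β ε}` is
`{a | ∃ x ∈ Icc y β, x ∈ N S (α a) β ε} ∪ ({a | ¬ (N S (α a) β ε).Nonempty} ∩ {a | y ≤ 0})`:
if `N` is nonempty, `y ≤ aPt` iff `N` meets `Icc y β` (`aPt_mem'`, `le_aPt`); if `N` is empty,
`aPt = sSup ∅ = 0` (`Real.sSup_empty`) and `N` does not meet `Icc y β`.  The first set is closed
(`N_meet_closed`, `isCompact_Icc`), the second is the complement of a closed set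
(`N_proj_closed`) or empty. -/

namespace AD

variable {L : Type} {r : ℕ}

theorem aPt_measurable (S : Sys) (β ε : ℝ) {A : Type} [TopologicalSpace A] [MeasurableSpace A]
    [BorelSpace A] (α : A → L → ℝ) (hα : ∀ l, Continuous fun a => α a l) :
    Measurable fun a => aPt S (α a) β ε := by
  refine measurable_of_Ici fun y => ?_
  have h : (fun a => aPt S (α a) β ε) ⁻¹' Set.Ici y =
      {a | ∃ x ∈ Set.Icc y β, x ∈ N S (α a) β ε} ∪
        ({a | (N S (α a) β ε).Nonempty}ᶜ ∩ {_a | y ≤ 0}) := by
    ext a
    simp only [Set.mem_preimage, Set.mem_Ici, Set.mem_union, Set.mem_inter_iff, Set.mem_compl_iff]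
    by_cases hn : (N S (α a) β ε).Nonempty
    · constructor
      · intro h
        exact Or.inl ⟨_, ⟨h, (aPt_mem' S (α a) β ε hn).2⟩, aPt_mem S (α a) β ε hn⟩
      · rintro (⟨x, hx, hxN⟩ | h)
        · exact hx.1.trans (le_aPt S (α a) β ε hxN hx.2)
        · exact absurd hn h.1
    · have he : N S (α a) β ε = ∅ := Set.not_nonempty_iff_eq_empty.1 hn
      have h0 : aPt S (α a) β ε = 0 := by
        unfold aPt
        rw [he, Set.empty_inter, Real.sSup_empty]
      rw [h0]
      constructor
      · intro h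
        exact Or.inr ⟨hn, h⟩
      · rintro (⟨x, hx, hxN⟩ | h)
        · exact absurd ⟨x, hxN⟩ hn
        · exact h.2
  rw [h]
  refine (N_meet_closed S β ε α hα isCompact_Icc).measurableSet.union
    ((N_proj_closed S β ε α hα).measurableSet.compl.inter ?_)
  exact MeasurableSet.const _

end AD
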