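import Pool.Agent.Helper45.AD.NSet

set_option autoImplicit false

/-! # AD-05: the end point of the gap around `β` -/

namespace AD

variable {L : Type} {r : ℕ}

theorem aPt_bdd (S : Sys) (α : L → ℝ) (β ε : ℝ) : BddAbove (N S α β ε ∩ Set.Iic β) :=
  ⟨β, fun _ hx => hx.2⟩

theorem aPt_ne (S : Sys) (α : L → ℝ) (β ε : ℝ) (hn : (N S α β ε).Nonempty) :
    (N S α β ε ∩ Set.Iic β).Nonempty := by
  obtain ⟨x, hx⟩ := hn
  obtain ⟨n, hn⟩ := exists_nat_gt (x - β)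
  refine ⟨x + ((-n : ℤ) : ℝ), N_add_int S α β ε hx _, ?_⟩
  rw [Set.mem_Iic]
  push_cast
  linarith

theorem le_aPt (S : Sys) (α : L → ℝ) (β ε : ℝ) {x : ℝ} (hx : x ∈ N S α β ε) (hxβ : x ≤ β) :
    x ≤ aPt S α β ε := le_csSup (aPt_bdd S α β ε) ⟨hx, hxβ⟩

theorem aPt_mem' (S : Sys) (α : L → ℝ) (β ε : ℝ) (hn : (N S α β ε).Nonempty) :
    aPt S α β ε ∈ N S α β ε ∩ Set.Iic β :=
  ((N_closed S α β ε).inter isClosed_Iic).csSup_mem (aPt_ne S α β ε hn) (aPt_bdd S α β ε)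

theorem aPt_mem (S : Sys) (α : L → ℝ) (β ε : ℝ) (hn : (N S α β ε).Nonempty) :
    aPt S α β ε ∈ N S α β ε := (aPt_mem' S α β ε hn).1

theorem aPt_lt (S : Sys) (α : L → ℝ) (β ε : ℝ) (hε : 0 < ε) (hn : (N S α β ε).Nonempty) :
    aPt S α β ε < β := by
  refine lt_of_le_of_ne (aPt_mem' S α β ε hn).2 fun h => ?_
  have := N_not_arc S α β ε (aPt_mem S α β ε hn)
  rw [h] at this
  exact this (mem_arc_self β hε)

theorem aPt_gap (S : Sys) (α : L → ℝ) (β ε : ℝ) (hε : 0 < ε) (hn : (N S α β ε).Nonempty) :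
    ∃ e ∈ N S α β ε, β < e ∧ ∀ x ∈ N S α β ε, ¬ (aPt S α β ε < x ∧ x < e) := by
  have hne : (N S α β ε ∩ Set.Ici β).Nonempty := by
    obtain ⟨x, hx⟩ := hn
    obtain ⟨n, hn⟩ := exists_nat_gt (β - x)
    refine ⟨x + ((n : ℤ) : ℝ), N_add_int S α β ε hx _, ?_⟩
    rw [Set.mem_Ici]
    push_cast
    linarith
  have hbd : BddBelow (N S α β ε ∩ Set.Ici β) := ⟨β, fun _ hx => hx.2⟩
  have hmem := ((N_closed S α β ε).inter isClosed_Ici).csInf_mem hne hbd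
  refine ⟨_, hmem.1, ?_, ?_⟩
  · refine lt_of_le_of_ne hmem.2 fun h => ?_
    have := N_not_arc S α β ε hmem.1
    rw [← h] at this
    exact this (mem_arc_self β hε)
  · rintro x hx ⟨h1, h2⟩
    rcases le_total x β with h | h
    · exact absurd (le_aPt S α β ε hx h) (not_le.2 h1)
    · exact absurd (csInf_le hbd ⟨hx, h⟩) (not_le.2 h2)

theorem aPt_gapEnd (S : Sys) (α : L → ℝ) (β ε : ℝ) (hε : 0 < ε) (hn : (N S α β ε).Nonempty) :
    GapEnd (N S α β ε) (aPt S α β ε) := by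
  obtain ⟨e, he, hβ, h⟩ := aPt_gap S α β ε hε hn
  have h1 := aPt_lt S α β ε hε hn
  refine ⟨aPt_mem S α β ε hn, e, he, by linarith [h1, hβ], fun x hx => ?_⟩
  rw [min_eq_left (by linarith), max_eq_right (by linarith)]
  exact h x hx

/-- equality of the end points from membership in both sets -/
theorem aPt_eq_of_mem {L' : Type} (S : Sys) (α : L → ℝ) (α' : L' → ℝ) (β ε : ℝ)
    (hn : (N S α β ε).Nonempty) (hn' : (N S α' β ε).Nonempty)
    (h : aPt S α' β ε ∈ N S α β ε) (h' : aPt S α β ε ∈ N S α' β ε) :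
    aPt S α β ε = aPt S α' β ε :=
  le_antisymm (le_aPt S α' β ε h' (aPt_mem' S α β ε hn).2)
    (le_aPt S α β ε h (aPt_mem' S α' β ε hn').2)

end AD
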