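import Pool.Agent.Helper45.AD.LineAng

set_option autoImplicit false

/-!
# AD-G6: arc length

PROOF.  (1) For `a ≤ x < y ≤ a + 1/4` put `v = bp K y - bp K x`, `u = dirv (2 π a)`.  By `Th_dir`
`v = ‖v‖ • dirv τ` with `τ = Th K x y`, and by the first part of `Th_bound`
`2 π x < τ < 2 π y`, so `0 ≤ τ - 2 π a ≤ π / 2`.  Hence
`0 ≤ inner u v = ‖v‖ cos (τ - 2 π a)`, `0 ≤ cross u v = ‖v‖ sin (τ - 2 π a)`
(`inner_dirv`, `cross_dirv`, `cross_smul_right`, `inner_smul_right`), and
`‖v‖ ≤ inner u v + cross u v` (`norm_sq_frame`, both terms are nonnegative; or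
`1 ≤ cos φ + sin φ` on `[0, π/2]`).
(2) So with `G z = inner u (bp K z) + cross u (bp K z)`: `G` is monotone on `Icc a (a + 1/4)` and
`‖bp K y - bp K x‖ ≤ G y - G x = |G y - G x|`, so
`eVariationOn (bp K) (Icc a (a + 1/4)) ≤ eVariationOn G (Icc a (a + 1/4)) < ⊤`
(compare the sums in the definition termwise: `iSup_mono`, `Finset.sum_le_sum`, `edist` of real
numbers; `MonotoneOn.eVariationOn_le`).
(3) `LocallyBoundedVariationOn (bp K) Set.univ`: for `a b` (if `b < a` the set is empty) choose `n`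
with `b ≤ a + n / 4`; by induction on `n`, `eVariationOn (bp K) (univ ∩ Icc a (a + n / 4)) < ⊤`
(`eVariationOn.Icc_add_Icc`), and monotonicity in the set (`eVariationOn.mono`).
(4) `V z = variationOnFromTo (bp K) Set.univ 0 z`.  For `x ≤ y`,
`V y - V x = variationOnFromTo (bp K) univ x y = (eVariationOn (bp K) (univ ∩ Icc x y)).toReal`
(`variationOnFromTo.add`, `variationOnFromTo.eq_of_le`) and
`edist (bp K y) (bp K x) ≤ eVariationOn (bp K) (univ ∩ Icc x y)` (`eVariationOn.edist_le`), so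
`‖bp K y - bp K x‖ ≤ V y - V x` (`ENNReal.toReal_mono`, `edist_dist`, `dist_eq_norm`).
(5) strictly monotone: `V` is monotone by (4); for `x < y` choose `z` with
`x < z < min y (x + 1)`: `bp K z ≠ bp K x` (`bp_eq_iff`), so `V x < V z ≤ V y`.
-/

namespace AD

open ChordMaps

variable {K : Set Plane}

private theorem AL_frame (hB : SBody K) {a x y : ℝ} (hax : a ≤ x) (hxy : x < y)
    (hy : y ≤ a + 1 / 4) :
    0 ≤ inner ℝ (dirv (2 * Real.pi * a)) (bp K y - bp K x) ∧
      0 ≤ cross (dirv (2 * Real.pi * a)) (bp K y - bp K x) ∧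
      ‖bp K y - bp K x‖ ≤ inner ℝ (dirv (2 * Real.pi * a)) (bp K y - bp K x) +
        cross (dirv (2 * Real.pi * a)) (bp K y - bp K x) := by
  have hpi := Real.pi_pos
  have hy1 : y < x + 1 := by linarith
  obtain ⟨hb1, hb2⟩ := abs_lt.1 (Th_bound hB hxy hy1).1
  have hd := Th_dir hB hxy hy1
  set τ := Th K x y with hτ
  set r := ‖bp K y - bp K x‖ with hr
  have hr0 : 0 ≤ r := norm_nonneg _
  have h1 : 0 ≤ τ - 2 * Real.pi * a := by nlinarith
  have h2 : τ - 2 * Real.pi * a ≤ Real.pi / 2 := by nlinarith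
  have hc : 0 ≤ Real.cos (τ - 2 * Real.pi * a) :=
    Real.cos_nonneg_of_neg_pi_div_two_le_of_le (by linarith) h2
  have hs : 0 ≤ Real.sin (τ - 2 * Real.pi * a) :=
    Real.sin_nonneg_of_nonneg_of_le_pi h1 (by linarith)
  have hsq := Real.sin_sq_add_cos_sq (τ - 2 * Real.pi * a)
  have hcs : 1 ≤ Real.cos (τ - 2 * Real.pi * a) + Real.sin (τ - 2 * Real.pi * a) := by
    nlinarith [mul_nonneg hc hs]
  have e1 : inner ℝ (dirv (2 * Real.pi * a)) (bp K y - bp K x) =
      r * Real.cos (τ - 2 * Real.pi * a) := by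
    rw [hd, inner_smul_right, inner_dirv]
  have e2 : cross (dirv (2 * Real.pi * a)) (bp K y - bp K x) =
      r * Real.sin (τ - 2 * Real.pi * a) := by
    rw [hd, cross_smul_right, cross_dirv]
  rw [e1, e2]
  refine ⟨mul_nonneg hr0 hc, mul_nonneg hr0 hs, ?_⟩
  nlinarith

private theorem AL_quarter (hB : SBody K) (a : ℝ) :
    eVariationOn (bp K) (Set.Icc a (a + 1 / 4)) ≠ ⊤ := by
  set u := dirv (2 * Real.pi * a) with hu
  set G : ℝ → ℝ := fun z => inner ℝ u (bp K z) + cross u (bp K z) with hG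
  have hdiff : ∀ x y, G y - G x = inner ℝ u (bp K y - bp K x) + cross u (bp K y - bp K x) := by
    intro x y
    simp only [hG]
    rw [inner_sub_right, cross_sub_right]
    ring
  have key : ∀ x ∈ Set.Icc a (a + 1 / 4), ∀ y ∈ Set.Icc a (a + 1 / 4), x ≤ y →
      ‖bp K y - bp K x‖ ≤ G y - G x := by
    intro x hx y hy hxy
    rcases hxy.eq_or_lt with h | h
    · rw [h, sub_self, norm_zero, sub_self]
    · rw [hdiff]
      exact (AL_frame hB hx.1 h hy.2).2.2
  have hmono : MonotoneOn G (Set.Icc a (a + 1 / 4)) := by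
    intro x hx y hy hxy
    have := key x hx y hy hxy
    have h0 := norm_nonneg (bp K y - bp K x)
    linarith
  have hle : eVariationOn (bp K) (Set.Icc a (a + 1 / 4)) ≤
      eVariationOn G (Set.Icc a (a + 1 / 4)) := by
    unfold eVariationOn
    refine iSup_mono fun p => Finset.sum_le_sum fun i _ => ?_
    have h1 := key _ (p.2.2.2 i) _ (p.2.2.2 (i + 1)) (p.2.2.1 (Nat.le_succ i))
    rw [edist_dist, edist_dist, dist_eq_norm, Real.dist_eq]
    apply ENNReal.ofReal_le_ofReal
    exact h1.trans (le_abs_self _)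
  have hfin : eVariationOn G (Set.Icc a (a + 1 / 4)) ≠ ⊤ := by
    have h1 := hmono.eVariationOn_eq (a := a) (b := a + 1 / 4) (Set.left_mem_Icc.2 (by linarith))
      (Set.right_mem_Icc.2 (by linarith))
    rw [Set.inter_self] at h1
    rw [h1]
    exact ENNReal.ofReal_ne_top
  exact ne_top_of_le_ne_top hfin hle

private theorem AL_loc (hB : SBody K) : LocallyBoundedVariationOn (bp K) Set.univ := by
  have key : ∀ (a : ℝ) (n : ℕ), eVariationOn (bp K) (Set.univ ∩ Set.Icc a (a + n / 4)) ≠ ⊤ := by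
    intro a n
    induction n with
    | zero =>
      rw [Nat.cast_zero, zero_div, add_zero, Set.Icc_self]
      rw [eVariationOn.subsingleton]
      · exact ENNReal.zero_ne_top
      · exact Set.subsingleton_singleton.anti Set.inter_subset_right
    | succ n ih =>
      have h1 : (0 : ℝ) ≤ (n : ℝ) / 4 := by positivity
      have h2 := eVariationOn.Icc_add_Icc (bp K) (s := Set.univ) (a := a) (b := a + n / 4)
        (c := a + ((n + 1 : ℕ) : ℝ) / 4) (by linarith) (by push_cast; linarith) (Set.mem_univ _)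
      rw [← h2]
      apply ENNReal.add_ne_top.2
      refine ⟨ih, ?_⟩
      rw [Set.univ_inter]
      have h3 := AL_quarter hB (a + n / 4)
      have h4 : a + ((n + 1 : ℕ) : ℝ) / 4 = a + n / 4 + 1 / 4 := by
        push_cast
        ring
      rw [h4]
      exact h3
  intro a b _ _
  obtain ⟨n, hn⟩ := exists_nat_ge ((b - a) * 4)
  have h1 : b ≤ a + n / 4 := by linarith
  exact ne_top_of_le_ne_top (key a n)
    (eVariationOn.mono _ (Set.inter_subset_inter_right _ (Set.Icc_subset_Icc_right h1)))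

theorem exists_V (hB : SBody K) : ∃ V : ℝ → ℝ, StrictMono V ∧
    ∀ x y, x ≤ y → ‖bp K y - bp K x‖ ≤ V y - V x := by
  have hloc := AL_loc hB
  have key : ∀ x y, x ≤ y → ‖bp K y - bp K x‖ ≤
      variationOnFromTo (bp K) Set.univ 0 y - variationOnFromTo (bp K) Set.univ 0 x := by
    intro x y hxy
    have h1 := variationOnFromTo.add hloc (Set.mem_univ (0 : ℝ)) (Set.mem_univ x) (Set.mem_univ y)
    have h2 := variationOnFromTo.eq_of_le (bp K) Set.univ hxy
    have h3 : variationOnFromTo (bp K) Set.univ 0 y - variationOnFromTo (bp K) Set.univ 0 x =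
        (eVariationOn (bp K) (Set.univ ∩ Set.Icc x y)).toReal := by
      rw [← h2]
      linarith
    rw [h3, ← dist_eq_norm]
    have h4 : edist (bp K y) (bp K x) ≤ eVariationOn (bp K) (Set.univ ∩ Set.Icc x y) :=
      eVariationOn.edist_le _ ⟨Set.mem_univ _, Set.right_mem_Icc.2 hxy⟩
        ⟨Set.mem_univ _, Set.left_mem_Icc.2 hxy⟩
    have h5 := ENNReal.toReal_mono (hloc x y (Set.mem_univ _) (Set.mem_univ _)) h4
    rw [edist_dist, ENNReal.toReal_ofReal dist_nonneg] at h5
    exact h5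
  refine ⟨fun z => variationOnFromTo (bp K) Set.univ 0 z, ?_, key⟩
  intro x y hxy
  obtain ⟨z, hz1, hz2⟩ := exists_between (lt_min hxy (lt_add_one x))
  have hzy : z < y := lt_of_lt_of_le hz2 (min_le_left _ _)
  have hz3 : z < x + 1 := lt_of_lt_of_le hz2 (min_le_right _ _)
  have hne : bp K z ≠ bp K x := by
    intro h
    obtain ⟨k, hk⟩ := (bp_eq_iff hB z x).1 h
    have h1 : (0 : ℝ) < k := by linarith
    have h2 : (k : ℝ) < 1 := by linarith
    have h3 : (0 : ℤ) < k := by exact_mod_cast h1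
    have h4 : k < (1 : ℤ) := by exact_mod_cast h2
    omega
  have h5 := key x z hz1.le
  have h6 := key z y hzy.le
  have h7 : 0 < ‖bp K z - bp K x‖ := norm_pos_iff.2 (sub_ne_zero.2 hne)
  have h8 := norm_nonneg (bp K y - bp K z)
  show variationOnFromTo (bp K) Set.univ 0 x < variationOnFromTo (bp K) Set.univ 0 y
  linarith

end AD
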