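import Pool.Agent.Helper45.AD.WBasic

set_option autoImplicit false

/-! # AD-08: only finitely many gap end points have their partner in the direction `t`

PROOF. Let `c` be in the set, with `e` and `k`: `S.F t c = e + k`.  Then `S.F t e = c + k`
(`F_add_int`, `S.inv`: `S.F t (e + k) = c`).  The function `φ z = S.F t z - z` is continuous and
strictly decreasing; `φ c = (e - c) + k`, `φ e = (c - e) + k`, so there is `z` strictly between `c`
and `e` with `φ z = k`, i.e. `S.F t z = z + k` (intermediate value theorem).  `z` lies in the gap,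
so `c = sSup (M ∩ Set.Iio z)` (if `c < z`: `c` is the greatest element of `M ∩ Iio z`) or
`c = sInf (M ∩ Set.Ioi z)` (if `z < c`).

The points `z` with `S.F t z = z + k` for some integer `k`: fix `z₀`, `z₁` with `φ z₀ = 0`,
`φ z₁ = 1` if they exist (they do exist: `φ` is continuous and `φ (z + 1) = φ z - 2`, so it is onto;
or use `Classical.epsilon`-style case distinctions).  If `φ z = k` put `m = ⌊k/2⌋`, `j = k - 2 m ∈
{0, 1}`; `φ (z + m) = k - 2 m = j`, so `z + m = z_j` (`φ` injective).  Then `c + m` is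
`sSup (M ∩ Iio z_j)` or `sInf (M ∩ Ioi z_j)` (the same argument applied to `c + m`, `e + m`, which
again form a gap of `M` with `S.F t (c + m) = S.F t c - m = (e + m) + (k - 2 m)`), and
`Int.fract c = Int.fract (c + m)`.  So the image is contained in a set of four elements. -/

namespace AD

private theorem par_strictAnti (S : Sys) (t : ℝ) : StrictAnti (fun z => S.F t z - z) := by
  intro x y h
  have := S.anti t h
  simp only
  linarith

private theorem par_cont (S : Sys) (t : ℝ) : Continuous (fun z => S.F t z - z) := by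
  have h : Continuous (fun z => S.F t z) :=
    S.cont.comp (continuous_const.prodMk continuous_id)
  exact h.sub continuous_id

private theorem par_mid (S : Sys) (t c e : ℝ) (hne : e ≠ c) (k : ℤ) (hk : S.F t c = e + k) :
    ∃ z, S.F t z - z = k ∧ ((c < z ∧ z < e) ∨ (e < z ∧ z < c)) := by
  have he : S.F t e = c + k := by
    have h1 := S.inv t c
    rw [hk, F_add_int] at h1
    linarith
  rcases lt_or_gt_of_ne hne with h | h
  · -- e < c
    have hsub := intermediate_value_Icc' (f := fun z => S.F t z - z) h.le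
      (par_cont S t).continuousOn
    have hmem : (k : ℝ) ∈ Set.Icc (S.F t c - c) (S.F t e - e) := by
      constructor
      · rw [hk]; linarith
      · rw [he]; linarith
    obtain ⟨z, hz, hzk⟩ := hsub hmem
    simp only at hzk
    refine ⟨z, hzk, Or.inr ⟨lt_of_le_of_ne hz.1 ?_, lt_of_le_of_ne hz.2 ?_⟩⟩
    · rintro rfl
      rw [he] at hzk
      linarith
    · rintro rfl
      rw [hk] at hzk
      linarith
  · -- c < e
    have hsub := intermediate_value_Icc' (f := fun z => S.F t z - z) (le_of_lt h)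
      (par_cont S t).continuousOn
    have hmem : (k : ℝ) ∈ Set.Icc (S.F t e - e) (S.F t c - c) := by
      constructor
      · rw [he]; linarith
      · rw [hk]; linarith
    obtain ⟨z, hz, hzk⟩ := hsub hmem
    simp only at hzk
    refine ⟨z, hzk, Or.inl ⟨lt_of_le_of_ne hz.1 ?_, lt_of_le_of_ne hz.2 ?_⟩⟩
    · rintro rfl
      rw [hk] at hzk
      linarith
    · rintro rfl
      rw [he] at hzk
      linarith

private theorem par_greatest (M : Set ℝ) (hp : ∀ x ∈ M, ∀ k : ℤ, x + k ∈ M) (c z : ℝ)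
    (h : IsGreatest (M ∩ Set.Iio z) c) (m : ℤ) : IsGreatest (M ∩ Set.Iio (z + m)) (c + m) := by
  refine ⟨⟨hp _ h.1.1 m, ?_⟩, ?_⟩
  · have := h.1.2
    simp only [Set.mem_Iio] at this ⊢
    linarith
  · rintro x ⟨hx, hxz⟩
    have h1 : x + ((-m : ℤ) : ℝ) ∈ M ∩ Set.Iio z := by
      refine ⟨hp _ hx (-m), ?_⟩
      simp only [Set.mem_Iio] at hxz ⊢
      push_cast
      linarith
    have h2 := h.2 h1
    push_cast at h2
    linarith

private theorem par_least (M : Set ℝ) (hp : ∀ x ∈ M, ∀ k : ℤ, x + k ∈ M) (c z : ℝ)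
    (h : IsLeast (M ∩ Set.Ioi z) c) (m : ℤ) : IsLeast (M ∩ Set.Ioi (z + m)) (c + m) := by
  refine ⟨⟨hp _ h.1.1 m, ?_⟩, ?_⟩
  · have := h.1.2
    simp only [Set.mem_Ioi] at this ⊢
    linarith
  · rintro x ⟨hx, hxz⟩
    have h1 : x + ((-m : ℤ) : ℝ) ∈ M ∩ Set.Ioi z := by
      refine ⟨hp _ hx (-m), ?_⟩
      simp only [Set.mem_Ioi] at hxz ⊢
      push_cast
      linarith
    have h2 := h.2 h1
    push_cast at h2
    linarith

/-- the chosen point with `F z = z + j` -/
private noncomputable def parZ (S : Sys) (t : ℝ) (j : ℤ) : ℝ :=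
  @dite _ (∃ z, S.F t z - z = j) (Classical.propDecidable _) (fun h => h.choose) (fun _ => 0)

private theorem parZ_eq (S : Sys) (t : ℝ) (j : ℤ) (z : ℝ) (hz : S.F t z - z = j) :
    parZ S t j = z := by
  have hex : ∃ z, S.F t z - z = j := ⟨z, hz⟩
  unfold parZ
  rw [dif_pos hex]
  apply (par_strictAnti S t).injective
  simp only
  rw [hex.choose_spec, hz]

theorem bad_finite (S : Sys) (t : ℝ) (M : Set ℝ) (hp : ∀ x ∈ M, ∀ k : ℤ, x + k ∈ M) :
    (Int.fract '' {c : ℝ | c ∈ M ∧ ∃ e ∈ M, e ≠ c ∧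
      (∀ x ∈ M, ¬ (min c e < x ∧ x < max c e)) ∧ ∃ k : ℤ, S.F t c = e + k}).Finite := by
  let T : Set ℝ := {Int.fract (sSup (M ∩ Set.Iio (parZ S t 0))),
    Int.fract (sInf (M ∩ Set.Ioi (parZ S t 0))), Int.fract (sSup (M ∩ Set.Iio (parZ S t 1))),
    Int.fract (sInf (M ∩ Set.Ioi (parZ S t 1)))}
  have hT : T.Finite := Set.toFinite _
  refine hT.subset ?_
  rintro y ⟨c, ⟨hc, e, he, hne, hgap, k, hk⟩, rfl⟩
  obtain ⟨z, hz, hzz⟩ := par_mid S t c e hne k hk
  have hj : S.F t (z + ((-(-(k / 2)) : ℤ) : ℝ)) - (z + ((-(-(k / 2)) : ℤ) : ℝ))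
      = ((k % 2 : ℤ) : ℝ) := by
    rw [F_add_int]
    have h1 : k % 2 = k - 2 * (k / 2) := by
      have := Int.emod_add_mul_ediv k 2
      omega
    rw [h1]
    push_cast
    linarith
  rw [neg_neg] at hj
  have hZ := parZ_eq S t (k % 2) _ hj
  have hfr : Int.fract c = Int.fract (c + ((k / 2 : ℤ) : ℝ)) := (Int.fract_add_intCast c _).symm
  have hmod : k % 2 = 0 ∨ k % 2 = 1 := by omega
  rcases hzz with ⟨h1, h2⟩ | ⟨h1, h2⟩
  · -- c < z < e
    have hG : IsGreatest (M ∩ Set.Iio z) c := by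
      refine ⟨⟨hc, h1⟩, ?_⟩
      rintro x ⟨hx, hxz⟩
      by_contra hcx
      push Not at hcx
      have hce : c < e := h1.trans h2
      apply hgap x hx
      rw [min_eq_left hce.le, max_eq_right hce.le]
      exact ⟨hcx, lt_trans hxz h2⟩
    have hG' := par_greatest M hp c z hG (k / 2)
    have hs := hG'.csSup_eq
    rw [← hZ] at hs
    rw [hfr, ← hs]
    rcases hmod with h | h
    · rw [h]; exact Or.inl rfl
    · rw [h]; exact Or.inr (Or.inr (Or.inl rfl))
  · -- e < z < c
    have hG : IsLeast (M ∩ Set.Ioi z) c := by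
      refine ⟨⟨hc, h2⟩, ?_⟩
      rintro x ⟨hx, hxz⟩
      by_contra hcx
      push Not at hcx
      have hce : e < c := h1.trans h2
      apply hgap x hx
      rw [min_eq_right hce.le, max_eq_left hce.le]
      exact ⟨lt_trans h1 hxz, hcx⟩
    have hG' := par_least M hp c z hG (k / 2)
    have hs := hG'.csInf_eq
    rw [← hZ] at hs
    rw [hfr, ← hs]
    rcases hmod with h | h
    · rw [h]; exact Or.inr (Or.inl rfl)
    · rw [h]; exact Or.inr (Or.inr (Or.inr rfl))

end AD
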