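import Pool.Agent.Helper45.AD.RepInj
import Pool.Agent.Helper45.AD.Parallel

set_option autoImplicit false

/-! # AD-14: an infinite orbit has infinitely many good points

PROOF. Write `c g = orb S θ β ε g t`, `M = N S (ext θ t) β ε` (closed: `N_closed`; periodic:
`N_add_int`; invariant: `N_inv`; `M ≠ univ` because `β ∉ M`: `N_not_arc`, `mem_arc_self`),
`O = Set.range (fun g => Int.fract (c g))`, infinite.  Every `c g` is a gap end of `M`
(`orb_gapEnd`), and so is `S.F (θ i) (c g) = c (g ++ [i])` (`orb_append`).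

(1) LOOPS. Let `Bd` be the finite set of `bad_finite S t M`.  If `Int.fract (c g) ∉ Bd` then
`HasLoop S θ t (c g)`: take the partner `e` of the gap end; `S.F t (c g) ≠ e + k` for all `k` since
`Int.fract (c g) ∉ Bd`; apply `hl t hpar M ...`.  (`HasLoops` wants the gap condition in the form
`c ∈ M → e ∈ M → c ≠ e → (∀ x ∈ M, ¬ (min c e < x ∧ x < max c e))`, as in `GapEnd`; the letters
`l : Option (Fin r)`: `N_inv` for `ext θ t`.)

(2) FIRST PART OF THE CONCLUSION. `O` infinite and `Bd` finite: some `g₀` has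
`Int.fract (c g₀) ∉ Bd`.

(3) Work in `O`.  For `o ∈ O` and `i : Fin r` put `σ i o = Int.fract (S.F (θ i) o)`; `σ i` maps `O`
to `O` (if `o = fract (c g)` then `σ i o = fract (c (g ++ [i]))` by `fract_F_iff` and
`Int.fract_fract`) and is injective on `O` (`fract_F_iff`, and `fract o = o` for `o ∈ O`).
Call `o` far if `η ≤ S.s t o`.  For every `o ∈ O` there is `i` with `σ i o` far (`hη t o`, and
`S.s t (fract x) = S.s t x` by `s_add_int`, `Int.self_sub_floor`).
(a) `D = {o ∈ O | o far}` is infinite: `O` is the union over the finitely many `i : Fin r` of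
`O_i = {o ∈ O | σ i o far}`, so some `O_i` is infinite (`Set.infinite_iUnion`/
`Set.finite_iUnion` contrapositive) and `σ i` maps it injectively into `D`
(`Set.infinite_of_injOn_mapsTo`).
(b) `D' = {o ∈ D | o ∉ Bd ∧ ∀ i, σ i o ∉ Bd}` is infinite: `D \ D'` is contained in
`Bd ∪ ⋃ i, (O ∩ σ i ⁻¹' Bd)`, finite by injectivity (`Set.Finite.preimage` with `InjOn` or
`Set.Finite.of_injOn`).
(c) for some `j` the set `D_j = {o ∈ D' | σ j o far}` is infinite (as in (a)).
(d) for every `o ∈ D_j` choose by `exists_rep` a word `g` with `t ∈ Rep g` and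
`fract (c g) = o`; then `Good S θ β ε η j t g`: far conditions for `c g` and `S.F (θ j) (c g)` from
those for `o`, `σ j o` (`s_add_int`), loops by (1) for `g` and for `g ++ [j]`
(`fract (c (g ++ [j])) = σ j o ∉ Bd`).  Different `o` give different `g`, so
`{g | Good ... g}` is infinite (`Set.infinite_of_injOn_mapsTo`, or: its image under
`g ↦ fract (c g)` contains `D_j`; `Set.Infinite.of_image`). -/

namespace AD

variable {r : ℕ}

private theorem s_fract (S : Sys) (t x : ℝ) : S.s t (Int.fract x) = S.s t x := by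
  have h := s_add_int S t x (-⌊x⌋)
  push_cast at h
  rwa [← sub_eq_add_neg, Int.self_sub_floor] at h

private theorem fract_F_fract (S : Sys) (τ x : ℝ) :
    Int.fract (S.F τ (Int.fract x)) = Int.fract (S.F τ x) :=
  (fract_F_iff S τ _ _).2 (Int.fract_fract x)

private theorem pigeon {P : Set ℝ} (hP : P.Infinite) (Q : Fin r → ℝ → Prop)
    (hQ : ∀ o, ∃ i, Q i o) : ∃ i, {o ∈ P | Q i o}.Infinite := by
  by_contra hcon
  simp only [not_exists, Set.not_infinite] at hcon
  have h1 : P ⊆ ⋃ i, {o ∈ P | Q i o} := by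
    intro o ho
    obtain ⟨i, hi⟩ := hQ o
    exact Set.mem_iUnion.2 ⟨i, ho, hi⟩
  exact hP ((Set.finite_iUnion hcon).subset h1)

private theorem loops (S : Sys) (θ : Fin r → ℝ) (β ε : ℝ) (hε : 0 < ε) (hl : HasLoops S θ)
    {t : ℝ} (ht : t ∈ TT S θ β ε) (hpar : ∀ (i : Fin r) (k : ℤ), t ≠ θ i + k * Real.pi)
    (g : List (Fin r))
    (hg : Int.fract (orb S θ β ε g t) ∉ Int.fract '' {c : ℝ | c ∈ N S (ext θ t) β ε ∧
      ∃ e ∈ N S (ext θ t) β ε, e ≠ c ∧
      (∀ x ∈ N S (ext θ t) β ε, ¬ (min c e < x ∧ x < max c e)) ∧ ∃ k : ℤ, S.F t c = e + k}) :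
    HasLoop S θ t (orb S θ β ε g t) := by
  obtain ⟨hc, e, he, hne, hgap⟩ := orb_gapEnd S θ β ε hε ht g
  refine hl t hpar (N S (ext θ t) β ε) (N_closed S _ β ε) ?_ ?_ ?_ ?_ _ e hc he hne.symm hgap ?_
  · intro hu
    have hb : β ∈ N S (ext θ t) β ε := by rw [hu]; exact Set.mem_univ _
    exact N_not_arc S _ β ε hb (mem_arc_self β hε)
  · intro x hx
    have := N_add_int S _ β ε hx 1
    simpa using this
  · intro x hx
    have := N_add_int S _ β ε hx (-1)
    push_cast at this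
    rwa [← sub_eq_add_neg] at this
  · intro l x hx
    exact N_inv S _ β ε hx l
  · intro k hk
    exact hg ⟨_, ⟨hc, e, he, hne, hgap, k, hk⟩, rfl⟩

theorem comb (S : Sys) (θ : Fin r → ℝ) (β ε : ℝ) (hε : 0 < ε) (hl : HasLoops S θ)
    {η : ℝ} (hη : ∀ t x : ℝ, ∃ i : Fin r, η ≤ S.s t (S.F (θ i) x)) {t : ℝ}
    (ht : t ∈ TT S θ β ε) (hpar : ∀ (i : Fin r) (k : ℤ), t ≠ θ i + k * Real.pi)
    (hinf : (Set.range fun g : List (Fin r) => Int.fract (orb S θ β ε g t)).Infinite) :
    (∃ g, HasLoop S θ t (orb S θ β ε g t)) ∧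
      ∃ j : Fin r, {g | Good S θ β ε η j t g}.Infinite := by
  have hBd := bad_finite S t (N S (ext θ t) β ε) (fun x hx k => N_add_int S _ β ε hx k)
  have hloop := loops S θ β ε hε hl ht hpar
  set Bd : Set ℝ := Int.fract '' {c : ℝ | c ∈ N S (ext θ t) β ε ∧
      ∃ e ∈ N S (ext θ t) β ε, e ≠ c ∧
      (∀ x ∈ N S (ext θ t) β ε, ¬ (min c e < x ∧ x < max c e)) ∧ ∃ k : ℤ, S.F t c = e + k}
    with hBdd
  set O : Set ℝ := Set.range fun g : List (Fin r) => Int.fract (orb S θ β ε g t) with hO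
  have hstep : ∀ (g : List (Fin r)) (i : Fin r),
      orb S θ β ε (g ++ [i]) t = S.F (θ i) (orb S θ β ε g t) := by
    intro g i
    rw [orb_append]
    rfl
  let σ : Fin r → ℝ → ℝ := fun i o => Int.fract (S.F (θ i) o)
  have hσ : ∀ (i : Fin r) (g : List (Fin r)),
      σ i (Int.fract (orb S θ β ε g t)) = Int.fract (orb S θ β ε (g ++ [i]) t) := by
    intro i g
    show Int.fract (S.F (θ i) (Int.fract (orb S θ β ε g t))) = _
    rw [fract_F_fract, hstep]
  have hσO : ∀ i, ∀ o ∈ O, σ i o ∈ O := by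
    rintro i _ ⟨g, rfl⟩
    exact ⟨g ++ [i], (hσ i g).symm⟩
  have hσinj : ∀ i, Set.InjOn (σ i) O := by
    rintro i _ ⟨g, rfl⟩ _ ⟨g', rfl⟩ h
    have h1 : Int.fract (Int.fract (orb S θ β ε g t)) = Int.fract (Int.fract (orb S θ β ε g' t)) :=
      (fract_F_iff S (θ i) _ _).1 h
    rwa [Int.fract_fract, Int.fract_fract] at h1
  have hfar : ∀ o : ℝ, ∃ i : Fin r, η ≤ S.s t (σ i o) := by
    intro o
    obtain ⟨i, hi⟩ := hη t o
    refine ⟨i, ?_⟩
    show η ≤ S.s t (Int.fract (S.F (θ i) o))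
    rwa [s_fract]
  constructor
  · obtain ⟨o, ⟨g, rfl⟩, hg⟩ := (hinf.sdiff hBd).nonempty
    exact ⟨g, hloop g hg⟩
  · obtain ⟨i, hi⟩ := pigeon hinf (fun i o => η ≤ S.s t (σ i o)) hfar
    have hD : {o ∈ O | η ≤ S.s t o}.Infinite := by
      refine Set.infinite_of_injOn_mapsTo (f := σ i) ((hσinj i).mono fun o ho => ho.1) ?_ hi
      intro o ho
      exact ⟨hσO i o ho.1, ho.2⟩
    have hfin : ∀ i : Fin r, {o ∈ O | σ i o ∈ Bd}.Finite := by
      intro i
      by_contra hcon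
      refine Set.infinite_of_injOn_mapsTo (f := σ i) (t := Bd)
        ((hσinj i).mono fun o ho => ho.1) ?_ hcon hBd
      intro o ho
      exact ho.2
    have hD' := hD.sdiff (hBd.union (Set.finite_iUnion hfin))
    obtain ⟨j, hj⟩ := pigeon hD' (fun i o => η ≤ S.s t (σ i o)) hfar
    refine ⟨j, Set.Infinite.of_image (fun g => Int.fract (orb S θ β ε g t)) (hj.mono ?_)⟩
    rintro o ⟨⟨⟨⟨g, rfl⟩, hof⟩, hob⟩, hjf⟩
    obtain ⟨g', hrep, hg'⟩ := exists_rep S θ β ε t g
    refine ⟨g', ?_, hg'⟩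
    simp only [Set.mem_union, Set.mem_iUnion, not_or, not_exists] at hob
    have hof' : η ≤ S.s t (Int.fract (orb S θ β ε g t)) := hof
    have hjf' : η ≤ S.s t (σ j (Int.fract (orb S θ β ε g t))) := hjf
    have hb1 : Int.fract (orb S θ β ε g t) ∉ Bd := hob.1
    have hb2 : σ j (Int.fract (orb S θ β ε g t)) ∉ Bd := by
      intro hb
      exact hob.2 j ⟨⟨g, rfl⟩, hb⟩
    rw [← hg'] at hof' hjf' hb1 hb2
    rw [s_fract] at hof'
    rw [hσ] at hjf' hb2
    rw [s_fract, hstep] at hjf'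
    refine ⟨hrep, hof', hjf', hloop g' hb1, ?_⟩
    have := hloop (g' ++ [j]) hb2
    rwa [hstep] at this

end AD
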