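import Mathlib

set_option autoImplicit false

/-!
# Project AD (MP_150b3d_gt): almost all directions, every body. Abstract definitions

A chord system is the family of lifts to the real line of the chord maps of a planar convex body.
`F t` is the lift of the chord map in the direction of angle `t`.
-/

namespace AD

/-- lifts of the chord maps: `F t x` is strictly decreasing in `x` and strictly increasing in `t`;
`V` is arc length, `s t x` is the length of the chord in the direction `t` at the point `x` -/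
structure Sys where
  F : ℝ → ℝ → ℝ
  cont : Continuous (fun q : ℝ × ℝ => F q.1 q.2)
  anti : ∀ t, StrictAnti (F t)
  mono : ∀ x, StrictMono (fun t => F t x)
  per : ∀ t x, F t (x + 1) = F t x - 1
  inv : ∀ t x, F t (F t x) = x
  perT : ∀ t x, F (t + Real.pi) x = F t x + 1
  V : ℝ → ℝ
  Vmono : StrictMono V
  s : ℝ → ℝ → ℝ
  s_cont : Continuous (fun q : ℝ × ℝ => s q.1 q.2)
  s_nonneg : ∀ t x, 0 ≤ s t x
  s_zero : ∀ t x, s t x = 0 → ∃ n : ℤ, F t x = x + n
  s_per : ∀ t x, s t (x + 1) = s t x
  s_perT : ∀ t x, s (t + Real.pi) x = s t x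
  expand : ∀ t t' x, t ≤ t' → t' ≤ t + 1 → s t x * (t' - t) ≤ 2 * (V (F t' (F t x)) - V x)

variable {L : Type}

/-- the action of a word (first letter first); `α l` is the angle of the letter `l` -/
def W (S : Sys) (α : L → ℝ) : List L → ℝ → ℝ
  | [], x => x
  | l :: w, x => W S α w (S.F (α l) x)

/-- the open arc of radius `ε` around `β`, lifted to the line -/
def arc (β ε : ℝ) : Set ℝ := {x | ∃ k : ℤ, |x - β - k| < ε}

/-- the largest set invariant under all letters and missing the arc -/
def N (S : Sys) (α : L → ℝ) (β ε : ℝ) : Set ℝ := {x | ∀ w : List L, W S α w x ∉ arc β ε}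

/-- the end point below `β` of the gap of `N` around `β` -/
noncomputable def aPt (S : Sys) (α : L → ℝ) (β ε : ℝ) : ℝ := sSup (N S α β ε ∩ Set.Iic β)

/-- `c` is an end point of a gap of `M` -/
def GapEnd (M : Set ℝ) (c : ℝ) : Prop :=
  c ∈ M ∧ ∃ e ∈ M, e ≠ c ∧ ∀ x ∈ M, ¬ (min c e < x ∧ x < max c e)

variable {r : ℕ}

/-- the angles: the variable letter `none` has angle `t`, the fixed letter `some i` has `θ i` -/
def ext (θ : Fin r → ℝ) (t : ℝ) : Option (Fin r) → ℝ := fun l => l.elim t θ

/-- words of even length whose letters in the places 2, 4, 6, ... are fixed letters -/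
inductive Alt : List (Option (Fin r)) → Prop
  | nil : Alt []
  | cons (l : Option (Fin r)) (i : Fin r) (w : List (Option (Fin r))) :
      Alt w → Alt (l :: some i :: w)

/-- a loop at `c` with word `none :: some i :: w` and shift `n` -/
def Loop (S : Sys) (θ : Fin r → ℝ) (t c : ℝ) (i : Fin r) (w : List (Option (Fin r))) (n : ℤ) :
    Prop :=
  Alt w ∧ W S (ext θ t) (none :: some i :: w) c = c + n

/-- the angles are pairwise distinct modulo `π` -/
def Dist (θ : Fin r → ℝ) : Prop :=
  ∀ i k, i ≠ k → ∀ n : ℤ, θ i ≠ θ k + n * Real.pi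

/-- every gap of every invariant set which is not parallel to the variable direction has loops at
both end points -/
def HasLoops (S : Sys) (θ : Fin r → ℝ) : Prop :=
  ∀ t : ℝ, (∀ (i : Fin r) (k : ℤ), t ≠ θ i + k * Real.pi) →
    ∀ M : Set ℝ, IsClosed M → M ≠ Set.univ → (∀ x ∈ M, x + 1 ∈ M) → (∀ x ∈ M, x - 1 ∈ M) →
      (∀ l, ∀ x ∈ M, S.F (ext θ t l) x ∈ M) →
      ∀ c e : ℝ, c ∈ M → e ∈ M → c ≠ e → (∀ x ∈ M, ¬ (min c e < x ∧ x < max c e)) →
        (∀ k : ℤ, S.F t c ≠ e + k) →
        ∃ i w n, Loop S θ t c i w n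

end AD
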