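import Pool.Agent.Helper45.AD.WCont

set_option autoImplicit false

/-! # AD-04: the largest invariant set missing an arc -/

namespace AD

variable {L : Type} {r : ℕ}

theorem N_inv (S : Sys) (α : L → ℝ) (β ε : ℝ) {x : ℝ} (hx : x ∈ N S α β ε) (l : L) :
    S.F (α l) x ∈ N S α β ε := fun w => hx (l :: w)

theorem N_W (S : Sys) (α : L → ℝ) (β ε : ℝ) {x : ℝ} (hx : x ∈ N S α β ε) (w : List L) :
    W S α w x ∈ N S α β ε := by
  intro w'
  rw [← W_append]
  exact hx _

theorem N_add_int (S : Sys) (α : L → ℝ) (β ε : ℝ) {x : ℝ} (hx : x ∈ N S α β ε) (k : ℤ) :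
    x + k ∈ N S α β ε := by
  intro w
  rw [W_add_int, arc_add_int]
  exact hx w

theorem N_not_arc (S : Sys) (α : L → ℝ) (β ε : ℝ) {x : ℝ} (hx : x ∈ N S α β ε) :
    x ∉ arc β ε := hx []

theorem N_max (S : Sys) (α : L → ℝ) (β ε : ℝ) {M : Set ℝ} (hM : ∀ l, ∀ x ∈ M, S.F (α l) x ∈ M)
    (hd : ∀ x ∈ M, x ∉ arc β ε) : M ⊆ N S α β ε := by
  intro x hx w
  induction w generalizing x with
  | nil => exact hd x hx
  | cons l w ih => exact ih (hM l x hx)

theorem N_graph_closed (S : Sys) (β ε : ℝ) {A : Type} [TopologicalSpace A] (α : A → L → ℝ)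
    (hα : ∀ l, Continuous fun a => α a l) : IsClosed {q : A × ℝ | q.2 ∈ N S (α q.1) β ε} := by
  have : {q : A × ℝ | q.2 ∈ N S (α q.1) β ε} =
      ⋂ w : List L, {q : A × ℝ | W S (α q.1) w q.2 ∉ arc β ε} := by
    ext q; simp [N]
  rw [this]
  refine isClosed_iInter fun w => ?_
  have hc : Continuous fun q : A × ℝ => W S (α q.1) w q.2 :=
    W_cont S w (fun q : A × ℝ => α q.1) (fun l => (hα l).comp continuous_fst) _ continuous_snd
  exact ((arc_isOpen β ε).isClosed_compl).preimage hc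

theorem N_closed (S : Sys) (α : L → ℝ) (β ε : ℝ) : IsClosed (N S α β ε) := by
  have h := N_graph_closed S β ε (fun _ : Unit => α) (fun _ => continuous_const)
  exact h.preimage (continuous_const.prodMk continuous_id : Continuous fun x : ℝ => ((), x))

/-- the parameters for which `N` has a point in a given compact set form a closed set -/
theorem N_meet_closed (S : Sys) (β ε : ℝ) {A : Type} [TopologicalSpace A] (α : A → L → ℝ)
    (hα : ∀ l, Continuous fun a => α a l) {C : Set ℝ} (hC : IsCompact C) :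
    IsClosed {a : A | ∃ x ∈ C, x ∈ N S (α a) β ε} := by
  haveI : CompactSpace C := isCompact_iff_compactSpace.1 hC
  have h1 : IsClosed {q : A × C | (q.2 : ℝ) ∈ N S (α q.1) β ε} :=
    (N_graph_closed S β ε α hα).preimage
      (continuous_fst.prodMk (continuous_subtype_val.comp continuous_snd))
  have h2 := isClosedMap_fst_of_compactSpace (X := A) (Y := C) _ h1
  convert h2 using 1
  ext a
  constructor
  · rintro ⟨x, hx, hxN⟩
    exact ⟨(a, ⟨x, hx⟩), hxN, rfl⟩
  · rintro ⟨⟨a', x⟩, hx, rfl⟩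
    exact ⟨x, x.2, hx⟩

theorem N_nonempty_iff (S : Sys) (α : L → ℝ) (β ε : ℝ) :
    (N S α β ε).Nonempty ↔ ∃ x ∈ Set.Icc (0 : ℝ) 1, x ∈ N S α β ε := by
  constructor
  · rintro ⟨x, hx⟩
    refine ⟨Int.fract x, ⟨Int.fract_nonneg x, (Int.fract_lt_one x).le⟩, ?_⟩
    have h := N_add_int S α β ε hx (-⌊x⌋)
    push_cast at h
    rwa [← sub_eq_add_neg, Int.self_sub_floor] at h
  · rintro ⟨x, -, hx⟩
    exact ⟨x, hx⟩

theorem N_proj_closed (S : Sys) (β ε : ℝ) {A : Type} [TopologicalSpace A] (α : A → L → ℝ)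
    (hα : ∀ l, Continuous fun a => α a l) : IsClosed {a : A | (N S (α a) β ε).Nonempty} := by
  simp only [N_nonempty_iff]
  exact N_meet_closed S β ε α hα isCompact_Icc

theorem N_relabel {L' : Type} (S : Sys) (e : L' ≃ L) (α : L → ℝ) (β ε : ℝ) :
    N S (α ∘ e) β ε = N S α β ε := by
  ext x
  constructor
  · intro h w
    have := h (w.map e.symm)
    rw [W_map] at this
    simpa [Function.comp_assoc] using this
  · intro h w
    rw [← W_map]
    exact h _

end AD
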