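import Pool.Agent.Helper45.AD.Model
import Pool.Agent.Helper45.AD.NSet

set_option autoImplicit false

/-!
# AD-H2: a non-dense invariant set gives a nonempty `N` for a rational arc

PROOF.  There is `q ∈ frontier K` with `q ∉ closure V`; `q = p x₀` (`p_surj`).  By continuity of `p`
there is `δ > 0` such that `p x ∉ V` for `|x - x₀| < δ`.  Let `M = p ⁻¹' V`.  `M` is nonempty
(`p_surj`), invariant under all `S.F (α l)` (`p_chord`: `p (S.F (α l) x) = chord K (dirv (α l)) (p x)`).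
Choose a rational `β` with `|β - x₀| < δ / 2` (`exists_rat_btwn`) and `n` with
`1 / (n + 1) < δ / 2` (`exists_nat_one_div_lt`).  No `x ∈ M` lies in `arc β (1 / (n + 1))`: if
`|x - β - k| < 1 / (n + 1)` then `|(x - k) - x₀| < δ` so `p (x - k) ∉ V`, but `p (x - k) = p x ∈ V`
(`p_eq`).  So `M ⊆ N` (`N_max`). -/

namespace AD

open ChordMaps

variable {K : Set Plane}

theorem exists_N_of_not_dense (Mo : Model K) {L : Type} (α : L → ℝ) (V : Set Plane)
    (hV : V ⊆ frontier K) (hne : V.Nonempty)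
    (hinv : ∀ l, ∀ x ∈ V, chord K (dirv (α l)) x ∈ V) (hnd : ¬ frontier K ⊆ closure V) :
    ∃ (β : ℚ) (n : ℕ), (N Mo.S α β (1 / ((n : ℝ) + 1))).Nonempty := by
  rw [Set.not_subset] at hnd
  obtain ⟨q, hq, hqc⟩ := hnd
  obtain ⟨x₀, rfl⟩ := Mo.p_surj q hq
  have hopen : IsOpen (Mo.p ⁻¹' (closure V)ᶜ) :=
    isClosed_closure.isOpen_compl.preimage Mo.p_cont
  obtain ⟨δ, hδ, hball⟩ := Metric.isOpen_iff.1 hopen x₀ hqc
  obtain ⟨β, hβ1, hβ2⟩ := exists_rat_btwn (show x₀ - δ / 2 < x₀ by linarith)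
  obtain ⟨n, hn⟩ := exists_nat_one_div_lt (half_pos hδ)
  obtain ⟨v, hv⟩ := hne
  obtain ⟨y, rfl⟩ := Mo.p_surj v (hV hv)
  refine ⟨β, n, y, ?_⟩
  have hsub : Mo.p ⁻¹' V ⊆ N Mo.S α β (1 / ((n : ℝ) + 1)) := by
    apply N_max
    · intro l x hx
      change Mo.p _ ∈ V
      rw [← Mo.p_chord]
      exact hinv l _ hx
    · rintro x hx ⟨k, hk⟩
      have h1 : Mo.p (x - k) ∉ closure V := by
        apply hball
        rw [Metric.mem_ball, Real.dist_eq]
        rw [abs_lt] at hk ⊢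
        constructor <;> linarith [hk.1, hk.2]
      have h2 : Mo.p (x - k) = Mo.p x := (Mo.p_eq _ _).2 ⟨-k, by push_cast; ring⟩
      rw [h2] at h1
      exact h1 (subset_closure hx)
  exact hsub hv

end AD
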