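import Pool.Agent.Helper45.AD.WBasic

set_option autoImplicit false

/-!
# AE-04: finitely many far points imply a finite invariant set

`E` is invariant under the maps `S.F (α l)` and integer translations, and for every `m` only finitely
many points `x ∈ E ∩ [0, 1]` have `S.s t x ≥ 1/(m+1)` and `S.s t (S.F a x) ≥ 1/(m+1)`.

PROOF.  (0) `zero_finite`: `{x | S.s t x = 0}` is finite modulo 1.  By `S.s_zero`,
`S.F t x = x + n`; the function `z ↦ S.F t z - z` is strictly decreasing, so for each integer `n` there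
is at most one such `x`, and `x_{n - 2 k} = x_n + k` (`F_add_int`), so there are at most two classes
modulo 1 (even `n`, odd `n`).
(1) If `Int.fract '' E` is finite take `D = E`.
(2) Otherwise `E₁ = Int.fract '' E ⊆ E ∩ [0, 1)` is infinite.  Let
`D = {x | AccPt x (Filter.principal E)}` (the derived set of `E`).  `D` is nonempty (an infinite
subset of the compact `[0, 1]` has an accumulation point: `IsCompact` and
`Set.Infinite.exists_accPt_of_subset_isCompact`).  `D` is invariant under `S.F (α l)`: the map is a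
homeomorphism of the line (continuous by `S.cont`, involution `S.inv`) which maps `E` into `E`
(`AccPt.map`, or sequences, or neighbourhoods directly).  `Int.fract '' D` is finite: let `x ∈ D` with
`S.s t x > 0` and `S.s t (S.F a x) > 0`; choose `m` with `1/(m+1)` smaller than both; by continuity
there is a neighbourhood `U = (x - δ, x + δ)`, `δ < 1/2`, on which both are `> 1/(m+1)`; `U ∩ E` is
infinite, and `fract` maps it into the finite set of the hypothesis at most two to one (`U` has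
length `< 1`, so `fract` is injective on it) : contradiction.  So every `x ∈ D` has `S.s t x = 0` or
`S.s t (S.F a x) = 0`, so `fract x` lies in a finite set by (0) and `fract_F_iff`
(`fract (S.F a ·)` determines `fract`). -/

namespace AD

private lemma parity_subsingleton (S : Sys) (t : ℝ) (x y : ℝ) (n m k : ℤ)
    (hx : S.F t x = x + n) (hy : S.F t y = y + m) (hk : n - m = 2 * k) :
    Int.fract x = Int.fract y := by
  have h1 : S.F t (y + ((-k : ℤ) : ℝ)) = (y + ((-k : ℤ) : ℝ)) + n := by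
    rw [F_add_int, hy]
    have : (n : ℝ) - m = 2 * k := by exact_mod_cast hk
    push_cast
    linarith
  have h2 : x = y + ((-k : ℤ) : ℝ) := by
    rcases lt_trichotomy x (y + ((-k : ℤ) : ℝ)) with h | h | h
    · have := S.anti t h
      rw [hx, h1] at this
      linarith
    · exact h
    · have := S.anti t h
      rw [hx, h1] at this
      linarith
  rw [h2, Int.fract_add_intCast]

theorem zero_finite (S : Sys) (t : ℝ) : (Int.fract '' {x : ℝ | S.s t x = 0}).Finite := by
  have hsub : (Int.fract '' {x : ℝ | S.s t x = 0}) ⊆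
      (Int.fract '' {x : ℝ | ∃ n : ℤ, n % 2 = 0 ∧ S.F t x = x + n}) ∪
      (Int.fract '' {x : ℝ | ∃ n : ℤ, n % 2 = 1 ∧ S.F t x = x + n}) := by
    rintro _ ⟨x, hx, rfl⟩
    obtain ⟨n, hn⟩ := S.s_zero t x hx
    rcases Int.emod_two_eq_zero_or_one n with h | h
    · exact Or.inl ⟨x, ⟨n, h, hn⟩, rfl⟩
    · exact Or.inr ⟨x, ⟨n, h, hn⟩, rfl⟩
  refine Set.Finite.subset (Set.Finite.union ?_ ?_) hsub
  · apply Set.Subsingleton.finite
    rintro _ ⟨x, ⟨n, hn, hx⟩, rfl⟩ _ ⟨y, ⟨m, hm, hy⟩, rfl⟩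
    exact parity_subsingleton S t x y n m ((n - m) / 2) hx hy (by omega)
  · apply Set.Subsingleton.finite
    rintro _ ⟨x, ⟨n, hn, hx⟩, rfl⟩ _ ⟨y, ⟨m, hm, hy⟩, rfl⟩
    exact parity_subsingleton S t x y n m ((n - m) / 2) hx hy (by omega)

private lemma zero_finite' (S : Sys) (a t : ℝ) :
    (Int.fract '' {x : ℝ | S.s t (S.F a x) = 0}).Finite := by
  refine Set.Finite.of_injOn (f := fun y : ℝ => Int.fract (S.F a y))
    (t := Int.fract '' {x : ℝ | S.s t x = 0}) ?_ ?_ (zero_finite S t)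
  · rintro _ ⟨x, hx, rfl⟩
    refine ⟨S.F a x, hx, ?_⟩
    change Int.fract (S.F a x) = Int.fract (S.F a (Int.fract x))
    rw [fract_F_iff, Int.fract_fract]
  · rintro _ ⟨x, _, rfl⟩ _ ⟨y, _, rfl⟩ h
    change Int.fract (S.F a (Int.fract x)) = Int.fract (S.F a (Int.fract y)) at h
    rw [fract_F_iff, Int.fract_fract, Int.fract_fract] at h
    exact h

open Filter Topology in
theorem exists_finInv (S : Sys) {L : Type} (α : L → ℝ) (E : Set ℝ) (hne : E.Nonempty)
    (hinv : ∀ l, ∀ x ∈ E, S.F (α l) x ∈ E) (hp : ∀ x ∈ E, ∀ k : ℤ, x + k ∈ E) (a t : ℝ)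
    (hfin : ∀ m : ℕ, (E ∩ {x : ℝ | 0 ≤ x ∧ x ≤ 1 ∧ 1 / ((m : ℝ) + 1) ≤ S.s t x ∧
      1 / ((m : ℝ) + 1) ≤ S.s t (S.F a x)}).Finite) :
    ∃ D : Set ℝ, D.Nonempty ∧ (Int.fract '' D).Finite ∧ ∀ l, ∀ x ∈ D, S.F (α l) x ∈ D := by
  have hfr : ∀ x ∈ E, Int.fract x ∈ E := by
    intro x hx
    have := hp x hx (-⌊x⌋)
    have e : x + ((-⌊x⌋ : ℤ) : ℝ) = Int.fract x := by
      rw [Int.fract]; push_cast; ring
    rwa [e] at this
  by_cases hf : (Int.fract '' E).Finite
  · exact ⟨E, hne, hf, hinv⟩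
  have hinf : (Int.fract '' E).Infinite := hf
  have hcont : ∀ b : ℝ, Continuous (S.F b) := fun b =>
    S.cont.comp (continuous_const.prodMk continuous_id)
  have hscont : ∀ b : ℝ, Continuous (S.s b) := fun b =>
    S.s_cont.comp (continuous_const.prodMk continuous_id)
  refine ⟨{x | AccPt x (𝓟 E)}, ?_, ?_, ?_⟩
  · have hsub : Int.fract '' E ⊆ Set.Icc (0 : ℝ) 1 := by
      rintro _ ⟨x, _, rfl⟩
      exact ⟨Int.fract_nonneg x, (Int.fract_lt_one x).le⟩
    obtain ⟨x, _, hx⟩ := hinf.exists_accPt_of_subset_isCompact isCompact_Icc hsub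
    refine ⟨x, hx.mono (principal_mono.2 ?_)⟩
    rintro _ ⟨y, hy, rfl⟩
    exact hfr y hy
  · have hsub : {x | AccPt x (𝓟 E)} ⊆ {x : ℝ | S.s t x = 0} ∪ {x : ℝ | S.s t (S.F a x) = 0} := by
      intro x hx
      by_contra hcon
      have hA : S.s t x ≠ 0 := fun h => hcon (Or.inl h)
      have hB : S.s t (S.F a x) ≠ 0 := fun h => hcon (Or.inr h)
      have hA' : 0 < S.s t x := lt_of_le_of_ne (S.s_nonneg t x) (Ne.symm hA)
      have hB' : 0 < S.s t (S.F a x) := lt_of_le_of_ne (S.s_nonneg t _) (Ne.symm hB)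
      obtain ⟨m, hm⟩ := exists_nat_one_div_lt (lt_min hA' hB')
      have hU : {y : ℝ | 1 / ((m : ℝ) + 1) < S.s t y ∧ 1 / ((m : ℝ) + 1) < S.s t (S.F a y) ∧
          y < x + 1 / 2 ∧ x - 1 / 2 < y} ∈ 𝓝 x := by
        have c1 : ∀ᶠ y in 𝓝 x, 1 / ((m : ℝ) + 1) < S.s t y :=
          (hscont t).continuousAt.eventually_const_lt (lt_of_lt_of_le hm (min_le_left _ _))
        have c2 : ∀ᶠ y in 𝓝 x, 1 / ((m : ℝ) + 1) < S.s t (S.F a y) :=
          ((hscont t).comp (hcont a)).continuousAt.eventually_const_lt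
            (lt_of_lt_of_le hm (min_le_right _ _))
        have c3 : ∀ᶠ y in 𝓝 x, y < x + 1 / 2 := eventually_lt_nhds (by linarith)
        have c4 : ∀ᶠ y in 𝓝 x, x - 1 / 2 < y := eventually_gt_nhds (by linarith)
        filter_upwards [c1, c2, c3, c4] with y h1 h2 h3 h4
        exact ⟨h1, h2, h3, h4⟩
      have hinf2 := Set.Infinite.of_accPt (AccPt.nhds_inter hx hU)
      have hinj : Set.InjOn Int.fract ({y : ℝ | 1 / ((m : ℝ) + 1) < S.s t y ∧
          1 / ((m : ℝ) + 1) < S.s t (S.F a y) ∧ y < x + 1 / 2 ∧ x - 1 / 2 < y} ∩ E) := by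
        rintro y ⟨⟨_, _, y3, y4⟩, _⟩ z ⟨⟨_, _, z3, z4⟩, _⟩ h
        obtain ⟨k, hk⟩ := (fract_eq_iff y z).1 h
        have k1 : (k : ℝ) < 1 := by linarith
        have k2 : (-1 : ℝ) < k := by linarith
        have k1' : k < 1 := by exact_mod_cast k1
        have k2' : -1 < k := by exact_mod_cast k2
        have k0 : k = 0 := by omega
        rw [hk, k0]; simp
      refine (hinf2.image hinj) (Set.Finite.subset (hfin m) ?_)
      rintro _ ⟨y, ⟨⟨y1, y2, _, _⟩, yE⟩, rfl⟩
      have e : Int.fract y = y + ((-⌊y⌋ : ℤ) : ℝ) := by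
        rw [Int.fract]; push_cast; ring
      refine ⟨hfr y yE, Int.fract_nonneg y, (Int.fract_lt_one y).le, ?_, ?_⟩
      · rw [e, s_add_int]
        exact y1.le
      · rw [e, F_add_int]
        have e2 : S.F a y - ((-⌊y⌋ : ℤ) : ℝ) = S.F a y + ((⌊y⌋ : ℤ) : ℝ) := by
          push_cast; ring
        rw [e2, s_add_int]
        exact y2.le
    refine Set.Finite.subset ((zero_finite S t).union (zero_finite' S a t)) ?_
    rw [← Set.image_union]
    exact Set.image_mono hsub
  · intro l x hx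
    have hx' := accPt_iff_frequently.1 hx
    refine accPt_iff_frequently.2 ?_
    have ht : Tendsto (S.F (α l)) (𝓝 x) (𝓝 (S.F (α l) x)) := (hcont (α l)).continuousAt
    refine ht.frequently (hx'.mono ?_)
    rintro y ⟨hy1, hy2⟩
    exact ⟨fun h => hy1 (F_inj S (α l) h), hinv l y hy2⟩

end AD
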