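import Mathlib

set_option autoImplicit false

/-!
# AD-H6: four involutions with commuting products and locally finite products

PROOF.  Work in the subtype `E`: `F i : Equiv.Perm E` is the involution given by `f i`
(`Function.Involutive.toPerm`), `ρ i = F 0 * F i`.  `h3` gives `F i * F 0 * F k = F k * F 0 * F i`,
hence `Commute (ρ i) (ρ k)` (`F 0 * F i * F 0 * F k = F 0 * F k * F 0 * F i`).
For `y ∈ E` the set `{(ρ i ^ a) y | a : ℤ}` is finite: by `hfin` with `(0, i)` the set of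
`(ρ i ^ n) y`, `n : ℕ`, is finite, so `(ρ i ^ n) y = (ρ i ^ m) y` for some `n < m` (infinitely many
exponents, finitely many values: `Set.Finite`/`Finite.exists_ne_map_eq_of_infinite`), so
`(ρ i ^ d) y = y` with `d = m - n > 0`, and then `(ρ i ^ a) y = (ρ i ^ (a % d)) y`.
Let `Q x = {((ρ 1 ^ a * ρ 2 ^ b * ρ 3 ^ c) * (F 0) ^ e) x | a b c : ℤ, e : Bool (0 or 1)}`: finite
as an iterated finite union (`Set.Finite.biUnion`).  `x ∈ Q`.  Invariance under `F 0`: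
`F 0 * ρ i * F 0 = (ρ i)⁻¹` (because `F 0 * F 0 = 1`, `(ρ i)⁻¹ = F i * F 0`), so
`F 0 * ρ 1 ^ a * ρ 2 ^ b * ρ 3 ^ c = ρ 1 ^ (-a) * ρ 2 ^ (-b) * ρ 3 ^ (-c) * F 0`
(conjugation, `MulAut`/`conj_zpow` or by induction), and `F 0 * (F 0) ^ e = (F 0) ^ (1 - e)`.
Under `F i` (`i = 1, 2, 3`): `F i = F 0 * ρ i`, and `ρ i` is absorbed by commutativity
(`Commute.zpow_zpow`), then `F 0` as before.
The conclusion is stated for the set of values in `X`. -/

namespace AD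

private theorem zpow_orbit_finite {Y : Type} (g : Equiv.Perm Y) (y : Y)
    (h : (Set.range fun n : ℕ => (g ^ n) y).Finite) :
    (Set.range fun a : ℤ => (g ^ a) y).Finite := by
  have hni : ¬ Function.Injective (fun n : ℕ => (g ^ n) y) := fun hi =>
    Set.infinite_range_of_injective hi h
  have hex : ∃ d : ℕ, 0 < d ∧ (g ^ d) y = y := by
    have key : ∀ n m : ℕ, n < m → (g ^ n) y = (g ^ m) y → ∃ d : ℕ, 0 < d ∧ (g ^ d) y = y := by
      intro n m hnm he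
      refine ⟨m - n, by omega, ?_⟩
      have h1 : g ^ m = g ^ n * g ^ (m - n) := by
        rw [← pow_add]
        congr 1
        omega
      rw [h1, Equiv.Perm.mul_apply] at he
      exact ((g ^ n).injective he).symm
    rw [Function.Injective] at hni
    push Not at hni
    obtain ⟨n, m, he, hne⟩ := hni
    rcases lt_or_gt_of_ne hne with h1 | h1
    · exact key n m h1 he
    · exact key m n h1 he.symm
  obtain ⟨d, hd, hdy⟩ := hex
  have hfin : ((fun n : ℕ => (g ^ n) y) '' (Set.Iio d)).Finite := (Set.finite_Iio d).image _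
  refine hfin.subset ?_
  rintro _ ⟨a, rfl⟩
  have hd' : (0 : ℤ) < d := by exact_mod_cast hd
  have h0 : 0 ≤ a % (d : ℤ) := Int.emod_nonneg _ hd'.ne'
  have h1 : a % (d : ℤ) < d := Int.emod_lt_of_pos _ hd'
  refine ⟨(a % (d : ℤ)).toNat, ?_, ?_⟩
  · simp only [Set.mem_Iio]
    omega
  · have h2 : a = a % (d : ℤ) + d * (a / (d : ℤ)) := (Int.emod_add_mul_ediv a d).symm
    have h3 : ((g ^ d) ^ (a / (d : ℤ))) y = y :=
      Equiv.Perm.zpow_apply_eq_self_of_apply_eq_self hdy _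
    have h4 : (g ^ a) y = (g ^ (a % (d : ℤ))) y := by
      conv_lhs => rw [h2, zpow_add, zpow_mul, zpow_natCast, Equiv.Perm.mul_apply, h3]
    have h5 : (((a % (d : ℤ)).toNat : ℕ) : ℤ) = a % (d : ℤ) := Int.toNat_of_nonneg h0
    show (g ^ (a % (d : ℤ)).toNat) y = (g ^ a) y
    rw [h4, ← zpow_natCast, h5]

private theorem perm_orbit {Y : Type} (F : Fin 4 → Equiv.Perm Y)
    (hinv : ∀ i, F i * F i = 1)
    (h3 : ∀ i k l, F i * (F k * F l) = F l * (F k * F i))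
    (hfin : ∀ i, ∀ x, (Set.range fun n : ℕ => ((F 0 * F i) ^ n) x).Finite) (x : Y) :
    ∃ S : Set Y, S.Finite ∧ x ∈ S ∧ ∀ i, ∀ y ∈ S, F i y ∈ S := by
  set ρ : Fin 4 → Equiv.Perm Y := fun i => F 0 * F i with hρ
  have hc : ∀ i k, Commute (ρ i) (ρ k) := by
    intro i k
    show F 0 * F i * (F 0 * F k) = F 0 * F k * (F 0 * F i)
    rw [mul_assoc, mul_assoc, h3 i 0 k]
  have hF0 : (F 0)⁻¹ = F 0 := inv_eq_of_mul_eq_one_left (hinv 0)
  have hFi : ∀ i, (F i)⁻¹ = F i := fun i => inv_eq_of_mul_eq_one_left (hinv i)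
  have hconj : ∀ i, F 0 * ρ i * (F 0)⁻¹ = (ρ i)⁻¹ := by
    intro i
    show F 0 * (F 0 * F i) * (F 0)⁻¹ = (F 0 * F i)⁻¹
    rw [mul_inv_rev, ← mul_assoc, hinv 0, one_mul, hFi i]
  have hcz : ∀ i (a : ℤ), F 0 * ρ i ^ a = ρ i ^ (-a) * F 0 := by
    intro i a
    have h1 := conj_zpow (i := a) (a := F 0) (b := ρ i)
    rw [hconj] at h1
    have h2 : F 0 * ρ i ^ a = (ρ i)⁻¹ ^ a * F 0 := by
      rw [h1, inv_mul_cancel_right]
    rw [h2, inv_zpow', ]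
  have hof : ∀ i x, (Set.range fun a : ℤ => (ρ i ^ a) x).Finite :=
    fun i x => zpow_orbit_finite (ρ i) x (hfin i x)
  set S : Set Y := ⋃ y ∈ ({x, F 0 x} : Set Y), ⋃ z ∈ (Set.range fun a : ℤ => (ρ 3 ^ a) y),
    ⋃ w ∈ (Set.range fun a : ℤ => (ρ 2 ^ a) z), (Set.range fun a : ℤ => (ρ 1 ^ a) w) with hS
  have hmem : ∀ v, v ∈ S ↔ ∃ (a b c : ℤ) (y : Y), (y = x ∨ y = F 0 x) ∧
      v = (ρ 1 ^ a * (ρ 2 ^ b * ρ 3 ^ c)) y := by
    intro v
    simp only [hS, Set.mem_iUnion, Set.mem_insert_iff, Set.mem_singleton_iff, Set.mem_range,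
      exists_prop]
    constructor
    · rintro ⟨y, hy, z, ⟨c, rfl⟩, w, ⟨b, rfl⟩, a, rfl⟩
      exact ⟨a, b, c, y, hy, rfl⟩
    · rintro ⟨a, b, c, y, hy, rfl⟩
      exact ⟨y, hy, _, ⟨c, rfl⟩, _, ⟨b, rfl⟩, a, rfl⟩
  have hrho : ∀ i, ∀ y ∈ S, ρ i y ∈ S := by
    intro i v hv
    obtain ⟨a, b, c, y, hy, rfl⟩ := (hmem v).1 hv
    rw [hmem]
    have c21 : Commute (ρ 2) (ρ 1 ^ a) := (hc 2 1).zpow_right a
    have c31 : Commute (ρ 3) (ρ 1 ^ a) := (hc 3 1).zpow_right a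
    have c32 : Commute (ρ 3) (ρ 2 ^ b) := (hc 3 2).zpow_right b
    fin_cases i
    · refine ⟨a, b, c, y, hy, ?_⟩
      have : ρ 0 = 1 := hinv 0
      show ρ 0 _ = _
      rw [this]
      rfl
    · refine ⟨1 + a, b, c, y, hy, ?_⟩
      rw [zpow_add, zpow_one, mul_assoc]
      rfl
    · refine ⟨a, 1 + b, c, y, hy, ?_⟩
      show (ρ 2 * (ρ 1 ^ a * (ρ 2 ^ b * ρ 3 ^ c))) y = _
      rw [zpow_add, zpow_one, ← mul_assoc, c21.eq, mul_assoc, mul_assoc (ρ 2)]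
    · refine ⟨a, b, 1 + c, y, hy, ?_⟩
      show (ρ 3 * (ρ 1 ^ a * (ρ 2 ^ b * ρ 3 ^ c))) y = _
      rw [zpow_add, zpow_one, ← mul_assoc, c31.eq, mul_assoc, ← mul_assoc (ρ 3), c32.eq, mul_assoc (ρ 2 ^ b)]
  have hf0 : ∀ y ∈ S, F 0 y ∈ S := by
    intro v hv
    obtain ⟨a, b, c, y, hy, rfl⟩ := (hmem v).1 hv
    rw [hmem]
    refine ⟨-a, -b, -c, F 0 y, ?_, ?_⟩
    · rcases hy with rfl | rfl
      · exact Or.inr rfl
      · left
        show (F 0 * F 0) x = x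
        rw [hinv 0]
        rfl
    · show (F 0 * (ρ 1 ^ a * (ρ 2 ^ b * ρ 3 ^ c))) y = (ρ 1 ^ (-a) * (ρ 2 ^ (-b) * ρ 3 ^ (-c)) * F 0) y
      have : F 0 * (ρ 1 ^ a * (ρ 2 ^ b * ρ 3 ^ c)) =
          ρ 1 ^ (-a) * (ρ 2 ^ (-b) * ρ 3 ^ (-c)) * F 0 := by
        rw [← mul_assoc, hcz, mul_assoc, ← mul_assoc (F 0), hcz, mul_assoc (ρ 2 ^ (-b)), hcz,
          mul_assoc, mul_assoc]
      rw [this]
  refine ⟨S, ?_, ?_, ?_⟩
  · rw [hS]
    refine Set.Finite.biUnion (by simp) fun y _ => ?_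
    refine Set.Finite.biUnion (hof 3 y) fun z _ => ?_
    exact Set.Finite.biUnion (hof 2 z) fun w _ => hof 1 w
  · rw [hmem]
    exact ⟨0, 0, 0, x, Or.inl rfl, by simp⟩
  · intro i v hv
    have h1 : F i v = F 0 (ρ i v) := by
      show F i v = (F 0 * (F 0 * F i)) v
      rw [← mul_assoc, hinv 0, one_mul]
    rw [h1]
    exact hf0 _ (hrho i v hv)

theorem full_orbit_finite {X : Type} (f : Fin 4 → X → X) (E : Set X)
    (hE : ∀ i, ∀ x ∈ E, f i x ∈ E) (hinv : ∀ i, ∀ x ∈ E, f i (f i x) = x)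
    (h3 : ∀ i k l, ∀ x ∈ E, f i (f k (f l x)) = f l (f k (f i x)))
    (hfin : ∀ i k, ∀ x ∈ E, (Set.range fun n : ℕ => (f i ∘ f k)^[n] x).Finite) :
    ∀ x ∈ E, ∃ Q : Set X, Q.Finite ∧ x ∈ Q ∧ Q ⊆ E ∧ ∀ i, ∀ y ∈ Q, f i y ∈ Q := by
  intro x hx
  have hi : ∀ i, Function.Involutive (fun y : E => (⟨f i y.1, hE i y.1 y.2⟩ : E)) := by
    intro i y
    exact Subtype.ext (hinv i y.1 y.2)
  set F : Fin 4 → Equiv.Perm E := fun i => (hi i).toPerm _ with hF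
  have hFv : ∀ i (y : E), ((F i y : E) : X) = f i y.1 := fun i y => rfl
  have hit : ∀ i (n : ℕ) (y : E), ((((F 0 * F i) ^ n) y : E) : X) = (f 0 ∘ f i)^[n] y.1 := by
    intro i n
    induction n with
    | zero => intro y; rfl
    | succ n ih =>
      intro y
      rw [pow_succ', Equiv.Perm.mul_apply, Function.iterate_succ_apply', ← ih y]
      rfl
  obtain ⟨S, hS, hxS, hSi⟩ := perm_orbit F
    (fun i => by
      ext y
      exact hinv i y.1 y.2)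
    (fun i k l => by
      ext y
      exact h3 i k l y.1 y.2)
    (fun i y => by
      have h1 := hfin 0 i y.1 y.2
      refine Set.Finite.of_finite_image (f := Subtype.val) ?_ Subtype.val_injective.injOn
      refine h1.subset ?_
      rintro _ ⟨_, ⟨n, rfl⟩, rfl⟩
      exact ⟨n, (hit i n y).symm⟩) ⟨x, hx⟩
  refine ⟨Subtype.val '' S, hS.image _, ⟨_, hxS, rfl⟩, ?_, ?_⟩
  · rintro _ ⟨y, _, rfl⟩
    exact y.2
  · rintro i _ ⟨y, hy, rfl⟩
    exact ⟨F i y, hSi i y hy, rfl⟩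

end AD
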