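import Pool.Agent.Helper45.AD.ThreePt

set_option autoImplicit false

/-!
# AD-H11a: orbits of all gap ends are finite

`hfin` = finiteness of `{fract (W S θ_j g (aPt S t β (ε n)))}` for all `j`, rational `β` and `n`,
`ε n = 1 / (n + 1)`, `θ_j = fun i : Fin 3 => t (j.succAbove i)`.

PROOF of `gapEnd_orbit`.  Let `M = N S t β₀ ε₀`, `c` a gap end of `M` with partner `e`.  Choose a
rational `β` with `min c e < β < max c e` and `n` with `ε n < min (β - min c e) (max c e - β)`.  No
point of `M` lies in `arc β (ε n)` (`|x - β - k| < ε n` implies that `x - k ∈ M` (`N_add_int`) lies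
strictly between `c` and `e`), so `M ⊆ N' = N S t β (ε n)` (`N_max`, `N_inv`), `N'` is nonempty.  Put
`z = aPt S t β (ε n)`: `min c e ≤ z` (`le_aPt`: `min c e ∈ M ⊆ N'`, `min c e ≤ β`) and
`z < β < max c e` (`aPt_lt`).  `gap_orbit_finite` for `M`, `θ_j`, with `hfin j β n`. -/

namespace AD

theorem gapEnd_orbit (S : Sys) (t : Fin 4 → ℝ)
    (hfin : ∀ (j : Fin 4) (β : ℚ) (n : ℕ), (N S t β (1 / ((n : ℝ) + 1))).Nonempty →
      (Set.range fun g : List (Fin 3) => Int.fract (W S (fun i => t (j.succAbove i)) g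
        (aPt S t β (1 / ((n : ℝ) + 1))))).Finite)
    (β₀ ε₀ : ℝ) {c : ℝ} (hc : GapEnd (N S t β₀ ε₀) c) (j : Fin 4) :
    (Set.range fun g : List (Fin 3) =>
      Int.fract (W S (fun i => t (j.succAbove i)) g c)).Finite := by
  obtain ⟨hcM, e, heM, hne, hg⟩ := hc
  have hlt : min c e < max c e := by
    rcases lt_or_gt_of_ne hne with h | h
    · rw [min_eq_right h.le, max_eq_left h.le]
      exact h
    · rw [min_eq_left h.le, max_eq_right h.le]
      exact h
  obtain ⟨β, hβ1, hβ2⟩ := exists_rat_btwn hlt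
  obtain ⟨n, hn⟩ := exists_nat_one_div_lt
    (lt_min (sub_pos.2 hβ1) (sub_pos.2 hβ2) : (0 : ℝ) < min ((β : ℝ) - min c e) (max c e - β))
  have hn1 := hn.trans_le (min_le_left _ _)
  have hn2 := hn.trans_le (min_le_right _ _)
  have hε : (0 : ℝ) < 1 / ((n : ℝ) + 1) := by positivity
  have hsub : N S t β₀ ε₀ ⊆ N S t β (1 / ((n : ℝ) + 1)) := by
    refine N_max S t β _ (fun l x hx => N_inv S t β₀ ε₀ hx l) ?_
    rintro x hx ⟨k, hk⟩
    have h1 := N_add_int S t β₀ ε₀ hx (-k)
    push_cast at h1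
    rw [abs_lt] at hk
    exact hg _ h1 ⟨by linarith [hk.1], by linarith [hk.2]⟩
  have hnon : (N S t β (1 / ((n : ℝ) + 1))).Nonempty := ⟨c, hsub hcM⟩
  have hmin : min c e ∈ N S t β₀ ε₀ := by
    rcases min_choice c e with h | h
    · rw [h]
      exact hcM
    · rw [h]
      exact heM
  exact gap_orbit_finite S (fun i => t (j.succAbove i))
    (fun i x hx => N_inv S t β₀ ε₀ hx (j.succAbove i)) (fun x hx k => N_add_int S t β₀ ε₀ hx k)
    hcM heM hne hg (le_aPt S t β _ (hsub hmin) hβ1.le)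
    ((aPt_lt S t β _ hε hnon).le.trans hβ2.le) (hfin j β n hnon)

end AD
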