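import Pool.Agent.Helper3.LS.L01
import Pool.Agent.Helper3.Chord.UM12

set_option autoImplicit false

/-!
# AD-H5: products of three chord maps on a finite invariant set

PROOF.  `3 ≤ V.ncard` (`um12_ncard`); `exists_enum` gives `v : ℤ → Plane` with
`v i = v j ↔ N ∣ i - j`, `range v = V`; `exists_reflection` gives for every `m : Fin 3` an integer
`s m` with `chord K (w m) (v a) = v (s m - a)` (`w m ≠ 0` because of `PNP`).  Let `x = v a`.  Both
sides are `v (s i - s k + s l - a)`. -/

namespace AD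

open ChordMaps

theorem three_refl {K : Set Plane} (hB : SBody K) {V : Set Plane} (hV : V ⊆ frontier K)
    (hf : V.Finite) (w : Fin 3 → Plane) (hw : PNP w)
    (hinv : ∀ i, ∀ x ∈ V, chord K (w i) x ∈ V) (i k l : Fin 3) {x : Plane} (hx : x ∈ V) :
    chord K (w i) (chord K (w k) (chord K (w l) x)) =
      chord K (w l) (chord K (w k) (chord K (w i) x)) := by
  have hw0 : ∀ i, w i ≠ 0 := by
    intro i h
    obtain ⟨j, hj⟩ : ∃ j : Fin 3, i ≠ j := by
      fin_cases i
      · exact ⟨1, by decide⟩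
      · exact ⟨0, by decide⟩
      · exact ⟨0, by decide⟩
    exact hw i j hj (by rw [h]; simp [cross])
  have h3 : 3 ≤ V.ncard := um12_ncard hB.cpt hB.str hB.smo hf ⟨x, hx⟩ hV w hw hinv
  obtain ⟨v, hv, hr, he⟩ := exists_enum hB.cpt hB.str hf hV h3
  have key : ∀ m : Fin 3, ∃ s : ℤ, ∀ j, chord K (w m) (v j) = v (s - j) := by
    intro m
    obtain ⟨s, hs1, -, -⟩ := exists_reflection hB.cpt hB.str hV v hv hr he (hw0 m) (hinv m)
    exact ⟨s, hs1⟩
  choose s hs using key
  obtain ⟨a, rfl⟩ : ∃ a, v a = x := by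
    have : x ∈ Set.range v := by rw [hr]; exact hx
    exact this
  rw [hs, hs, hs, hs, hs, hs]
  congr 1
  ring

end AD
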