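import Pool.Agent.Helper45.AD.FinInv
import Pool.Agent.Helper45.AD.ThreeRefl
import Pool.Agent.Helper45.AD.FullOrb
import Pool.Agent.Helper45.AD.GapOrb

set_option autoImplicit false

/-!
# AD-H11: if all orbits without one letter are finite, the directions are those of a polygon

Notation: `ε n = 1 / (n + 1)`, `θ_j = fun i : Fin 3 => t (j.succAbove i)`,
`hfin` = finiteness of `{fract (W S θ_j g (aPt S t β (ε n)))}` for all `j`, rational `β` and `n`.

PROOF of `polygon_of_fin`.  `E₀ = {c | GapEnd M c}`, `E = Mo.p '' E₀`, `f i = chord K (dirv (t i))`.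
`E₀` is nonempty (`aPt_gapEnd`), invariant (`GapEnd.map`), so `E` is invariant under `f i`, and
`f i (f i x) = x` on `E` (`p_chord`, `S.inv`).
For `x = p c ∈ E` and `j : Fin 4` put `V_j = range (g ↦ p (W S θ_j g c))`: finite
(`gapEnd_orbit`, `finite_p`), contains `x`, contained in `frontier K` (`p_mem`), invariant under
`chord K (dirv (θ_j i))`, `i : Fin 3` (`inv_p`).
`hfin` of `full_orbit_finite`: given `i k`, take `j ∉ {i, k}` (`decide`-able in `Fin 4`), `i`, `k` are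
of the form `j.succAbove _` (`Fin.exists_succAbove_eq`), so all `(f i ∘ f k)^[n] x` are in `V_j`.
`h3`: given `i k l` take `j ∉ {i, k, l}`; `three_refl` for `V_j` and
`w m = dirv (θ_j m)` (`PNP` from `Dist t` by `cross_dirv_eq_zero_iff`).
So there is a finite `Q`, `x ∈ Q ⊆ E ⊆ frontier K`, invariant under all `f i`;
`gardner_mcmullen` (`K` compact, strictly convex, smooth; `V = Q`; `w m = dirv (t m)`,
`m = 0, 1, 2`) gives `n`, `A`, and the conclusion for `u = dirv (t i)` (`dirv_ne`), all `i : Fin 4`. -/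

namespace AD

open ChordMaps

variable {K : Set Plane}

private lemma det4_avoid : ∀ i k l : Fin 4, ∃ j : Fin 4, j ≠ i ∧ j ≠ k ∧ j ≠ l := by
  decide

theorem polygon_of_fin (hB : SBody K) (Mo : Model K) (t : Fin 4 → ℝ) (hd : Dist t)
    (hfin : ∀ (j : Fin 4) (β : ℚ) (n : ℕ), (N Mo.S t β (1 / ((n : ℝ) + 1))).Nonempty →
      (Set.range fun g : List (Fin 3) => Int.fract (W Mo.S (fun i => t (j.succAbove i)) g
        (aPt Mo.S t β (1 / ((n : ℝ) + 1))))).Finite)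
    (β₀ ε₀ : ℝ) (hε : 0 < ε₀) (hN : (N Mo.S t β₀ ε₀).Nonempty) :
    ∃ (n : ℕ) (A : Plane ≃L[ℝ] Plane), ∀ i, ∃ (m : ℤ) (c : ℝ), c ≠ 0 ∧
      dirv (t i) = c • A (dir n m) := by
  classical
  have hMinv : ∀ l, ∀ x ∈ N Mo.S t β₀ ε₀, Mo.S.F (t l) x ∈ N Mo.S t β₀ ε₀ :=
    fun l x hx => N_inv Mo.S t β₀ ε₀ hx l
  let E : Set Plane := Mo.p '' {c | GapEnd (N Mo.S t β₀ ε₀) c}
  have hEinv : ∀ i, ∀ x ∈ E, chord K (dirv (t i)) x ∈ E := by
    rintro i _ ⟨c, hc, rfl⟩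
    rw [Mo.p_chord]
    exact ⟨_, GapEnd.map Mo.S (t i) (hMinv i) hc, rfl⟩
  have hinv2 : ∀ i, ∀ x ∈ E, chord K (dirv (t i)) (chord K (dirv (t i)) x) = x := by
    rintro i _ ⟨c, hc, rfl⟩
    rw [Mo.p_chord, Mo.p_chord, Mo.S.inv]
  have hEf : E ⊆ frontier K := by
    rintro _ ⟨c, _, rfl⟩
    exact Mo.p_mem c
  have hV : ∀ (j : Fin 4) (x : Plane), x ∈ E → ∃ V : Set Plane, V.Finite ∧ x ∈ V ∧
      V ⊆ frontier K ∧ ∀ i : Fin 3, ∀ y ∈ V, chord K (dirv (t (j.succAbove i))) y ∈ V := by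
    rintro j _ ⟨c, hc, rfl⟩
    refine ⟨Set.range fun g : List (Fin 3) => Mo.p (W Mo.S (fun i => t (j.succAbove i)) g c),
      finite_p Mo _ (gapEnd_orbit Mo.S t hfin β₀ ε₀ hc j), ⟨[], rfl⟩, ?_,
      fun i => inv_p Mo (fun i => t (j.succAbove i)) c i⟩
    rintro _ ⟨g, rfl⟩
    exact Mo.p_mem _
  have hsucc : ∀ (j i : Fin 4), j ≠ i → ∃ m : Fin 3, j.succAbove m = i :=
    fun j i h => Fin.exists_succAbove_eq h.symm
  have hpnp : ∀ j : Fin 4, PNP (fun m : Fin 3 => dirv (t (j.succAbove m))) := by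
    intro j a b hab h0
    obtain ⟨k, hk⟩ := (cross_dirv_eq_zero_iff _ _).1 h0
    exact hd _ _ (fun h => hab (Fin.succAbove_right_injective h)) k hk
  have h3 : ∀ i k l, ∀ x ∈ E,
      chord K (dirv (t i)) (chord K (dirv (t k)) (chord K (dirv (t l)) x)) =
        chord K (dirv (t l)) (chord K (dirv (t k)) (chord K (dirv (t i)) x)) := by
    intro i k l x hx
    obtain ⟨j, h1, h2, h3⟩ := det4_avoid i k l
    obtain ⟨a, rfl⟩ := hsucc j i h1
    obtain ⟨b, rfl⟩ := hsucc j k h2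
    obtain ⟨c, rfl⟩ := hsucc j l h3
    obtain ⟨V, hVf, hxV, hVK, hVi⟩ := hV j x hx
    exact three_refl hB hVK hVf (fun m => dirv (t (j.succAbove m))) (hpnp j) hVi a b c hxV
  have hfin' : ∀ i k, ∀ x ∈ E, (Set.range fun n : ℕ =>
      ((fun i => chord K (dirv (t i))) i ∘ (fun i => chord K (dirv (t i))) k)^[n] x).Finite := by
    intro i k x hx
    obtain ⟨j, h1, h2, _⟩ := det4_avoid i k k
    obtain ⟨a, rfl⟩ := hsucc j i h1
    obtain ⟨b, rfl⟩ := hsucc j k h2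
    obtain ⟨V, hVf, hxV, hVK, hVi⟩ := hV j x hx
    refine hVf.subset ?_
    rintro _ ⟨n, rfl⟩
    induction n with
    | zero => exact hxV
    | succ n ih =>
      simp only [Function.iterate_succ_apply']
      exact hVi a _ (hVi b _ ih)
  obtain ⟨Q, hQf, hxQ, hQE, hQi⟩ := full_orbit_finite (fun i => chord K (dirv (t i))) E hEinv
    hinv2 h3 hfin' (Mo.p (aPt Mo.S t β₀ ε₀)) ⟨_, aPt_gapEnd Mo.S t β₀ ε₀ hε hN, rfl⟩
  have hpnp3 : PNP (fun m : Fin 3 => dirv (t (Fin.castSucc m))) := by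
    intro a b hab h0
    obtain ⟨k, hk⟩ := (cross_dirv_eq_zero_iff _ _).1 h0
    exact hd _ _ (fun h => hab (Fin.castSucc_injective 3 h)) k hk
  obtain ⟨n, A, _, hA⟩ := gardner_mcmullen hB.cpt hB.str hB.smo hQf ⟨_, hxQ⟩ (hQE.trans hEf)
    (fun m : Fin 3 => dirv (t (Fin.castSucc m))) hpnp3 (fun i => hQi (Fin.castSucc i))
  exact ⟨n, A, fun i => hA (dirv (t i)) (dirv_ne _) (hQi i)⟩

end AD
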