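import Pool.Agent.Helper3.LS.L01

set_option autoImplicit false

/-! # AD-G1: the unit vector with angle `t` -/

namespace AD

open ChordMaps

/-- the unit vector with angle `t` -/
noncomputable def dirv (t : ℝ) : Plane := !₂[Real.cos t, Real.sin t]

theorem dirv_0 (t : ℝ) : dirv t 0 = Real.cos t := by simp [dirv]

theorem dirv_1 (t : ℝ) : dirv t 1 = Real.sin t := by simp [dirv]

theorem cross_dirv (s t : ℝ) : cross (dirv s) (dirv t) = Real.sin (t - s) := by
  rw [cross, dirv_0, dirv_1, dirv_0, dirv_1, Real.sin_sub]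
  ring

theorem inner_dirv (s t : ℝ) : inner ℝ (dirv s) (dirv t) = Real.cos (t - s) := by
  rw [inner_eq, dirv_0, dirv_1, dirv_0, dirv_1, Real.cos_sub]
  ring

theorem norm_dirv (t : ℝ) : ‖dirv t‖ = 1 := by
  have h : ‖dirv t‖ ^ 2 = 1 := by
    rw [EuclideanSpace.norm_sq_eq, Fin.sum_univ_two, dirv_0, dirv_1]
    simp only [Real.norm_eq_abs, sq_abs]
    exact Real.cos_sq_add_sin_sq t
  have h0 := norm_nonneg (dirv t)
  nlinarith

theorem dirv_ne (t : ℝ) : dirv t ≠ 0 := by
  intro h
  have := norm_dirv t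
  rw [h, norm_zero] at this
  exact zero_ne_one this

theorem dirv_add_pi (t : ℝ) : dirv (t + Real.pi) = - dirv t := by
  ext i
  fin_cases i
  · simp [dirv]
  · simp [dirv]

theorem dirv_add_int_pi (t : ℝ) (k : ℤ) :
    dirv (t + k * Real.pi) = (-1 : ℝ) ^ k • dirv t := by
  ext i
  fin_cases i
  · simp [dirv, Real.cos_add_int_mul_pi]
  · simp [dirv, Real.sin_add_int_mul_pi]

theorem dirv_add_int_two_pi (t : ℝ) (k : ℤ) : dirv (t + k * (2 * Real.pi)) = dirv t := by
  ext i
  fin_cases i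
  · simp [dirv, Real.cos_add_int_mul_two_pi]
  · simp [dirv, Real.sin_add_int_mul_two_pi]

theorem dirv_cont : Continuous dirv := by
  unfold dirv
  refine (PiLp.continuous_toLp 2 _).comp ?_
  refine continuous_pi fun i => ?_
  fin_cases i
  · exact Real.continuous_cos
  · exact Real.continuous_sin

/-- rotation of the frame -/
theorem inner_rotate (s t : ℝ) (v : Plane) :
    inner ℝ (dirv t) v =
      Real.cos (t - s) * inner ℝ (dirv s) v + Real.sin (t - s) * cross (dirv s) v := by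
  rw [inner_eq, inner_eq, cross, dirv_0, dirv_1, dirv_0, dirv_1, Real.cos_sub, Real.sin_sub]
  have h := Real.sin_sq_add_cos_sq s
  linear_combination (-(Real.cos t * v 0 + Real.sin t * v 1)) * h

theorem cross_rotate (s t : ℝ) (v : Plane) :
    cross (dirv t) v =
      Real.cos (t - s) * cross (dirv s) v - Real.sin (t - s) * inner ℝ (dirv s) v := by
  rw [inner_eq, cross, cross, dirv_0, dirv_1, dirv_0, dirv_1, Real.cos_sub, Real.sin_sub]
  have h := Real.sin_sq_add_cos_sq s
  linear_combination (-(Real.cos t * v 1 - Real.sin t * v 0)) * h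

theorem norm_sq_frame (t : ℝ) (v : Plane) :
    ‖v‖ ^ 2 = inner ℝ (dirv t) v ^ 2 + cross (dirv t) v ^ 2 := by
  rw [EuclideanSpace.norm_sq_eq, Fin.sum_univ_two, inner_eq, cross, dirv_0, dirv_1]
  simp only [Real.norm_eq_abs, sq_abs]
  have h := Real.sin_sq_add_cos_sq t
  linear_combination (-(v 0 ^ 2 + v 1 ^ 2)) * h

theorem eq_smul_of_cross (t : ℝ) {v : Plane} (h : cross (dirv t) v = 0) :
    v = inner ℝ (dirv t) v • dirv t := by
  have hs := Real.sin_sq_add_cos_sq t
  rw [cross, dirv_0, dirv_1] at h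
  ext i
  rw [inner_eq, dirv_0, dirv_1]
  fin_cases i
  · simp [dirv]
    linear_combination (-(v 0)) * hs - Real.sin t * h
  · simp [dirv]
    linear_combination (-(v 1)) * hs + Real.cos t * h

theorem dirv_eq_iff (s t : ℝ) : dirv s = dirv t ↔ ∃ k : ℤ, s = t + k * (2 * Real.pi) := by
  constructor
  · intro h
    have h1 : Real.cos (s - t) = 1 := by
      rw [← inner_dirv, h, inner_dirv, sub_self, Real.cos_zero]
    obtain ⟨k, hk⟩ := (Real.cos_eq_one_iff _).1 h1
    exact ⟨k, by linarith⟩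
  · rintro ⟨k, rfl⟩
    exact dirv_add_int_two_pi t k

theorem cross_dirv_eq_zero_iff (s t : ℝ) :
    cross (dirv s) (dirv t) = 0 ↔ ∃ k : ℤ, s = t + k * Real.pi := by
  rw [cross_dirv, Real.sin_eq_zero_iff]
  constructor
  · rintro ⟨k, hk⟩
    exact ⟨-k, by push_cast; linarith⟩
  · rintro ⟨k, hk⟩
    exact ⟨-k, by push_cast; linarith⟩

/-- every vector is a multiple of a unit vector with some angle -/
theorem exists_angle (v : Plane) : ∃ t : ℝ, v = ‖v‖ • dirv t := by
  by_cases hv : v = 0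
  · exact ⟨0, by rw [hv, norm_zero, zero_smul]⟩
  have hn : 0 < ‖v‖ := norm_pos_iff.2 hv
  have hsq : (v 0 / ‖v‖) ^ 2 + (v 1 / ‖v‖) ^ 2 = 1 := by
    have h1 : ‖v‖ ^ 2 = v 0 ^ 2 + v 1 ^ 2 := by
      rw [EuclideanSpace.norm_sq_eq, Fin.sum_univ_two]
      simp only [Real.norm_eq_abs, sq_abs]
    rw [div_pow, div_pow, ← add_div, ← h1, div_self (by positivity)]
  set z : ℂ := ⟨v 0 / ‖v‖, v 1 / ‖v‖⟩ with hz
  have hz1 : ‖z‖ = 1 := by
    have : ‖z‖ ^ 2 = 1 := by
      rw [← Complex.normSq_eq_norm_sq, Complex.normSq_apply, hz]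
      simp only
      linarith
    have h0 := norm_nonneg z
    nlinarith
  have hz0 : z ≠ 0 := by
    intro h
    rw [h, norm_zero] at hz1
    exact zero_ne_one hz1
  refine ⟨Complex.arg z, ?_⟩
  have hc := Complex.cos_arg hz0
  have hs := Complex.sin_arg z
  rw [hz1, div_one] at hc hs
  ext i
  fin_cases i
  · simp [dirv]
    rw [hc, hz]
    field_simp
  · simp [dirv]
    rw [hs, hz]
    field_simp

end AD
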