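import Pool.Agent.Helper45.AD.Sign

set_option autoImplicit false

/-! # AD-13: the expansion estimate -/

namespace AD

variable {r : ℕ}

/-- arc length minus arc length of the partner -/
noncomputable def Yf (S : Sys) (φ x : ℝ) : ℝ := S.V x - S.V (S.F φ x)

theorem Yf_mono (S : Sys) (φ : ℝ) : StrictMono (Yf S φ) := by
  intro x y h
  have h1 := S.Vmono h
  have h2 := S.Vmono (S.anti φ h)
  unfold Yf
  linarith

theorem expand_piece (S : Sys) (θ : Fin r → ℝ) {η : ℝ} (j : Fin r) {i i' : Fin r}
    {w w' : List (Option (Fin r))} {n n' : ℤ} {t t' c c' : ℝ} (ht : t ≤ t') (ht1 : t' ≤ t + 1)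
    (h : Loop S θ t c i w n) (h' : Loop S θ t' c' i w n)
    (k : Loop S θ t (S.F (θ j) c) i' w' n') (k' : Loop S θ t' (S.F (θ j) c') i' w' n')
    (hs : η ≤ S.s t c) (ks : η ≤ S.s t (S.F (θ j) c)) :
    η / 2 * (t' - t) ≤ |Yf S (θ j) c' - Yf S (θ j) c| := by
  have h0 : 0 ≤ t' - t := by linarith
  rcases lt_trichotomy c c' with hc | hc | hc
  · have h1 := sign_V S θ ht ht1 h h' hc
    have h2 := (S.Vmono (S.anti (θ j) hc)).le
    have h3 := mul_le_mul_of_nonneg_right hs h0
    refine le_trans ?_ (le_abs_self _)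
    unfold Yf
    linarith
  · have : t = t' := by
      rcases lt_or_eq_of_le ht with hlt | heq
      · exact absurd hc (sign_ne S θ hlt h h')
      · exact heq
    rw [this, sub_self, mul_zero]
    exact abs_nonneg _
  · have h1 := sign_V S θ ht ht1 k k' (S.anti (θ j) hc)
    have h2 := (S.Vmono hc).le
    have h3 := mul_le_mul_of_nonneg_right ks h0
    refine le_trans ?_ (neg_le_abs _)
    unfold Yf
    linarith

end AD
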