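import Pool.Agent.Helper45.AD.FinLip
import Pool.Agent.Helper45.AD.Expand

set_option autoImplicit false

/-!
# AE-02: for almost every `t` the product of two chord maps has few periodic points

PROOF.  Let `θ : Fin 1 → ℝ := fun _ => α` and `pw 0 = []`, `pw (q + 1) = none :: some 0 :: pw q`
(words over `Option (Fin 1)`; `Alt (pw q)` by induction).  By induction on `q`,
`W S (ext θ t) (pw q) x = (fun z => S.F α (S.F t z))^[q] x` (`Function.iterate_succ`, first letter
first).  So with `H z = S.F α (S.F t z)`: `H^[q + 1] x = x + n` iff `Loop S θ t x 0 (pw q) n`.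
If this holds for `x`, it holds for `y = S.F α x` with the same `n`:
`H^[q+1] (S.F α x) = S.F α ((fun z => S.F t (S.F α z))^[q+1] x)` (`Function.Semiconj.iterate_right`),
and `H' = fun z => S.F t (S.F α z)` satisfies `H' (H z) = z` and `H (H' z) = z` (`S.inv`), and
`H' (z + n) = H' z + n` (`F_add_int` twice), so from `H^[q+1] x = x + n` we get
`x = H'^[q+1] (x + n) = H'^[q+1] x + n`, i.e. `H'^[q+1] x = x - n`, and
`S.F α (x - n) = S.F α x + n` (`F_add_int`).
Let `Φ = {(t, y) | ∃ x, 0 ≤ x ∧ x ≤ 1 ∧ y = Yf S α x ∧ H_t^[q+1] x = x + n ∧ η ≤ S.s t x ∧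
η ≤ S.s t (S.F α x)}`.  `ae_finite_fibre` with `a = Yf S α 0`, `b = Yf S α 1` (monotone), `κ = η / 2`;
the Lipschitz hypothesis is `expand_piece` with `j = 0` (`θ 0 = α`), the loops at `x`, `x'` and at
`S.F α x`, `S.F α x'`.  The set of `x` is mapped injectively (`Yf_mono`) onto the fibre
(`Set.Finite.of_finite_image` / `Set.Finite.of_injOn`). -/

namespace AD

open MeasureTheory

private def pw : ℕ → List (Option (Fin 1))
  | 0 => []
  | q + 1 => none :: some 0 :: pw q

private theorem alt_pw (q : ℕ) : Alt (pw q) := by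
  induction q with
  | zero => exact Alt.nil
  | succ q ih => exact Alt.cons none 0 (pw q) ih

private theorem W_pw (S : Sys) (α t : ℝ) (q : ℕ) : ∀ x : ℝ,
    W S (ext (fun _ : Fin 1 => α) t) (pw q) x = (fun z => S.F α (S.F t z))^[q] x := by
  induction q with
  | zero => intro x; rfl
  | succ q ih =>
    intro x
    rw [Function.iterate_succ_apply, ← ih]
    rfl

private theorem loop_of (S : Sys) (α t x : ℝ) (q : ℕ) (n : ℤ)
    (h : (fun z => S.F α (S.F t z))^[q + 1] x = x + n) :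
    Loop S (fun _ : Fin 1 => α) t x 0 (pw q) n := by
  refine ⟨alt_pw q, ?_⟩
  rw [← h, Function.iterate_succ_apply, ← W_pw]
  rfl

private theorem iter_add (S : Sys) (α t : ℝ) (n : ℤ) (q : ℕ) : ∀ x : ℝ,
    (fun z => S.F t (S.F α z))^[q] (x + n) = (fun z => S.F t (S.F α z))^[q] x + n := by
  induction q with
  | zero => intro x; rfl
  | succ q ih =>
    intro x
    rw [Function.iterate_succ_apply, Function.iterate_succ_apply]
    have h1 : S.F t (S.F α (x + n)) = S.F t (S.F α x) + n := by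
      rw [F_add_int]
      have := F_add_int S t (S.F α x) (-n)
      push_cast at this
      rw [sub_eq_add_neg, this]
      ring
    show (fun z => S.F t (S.F α z))^[q] (S.F t (S.F α (x + n))) = _
    rw [h1, ih]

private theorem per_refl (S : Sys) (α t x : ℝ) (q : ℕ) (n : ℤ)
    (h : (fun z => S.F α (S.F t z))^[q + 1] x = x + n) :
    (fun z => S.F α (S.F t z))^[q + 1] (S.F α x) = S.F α x + n := by
  have hsc : Function.Semiconj (S.F α) (fun z => S.F t (S.F α z)) (fun z => S.F α (S.F t z)) := by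
    intro z
    rfl
  have h1 := (hsc.iterate_right (q + 1)) x
  rw [← h1]
  have hinv : Function.LeftInverse (fun z => S.F t (S.F α z)) (fun z => S.F α (S.F t z)) := by
    intro z
    show S.F t (S.F α (S.F α (S.F t z))) = z
    rw [S.inv, S.inv]
  have h2 := (hinv.iterate (q + 1)) x
  rw [h, iter_add] at h2
  have h3 : (fun z => S.F t (S.F α z))^[q + 1] x = x + ((-n : ℤ) : ℝ) := by
    push_cast
    linarith
  rw [h3, F_add_int]
  push_cast
  ring

theorem ae_finite_periodic (S : Sys) (α : ℝ) (q : ℕ) (n : ℤ) {η : ℝ} (hη : 0 < η) :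
    ∀ᵐ t : ℝ, {x : ℝ | 0 ≤ x ∧ x ≤ 1 ∧ (fun z => S.F α (S.F t z))^[q + 1] x = x + n ∧
      η ≤ S.s t x ∧ η ≤ S.s t (S.F α x)}.Finite := by
  have key := ae_finite_fibre (a := Yf S α 0) (b := Yf S α 1) (κ := η / 2) (by linarith)
    {p : ℝ × ℝ | ∃ x, 0 ≤ x ∧ x ≤ 1 ∧ p.2 = Yf S α x ∧
      (fun z => S.F α (S.F p.1 z))^[q + 1] x = x + n ∧
      η ≤ S.s p.1 x ∧ η ≤ S.s p.1 (S.F α x)} ?_ ?_
  · filter_upwards [key] with t ht
    refine Set.Finite.of_finite_image (f := Yf S α) (ht.subset ?_) ((Yf_mono S α).injective.injOn)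
    rintro _ ⟨x, ⟨h0, h1, h2, h3, h4⟩, rfl⟩
    exact ⟨x, h0, h1, rfl, h2, h3, h4⟩
  · rintro ⟨t, y⟩ ⟨x, h0, h1, h2, -⟩
    dsimp only at h2
    subst h2
    exact ⟨(Yf_mono S α).monotone h0, (Yf_mono S α).monotone h1⟩
  · rintro ⟨t, y⟩ ⟨x, -, -, h2, h3, h4, h5⟩ ⟨t', y'⟩ ⟨x', -, -, h2', h3', h4', h5'⟩ ht ht1
    dsimp only at h2 h3 h4 h5 h2' h3' h4' h5' ht ht1 ⊢
    subst h2 h2'
    exact expand_piece S (fun _ : Fin 1 => α) 0 ht ht1 (loop_of S α t x q n h3)
      (loop_of S α t' x' q n h3') (loop_of S α t (S.F α x) q n (per_refl S α t x q n h3))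
      (loop_of S α t' (S.F α x') q n (per_refl S α t' x' q n h3')) h4 h5

end AD
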