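import Mathlib

set_option autoImplicit false

/-!
# AD-G5: solving for the second point

PROOF.  For every `x` the function `T x` is continuous, strictly increasing and
`T x (y + 1) = T x y + π`, so `T x (y + n) = T x y + n π` and `T x` is onto (intermediate value
theorem, values tend to `± ∞`).  Let `F t x` be the unique `y` with `T x y = t`.
Continuity at `(t₀, x₀)`, `y₀ = F t₀ x₀`: for `ε > 0`, `T x₀ (y₀ - ε) < t₀ < T x₀ (y₀ + ε)`; by
continuity of `(t, x) ↦ T x (y₀ ± ε) - t` this persists near `(t₀, x₀)`, and then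
`y₀ - ε < F t x < y₀ + ε` by strict monotonicity.
`F t` is strictly decreasing: for `x < x'` put `y = F t x`; `T x' y = T y x' > T y x = T x y = t`, so
`F t x' < y`.  `F · x` is strictly increasing: `T x` is.  `F t (x + 1)`: `T (x + 1) (y - 1) =
T (y - 1) (x + 1) = T (y - 1) x + π = T x (y - 1) + π = T x y = t` for `y = F t x`
(`T x (y - 1) = T x y - π`).  `F t (F t x) = x`: `T (F t x) x = T x (F t x) = t`.
`F (t + π) x = F t x + 1`: `T x (F t x + 1) = t + π`.
-/

namespace AD

private theorem add_nat (f : ℝ → ℝ) (hp : ∀ y, f (y + 1) = f y + Real.pi) (y : ℝ) (n : ℕ) :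
    f (y + n) = f y + n * Real.pi := by
  induction n with
  | zero => simp
  | succ n ih =>
    have h1 : y + ((n + 1 : ℕ) : ℝ) = (y + n) + 1 := by push_cast; ring
    rw [h1, hp, ih]
    push_cast
    ring

private theorem sub_nat (f : ℝ → ℝ) (hp : ∀ y, f (y + 1) = f y + Real.pi) (y : ℝ) (n : ℕ) :
    f (y - n) = f y - n * Real.pi := by
  have h := add_nat f hp (y - n) n
  rw [sub_add_cancel] at h
  linarith

private theorem exists_sol (f : ℝ → ℝ) (hc : Continuous f) (hp : ∀ y, f (y + 1) = f y + Real.pi) (t : ℝ) :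
    ∃ y, f y = t := by
  have hpi := Real.pi_pos
  obtain ⟨n, hn⟩ := exists_nat_ge (|t - f 0| / Real.pi)
  have h1 : |t - f 0| ≤ n * Real.pi := by
    rwa [div_le_iff₀ hpi] at hn
  have h2 := abs_le.1 h1
  have ha : f (0 - n) ≤ t := by
    rw [sub_nat f hp]
    linarith [h2.1]
  have hb : t ≤ f (0 + n) := by
    rw [add_nat f hp]
    linarith [h2.2]
  exact mem_range_of_exists_le_of_exists_ge hc ⟨_, ha⟩ ⟨_, hb⟩

theorem exists_F (T : ℝ → ℝ → ℝ) (hc : Continuous (fun q : ℝ × ℝ => T q.1 q.2))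
    (hs : ∀ x y, T x y = T y x) (hp : ∀ x y, T x (y + 1) = T x y + Real.pi)
    (hm : ∀ x, StrictMono (T x)) :
    ∃ F : ℝ → ℝ → ℝ, (∀ t x, T x (F t x) = t) ∧ Continuous (fun q : ℝ × ℝ => F q.1 q.2) ∧
      (∀ t, StrictAnti (F t)) ∧ (∀ x, StrictMono (fun t => F t x)) ∧
      (∀ t x, F t (x + 1) = F t x - 1) ∧ (∀ t x, F t (F t x) = x) ∧
      (∀ t x, F (t + Real.pi) x = F t x + 1) := by
  have hcx : ∀ x, Continuous (T x) := fun x => hc.comp (Continuous.prodMk continuous_const continuous_id)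
  choose F hF using fun (t x : ℝ) => exists_sol (T x) (hcx x) (hp x) t
  have huniq : ∀ t x y, T x y = t → F t x = y := by
    intro t x y h
    exact (hm x).injective ((hF t x).trans h.symm)
  refine ⟨F, hF, ?_, ?_, ?_, ?_, ?_, ?_⟩
  · rw [continuous_iff_continuousAt]
    rintro ⟨t0, x0⟩
    rw [Metric.continuousAt_iff']
    intro ε hε
    have h1 : T x0 (F t0 x0 - ε) < t0 := by
      have := hm x0 (sub_lt_self (F t0 x0) hε)
      rwa [hF] at this
    have h2 : t0 < T x0 (F t0 x0 + ε) := by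
      have := hm x0 (lt_add_of_pos_right (F t0 x0) hε)
      rwa [hF] at this
    have hc1 : Continuous (fun q : ℝ × ℝ => T q.2 (F t0 x0 - ε)) :=
      hc.comp (Continuous.prodMk continuous_snd continuous_const)
    have hc2 : Continuous (fun q : ℝ × ℝ => T q.2 (F t0 x0 + ε)) :=
      hc.comp (Continuous.prodMk continuous_snd continuous_const)
    have e1 : ∀ᶠ q : ℝ × ℝ in nhds (t0, x0), T q.2 (F t0 x0 - ε) < q.1 :=
      (isOpen_lt hc1 continuous_fst).mem_nhds h1
    have e2 : ∀ᶠ q : ℝ × ℝ in nhds (t0, x0), q.1 < T q.2 (F t0 x0 + ε) :=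
      (isOpen_lt continuous_fst hc2).mem_nhds h2
    filter_upwards [e1, e2] with q hq1 hq2
    rw [Real.dist_eq, abs_lt]
    have h3 : F t0 x0 - ε < F q.1 q.2 := by
      rw [← (hm q.2).lt_iff_lt, hF]
      exact hq1
    have h4 : F q.1 q.2 < F t0 x0 + ε := by
      rw [← (hm q.2).lt_iff_lt, hF]
      exact hq2
    constructor <;> linarith
  · intro t x x' hxx
    rw [← (hm x').lt_iff_lt, hF, hs]
    calc t = T (F t x) x := by rw [hs, hF]
      _ < T (F t x) x' := hm _ hxx
  · intro x t t' htt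
    show F t x < F t' x
    rw [← (hm x).lt_iff_lt, hF, hF]
    exact htt
  · intro t x
    apply huniq
    have h1 : T x (F t x - 1) = t - Real.pi := by
      have := hp x (F t x - 1)
      rw [sub_add_cancel, hF] at this
      linarith
    rw [hs, hp, hs, h1]
    ring
  · intro t x
    apply huniq
    rw [hs, hF]
  · intro t x
    apply huniq
    rw [hp, hF]

end AD
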