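import Pool.Agent.Helper45.AD.WBasic

set_option autoImplicit false

/-! # AD-09: a chord which is not short

PROOF. `m (t, x) = ∑ i : Fin r, S.s t (S.F (θ i) x)` is continuous (`S.s_cont`, `S.cont`),
nonnegative, periodic in `t` with period `π` (`S.s_perT`) and in `x` with period `1`
(`S.per`, `S.s_per`: `S.s t (S.F φ (x + 1)) = S.s t (S.F φ x - 1) = S.s t (S.F φ x)`, or
`s_add_int`).  On the compact set `Icc 0 π ×ˢ Icc 0 1` it has a minimum `m₀`.

`m₀ > 0`: if `m (t, x) = 0` then `S.s t (y i) = 0` for all `i`, where `y i = S.F (θ i) x`, so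
`S.F t (y i) = y i + n i` with integers `n i` (`S.s_zero`).  Among `n i` for three different
indices (`3 ≤ r`) two have the same parity: `n i = n k - 2 m`, `i ≠ k`.  By `F_add_int`,
`S.F t (y k + m) = y k + n k - m = (y k + m) + n i`, and `S.F t (y i) = y i + n i`; the function
`z ↦ S.F t z - z` is strictly decreasing, so `y i = y k + m`, against `F_ne_of_dist`.

Every `(t, x)` has the same value of `m` as a point of the compact set (reduce `t` modulo `π`, `x`
modulo `1`; e.g. `Function.Periodic.exists_mem_Ico₀`), so `m ≥ m₀` everywhere, and then some term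
is `≥ m₀ / r`: `η = m₀ / r` (`Finset.exists_le_of_sum_le` or by contradiction with
`Finset.sum_lt_sum_of_nonempty`). -/

namespace AD

variable {r : ℕ}

theorem exists_far (S : Sys) (θ : Fin r → ℝ) (hr : 3 ≤ r) (hd : Dist θ) :
    ∃ η : ℝ, 0 < η ∧ ∀ t x : ℝ, ∃ i : Fin r, η ≤ S.s t (S.F (θ i) x) := by
  classical
  have hr0 : 0 < r := by omega
  have hne : (Finset.univ : Finset (Fin r)).Nonempty := ⟨⟨0, hr0⟩, Finset.mem_univ _⟩
  have hc : Continuous (fun q : ℝ × ℝ => ∑ i : Fin r, S.s q.1 (S.F (θ i) q.2)) := by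
    refine continuous_finsetSum _ fun i _ => ?_
    exact S.s_cont.comp (continuous_fst.prodMk
      (S.cont.comp (continuous_const.prodMk continuous_snd)))
  have hK : IsCompact (Set.Icc (0 : ℝ) Real.pi ×ˢ Set.Icc (0 : ℝ) 1) :=
    isCompact_Icc.prod isCompact_Icc
  have hKn : (Set.Icc (0 : ℝ) Real.pi ×ˢ Set.Icc (0 : ℝ) 1).Nonempty :=
    ⟨(0, 0), ⟨le_refl _, Real.pi_pos.le⟩, ⟨le_refl _, zero_le_one⟩⟩
  obtain ⟨q, -, hq⟩ := hK.exists_isMinOn hKn hc.continuousOn
  have hpos : 0 < ∑ i : Fin r, S.s q.1 (S.F (θ i) q.2) := by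
    refine lt_of_le_of_ne (Finset.sum_nonneg fun i _ => S.s_nonneg _ _) fun h0 => ?_
    have hz : ∀ i, S.s q.1 (S.F (θ i) q.2) = 0 := fun i =>
      (Finset.sum_eq_zero_iff_of_nonneg (fun i _ => S.s_nonneg _ _)).1 h0.symm i
        (Finset.mem_univ i)
    choose n hn using fun i => S.s_zero _ _ (hz i)
    obtain ⟨i, k, hik, hpar⟩ := Fintype.exists_ne_map_eq_of_card_lt
      (fun i => decide (n i % 2 = 0)) (by
        rw [Fintype.card_bool, Fintype.card_fin]
        omega)
    have hpar' : (n i % 2 = 0) ↔ (n k % 2 = 0) := by simpa using hpar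
    obtain ⟨m, hm⟩ : ∃ m : ℤ, n i = n k - 2 * m := ⟨(n k - n i) / 2, by omega⟩
    have hk : S.F q.1 (S.F (θ k) q.2 + m) = S.F (θ k) q.2 + m + n i := by
      rw [F_add_int, hn k, hm]
      push_cast
      ring
    have hi := hn i
    rcases lt_trichotomy (S.F (θ i) q.2) (S.F (θ k) q.2 + m) with h | h | h
    · have := S.anti q.1 h
      rw [hk, hi] at this
      linarith
    · exact F_ne_of_dist S θ hd hik q.2 m h
    · have := S.anti q.1 h
      rw [hk, hi] at this
      linarith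
  have hrR : (0 : ℝ) < r := by exact_mod_cast hr0
  refine ⟨(∑ i : Fin r, S.s q.1 (S.F (θ i) q.2)) / r, div_pos hpos hrR, fun t x => ?_⟩
  obtain ⟨t0, ht0, het⟩ := Function.Periodic.exists_mem_Ico₀ (f := S.s) (c := Real.pi)
    (fun t => funext fun x => S.s_perT t x) Real.pi_pos t
  obtain ⟨x0, hx0, hex⟩ := Function.Periodic.exists_mem_Ico₀
    (f := fun x => fun i : Fin r => S.s t0 (S.F (θ i) x)) (c := 1)
    (fun x => funext fun i => by
      have h := s_add_int S t0 (S.F (θ i) x) (-1)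
      simp only
      rw [S.per, ← h]
      push_cast
      rw [← sub_eq_add_neg]) zero_lt_one x
  have hmin := hq (show (t0, x0) ∈ Set.Icc (0 : ℝ) Real.pi ×ˢ Set.Icc (0 : ℝ) 1 from
    ⟨⟨ht0.1, ht0.2.le⟩, ⟨hx0.1, hx0.2.le⟩⟩)
  simp only [Set.mem_ofPred_eq] at hmin
  by_contra hcon
  push Not at hcon
  have h1 : ∑ i : Fin r, S.s t (S.F (θ i) x) = ∑ i : Fin r, S.s t0 (S.F (θ i) x0) := by
    refine Finset.sum_congr rfl fun i _ => ?_
    rw [het]
    exact congrFun hex i
  have h2 : ∑ i : Fin r, S.s t (S.F (θ i) x) <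
      ∑ _i : Fin r, (∑ i : Fin r, S.s q.1 (S.F (θ i) q.2)) / r :=
    Finset.sum_lt_sum_of_nonempty hne fun i _ => hcon i
  rw [Finset.sum_const, Finset.card_univ, Fintype.card_fin, nsmul_eq_mul,
    mul_div_cancel₀ _ hrR.ne', h1] at h2
  exact absurd hmin (not_le.2 h2)

end AD
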