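import Pool.Agent.Helper45.AD.GapMap
import Pool.Agent.Helper45.AD.APt

set_option autoImplicit false

/-! # AD-10: the orbit of the end point, representatives, base sets; disjointness -/

namespace AD

variable {r : ℕ}

/-- the parameters for which there is a nonempty invariant set missing the arc -/
def TT (S : Sys) (θ : Fin r → ℝ) (β ε : ℝ) : Set ℝ := {t | (N S (ext θ t) β ε).Nonempty}

/-- the point of the orbit of the end point given by the word `g` in the fixed letters -/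
noncomputable def orb (S : Sys) (θ : Fin r → ℝ) (β ε : ℝ) (g : List (Fin r)) (t : ℝ) : ℝ :=
  W S θ g (aPt S (ext θ t) β ε)

/-- there is a loop at `c` -/
def HasLoop (S : Sys) (θ : Fin r → ℝ) (t c : ℝ) : Prop := ∃ i w n, Loop S θ t c i w n

/-- `g` is the first word giving its point modulo 1 -/
def Rep (S : Sys) (θ : Fin r → ℝ) (β ε : ℝ) (g : List (Fin r)) : Set ℝ :=
  {t | ∀ g' : List (Fin r), Encodable.encode g' < Encodable.encode g →
    Int.fract (orb S θ β ε g' t) ≠ Int.fract (orb S θ β ε g t)}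

/-- the base sets: fixed loop data at one point of the orbit, and fixed integer part of `t` -/
def Base (S : Sys) (θ : Fin r → ℝ) (β ε : ℝ) (g : List (Fin r)) (i : Fin r)
    (w : List (Option (Fin r))) (n m : ℤ) : Set ℝ :=
  {t | t ∈ TT S θ β ε ∧ ⌊t⌋ = m ∧ Loop S θ t (orb S θ β ε g t) i w n}

/-- the point of `g` is represented by `g`, its chord and the chord of its `j` neighbour in the
direction `t` are long, and there are loops at both points -/
def Good (S : Sys) (θ : Fin r → ℝ) (β ε η : ℝ) (j : Fin r) (t : ℝ) (g : List (Fin r)) : Prop :=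
  t ∈ Rep S θ β ε g ∧ η ≤ S.s t (orb S θ β ε g t) ∧ η ≤ S.s t (S.F (θ j) (orb S θ β ε g t)) ∧
    HasLoop S θ t (orb S θ β ε g t) ∧ HasLoop S θ t (S.F (θ j) (orb S θ β ε g t))

theorem orb_mem (S : Sys) (θ : Fin r → ℝ) (β ε : ℝ) {t : ℝ} (ht : t ∈ TT S θ β ε)
    (g : List (Fin r)) : orb S θ β ε g t ∈ N S (ext θ t) β ε := by
  unfold orb
  rw [← W_ext_some S θ t]
  exact N_W S _ β ε (aPt_mem S _ β ε ht) _

theorem orb_gapEnd (S : Sys) (θ : Fin r → ℝ) (β ε : ℝ) (hε : 0 < ε) {t : ℝ}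
    (ht : t ∈ TT S θ β ε) (g : List (Fin r)) :
    GapEnd (N S (ext θ t) β ε) (orb S θ β ε g t) := by
  unfold orb
  rw [← W_ext_some S θ t]
  exact (aPt_gapEnd S _ β ε hε ht).W S _ (fun l x hx => N_inv S _ β ε hx l) _

theorem orb_append (S : Sys) (θ : Fin r → ℝ) (β ε : ℝ) (g h : List (Fin r)) (t : ℝ) :
    orb S θ β ε (g ++ h) t = W S θ h (orb S θ β ε g t) := W_append S θ g h _

theorem mem_of_fract (S : Sys) (θ : Fin r → ℝ) (β ε : ℝ) {t t' : ℝ} (ht : t ∈ TT S θ β ε)
    {g g' : List (Fin r)}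
    (h : Int.fract (orb S θ β ε g t) = Int.fract (orb S θ β ε g' t')) :
    aPt S (ext θ t') β ε ∈ N S (ext θ t) β ε := by
  rw [fract_eq_iff] at h
  obtain ⟨k, hk⟩ := h
  have h1 : orb S θ β ε g' t' = orb S θ β ε g t + ((-k : ℤ) : ℝ) := by
    push_cast; linarith
  have h2 : orb S θ β ε g' t' ∈ N S (ext θ t) β ε := by
    rw [h1]
    exact N_add_int S _ β ε (orb_mem S θ β ε ht g) _
  have h3 := N_W S _ β ε h2 ((g'.reverse).map some)
  rw [W_ext_some] at h3
  unfold orb at h3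
  rwa [W_reverse] at h3

theorem aPt_eq_of_fract (S : Sys) (θ : Fin r → ℝ) (β ε : ℝ) {t t' : ℝ} (ht : t ∈ TT S θ β ε)
    (ht' : t' ∈ TT S θ β ε) {g g' : List (Fin r)}
    (h : Int.fract (orb S θ β ε g t) = Int.fract (orb S θ β ε g' t')) :
    aPt S (ext θ t) β ε = aPt S (ext θ t') β ε :=
  aPt_eq_of_mem S _ _ β ε ht ht' (mem_of_fract S θ β ε ht h) (mem_of_fract S θ β ε ht' h.symm)

end AD
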