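import Pool.Agent.Helper45.AD.Model
import Pool.Agent.Helper45.AD.Sets

set_option autoImplicit false

/-! # AD-H1: a finite orbit gives a finite invariant set of boundary points -/

namespace AD

open ChordMaps

variable {K : Set Plane} {r : ℕ}

theorem p_fract (Mo : Model K) (x : ℝ) : Mo.p (Int.fract x) = Mo.p x := by
  rw [Mo.p_eq]
  exact ⟨-⌊x⌋, by push_cast; rw [← sub_eq_add_neg, Int.self_sub_floor]⟩

/-- finiteness modulo 1 gives finiteness on the boundary -/
theorem finite_p (Mo : Model K) {ι : Type} (f : ι → ℝ)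
    (h : (Set.range fun g => Int.fract (f g)).Finite) : (Set.range fun g => Mo.p (f g)).Finite := by
  refine (h.image Mo.p).subset ?_
  rintro _ ⟨g, rfl⟩
  exact ⟨Int.fract (f g), ⟨g, rfl⟩, p_fract Mo _⟩

/-- the set of all images of a point is invariant -/
theorem inv_p (Mo : Model K) {L : Type} (α : L → ℝ) (x : ℝ) (l : L) :
    ∀ y ∈ Set.range (fun g : List L => Mo.p (W Mo.S α g x)),
      chord K (dirv (α l)) y ∈ Set.range (fun g : List L => Mo.p (W Mo.S α g x)) := by
  rintro _ ⟨g, rfl⟩
  refine ⟨g ++ [l], ?_⟩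
  simp only
  rw [W_append, W_cons, W_nil, Mo.p_chord]

/-- chord maps on the parametrised boundary, words -/
theorem p_inj_fract (Mo : Model K) (x y : ℝ) :
    Mo.p x = Mo.p y ↔ Int.fract x = Int.fract y := by
  rw [Mo.p_eq, fract_eq_iff]

end AD
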