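import Mathlib

set_option autoImplicit false

/-!
# AE-01: fibres of a Lipschitz function on a subset of an interval are finite almost everywhere

`Φ` is a set of pairs `(t, y)`, `y ∈ [a, b]`, such that `t` is a Lipschitz function of `y` on each
unit window of `t`.

PROOF.  It is enough to treat `t ∈ [m, m + 1)` for one integer `m` (countable union: `ae_all_iff`,
`m = ⌊t⌋`).  Put `ℓ k = (b - a + 1) / 2 ^ k` and for `i < 2 ^ k`
`I k i = [a + i * ℓ k, a + (i + 1) * ℓ k]`; these intervals cover `[a, b]`.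
Let `S k i = {t ∈ [m, m+1) | ∃ y ∈ I k i, (t, y) ∈ Φ}`.  For `t ≤ t'` in `S k i`: `t' ≤ t + 1`, so
`κ (t' - t) ≤ |y' - y| ≤ ℓ k`.  Hence there is an interval `J k i` of length `2 * ℓ k / κ` (closed,
measurable; `∅` if `S k i = ∅`, else `Icc (s - ℓ k / κ) (s + ℓ k / κ)` with `s ∈ S k i`) with
`S k i ⊆ J k i`.
`M k t = ∑ i ∈ range (2 ^ k), (J k i).indicator 1 t : ℝ≥0∞`, measurable, with
`∫⁻ M k ≤ 2 ^ k * (2 * ℓ k / κ) = 2 (b - a + 1) / κ < ∞` for all `k`.  By Fatou
(`MeasureTheory.lintegral_liminf_le`) `∫⁻ liminf_k M k t < ∞`, so `liminf_k M k t < ∞` for almost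
every `t` (`ae_lt_top`, measurability of the liminf).
Let `t ∈ [m, m+1)` have infinite fibre.  For every `R : ℕ` there are `R` different points `y` in the
fibre (`Set.Infinite.exists_subset_card_eq`); let `δ > 0` be their smallest distance.  If
`ℓ k < δ`, different `y` lie in different intervals `I k i`, so `M k t ≥ R` (choose for each `y` an index
`i(y)` with `y ∈ I k i(y)`; injective; `t ∈ S k i(y) ⊆ J k i(y)`).  So `liminf_k M k t ≥ R` for all `R`,
a contradiction for almost every `t`. -/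

namespace AD

open MeasureTheory

open Filter in
private theorem h86_step {a b κ : ℝ} (hκ : 0 < κ) (hab : a ≤ b) (Φ : Set (ℝ × ℝ))
    (hb : ∀ q ∈ Φ, q.2 ∈ Set.Icc a b)
    (h : ∀ q ∈ Φ, ∀ q' ∈ Φ, q.1 ≤ q'.1 → q'.1 ≤ q.1 + 1 →
      κ * (q'.1 - q.1) ≤ |q'.2 - q.2|) (m : ℤ) :
    ∀ᵐ t : ℝ, t ∈ Set.Ico (m : ℝ) (m + 1) → {y | (t, y) ∈ Φ}.Finite := by
  classical
  set l : ℕ → ℝ := fun k => (b - a + 1) / 2 ^ k with hl
  have hlpos : ∀ k, 0 < l k := fun k => div_pos (by linarith) (by positivity)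
  have hl0 : Tendsto l atTop (nhds 0) := by
    have h1 : Tendsto (fun k : ℕ => (b - a + 1) * (1 / 2 : ℝ) ^ k) atTop (nhds ((b - a + 1) * 0)) :=
      (tendsto_pow_atTop_nhds_zero_of_lt_one (by norm_num) (by norm_num)).const_mul _
    rw [mul_zero] at h1
    refine h1.congr fun k => ?_
    simp only [hl, one_div, inv_pow]
    rw [div_eq_mul_inv]
  let S : ℕ → ℕ → Set ℝ := fun k i => {t | t ∈ Set.Ico (m : ℝ) (m + 1) ∧ ∃ y, a + i * l k ≤ y ∧
    y ≤ a + (i + 1) * l k ∧ (t, y) ∈ Φ}
  let J : ℕ → ℕ → Set ℝ := fun k i =>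
    if hS : (S k i).Nonempty then Set.Icc (hS.some - l k / κ) (hS.some + l k / κ) else ∅
  have hJm : ∀ k i, MeasurableSet (J k i) := by
    intro k i
    simp only [J]
    split_ifs
    · exact measurableSet_Icc
    · exact MeasurableSet.empty
  have hJv : ∀ k i, volume (J k i) ≤ ENNReal.ofReal (2 * l k / κ) := by
    intro k i
    simp only [J]
    split_ifs
    · rw [Real.volume_Icc]
      apply ENNReal.ofReal_le_ofReal
      apply le_of_eq
      ring
    · simp
  have hSS : ∀ k i t s, t ∈ S k i → s ∈ S k i → t ≤ s → s - t ≤ l k / κ := by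
    rintro k i t s ⟨⟨ht1, ht2⟩, y, hy1, hy2, hy⟩ ⟨⟨hs1, hs2⟩, z, hz1, hz2, hz⟩ hts
    have h1 := h (t, y) hy (s, z) hz hts (by simp only; linarith)
    simp only at h1
    have h2 : |z - y| ≤ l k := by
      rw [abs_le]
      constructor <;> nlinarith
    rw [le_div_iff₀ hκ]
    linarith
  have hSJ : ∀ k i, S k i ⊆ J k i := by
    intro k i t ht
    have hne : (S k i).Nonempty := ⟨t, ht⟩
    simp only [J, dif_pos hne]
    have hs := hne.some_mem
    generalize hne.some = s at hs
    rcases le_total t s with h1 | h1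
    · have h2 := hSS k i t s ht hs h1
      have h3 : 0 < l k / κ := div_pos (hlpos k) hκ
      exact ⟨by linarith, by linarith⟩
    · have h2 := hSS k i s t hs ht h1
      have h3 : 0 < l k / κ := div_pos (hlpos k) hκ
      exact ⟨by linarith, by linarith⟩
  let M : ℕ → ℝ → ENNReal := fun k t => ∑ i ∈ Finset.range (2 ^ k), (J k i).indicator (fun _ => (1 : ENNReal)) t
  have hMm : ∀ k, Measurable (M k) := fun k =>
    Finset.measurable_fun_sum _ fun i _ => measurable_const.indicator (hJm k i)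
  have hMint : ∀ k, ∫⁻ t, M k t ≤ ENNReal.ofReal (2 * (b - a + 1) / κ) := by
    intro k
    simp only [M]
    rw [lintegral_finsetSum _ fun i _ => measurable_const.indicator (hJm k i)]
    calc ∑ i ∈ Finset.range (2 ^ k), ∫⁻ t, (J k i).indicator (fun _ => (1 : ENNReal)) t
        = ∑ i ∈ Finset.range (2 ^ k), volume (J k i) := by
          refine Finset.sum_congr rfl fun i _ => ?_
          rw [lintegral_indicator (hJm k i)]
          simp
      _ ≤ ∑ _i ∈ Finset.range (2 ^ k), ENNReal.ofReal (2 * l k / κ) := Finset.sum_le_sum fun i _ => hJv k i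
      _ = ENNReal.ofReal (2 * (b - a + 1) / κ) := by
          rw [Finset.sum_const, Finset.card_range, nsmul_eq_mul]
          have h1 : ((2 ^ k : ℕ) : ENNReal) = ENNReal.ofReal (2 ^ k) := by
            rw [← ENNReal.ofReal_natCast]
            push_cast
            rfl
          rw [h1, ← ENNReal.ofReal_mul (by positivity)]
          congr 1
          simp only [hl]
          field_simp
  have hfin : ∀ᵐ t : ℝ, liminf (fun k => M k t) atTop < ⊤ := by
    refine ae_lt_top (Measurable.liminf hMm) ?_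
    have h1 : ∫⁻ t, liminf (fun k => M k t) atTop ≤ liminf (fun k => ∫⁻ t, M k t) atTop :=
      lintegral_liminf_le hMm
    have h2 : liminf (fun k => ∫⁻ t, M k t) atTop ≤ ENNReal.ofReal (2 * (b - a + 1) / κ) := by
      calc liminf (fun k => ∫⁻ t, M k t) atTop
          ≤ liminf (fun _ : ℕ => ENNReal.ofReal (2 * (b - a + 1) / κ)) atTop :=
            liminf_le_liminf (Eventually.of_forall hMint)
        _ = ENNReal.ofReal (2 * (b - a + 1) / κ) := liminf_const _
    exact ((h1.trans h2).trans_lt ENNReal.ofReal_lt_top).ne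
  filter_upwards [hfin] with t ht htm
  by_contra hinf
  have hinf : {y | (t, y) ∈ Φ}.Infinite := hinf
  have hR : ∀ R : ℕ, (R : ENNReal) ≤ liminf (fun k => M k t) atTop := by
    intro R
    obtain ⟨T, hT, hTc⟩ := hinf.exists_subset_card_eq R
    have hev : ∀ᶠ k in atTop, ∀ y ∈ T, ∀ z ∈ T, y ≠ z → l k < |y - z| := by
      rw [eventually_all_finset]
      intro y _
      rw [eventually_all_finset]
      intro z _
      by_cases hyz : y = z
      · exact Eventually.of_forall fun k h1 => absurd hyz h1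
      · have h1 : 0 < |y - z| := abs_pos.2 (sub_ne_zero.2 hyz)
        filter_upwards [hl0.eventually_lt_const h1] with k hk _
        exact hk
    refine le_liminf_of_le (h := ?_)
    filter_upwards [hev] with k hk
    let idx : ℝ → ℕ := fun y => ⌊(y - a) / l k⌋₊
    have hidx : ∀ y ∈ T, a + idx y * l k ≤ y ∧ y ≤ a + (idx y + 1) * l k ∧ idx y < 2 ^ k := by
      intro y hy
      have hyb := hb (t, y) (hT hy)
      have h0 : 0 ≤ (y - a) / l k := div_nonneg (by linarith [hyb.1]) (hlpos k).le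
      have h1 : (idx y : ℝ) ≤ (y - a) / l k := Nat.floor_le h0
      have h2 : (y - a) / l k < idx y + 1 := Nat.lt_floor_add_one _
      rw [le_div_iff₀ (hlpos k)] at h1
      rw [div_lt_iff₀ (hlpos k)] at h2
      refine ⟨by linarith, by linarith, ?_⟩
      have h3 : (idx y : ℝ) * l k < 2 ^ k * l k := by
        have h4 : (2 : ℝ) ^ k * l k = b - a + 1 := by
          simp only [hl]
          field_simp
        rw [h4]
        have := hyb.2
        simp only at this
        linarith
      have h5 : (idx y : ℝ) < 2 ^ k := lt_of_mul_lt_mul_right h3 (hlpos k).le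
      exact_mod_cast h5
    have hinj : Set.InjOn idx T := by
      intro y hy z hz hyz
      by_contra hne
      have h1 := hk y hy z hz hne
      obtain ⟨a1, a2, -⟩ := hidx y hy
      obtain ⟨b1, b2, -⟩ := hidx z hz
      rw [hyz] at a1 a2
      have h2 : |y - z| ≤ l k := by
        rw [abs_le]
        constructor <;> linarith
      linarith
    have hsub : T.image idx ⊆ Finset.range (2 ^ k) := by
      intro i hi
      obtain ⟨y, hy, rfl⟩ := Finset.mem_image.1 hi
      exact Finset.mem_range.2 (hidx y hy).2.2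
    calc (R : ENNReal) = ∑ _i ∈ T.image idx, (1 : ENNReal) := by
          rw [Finset.sum_const, Finset.card_image_of_injOn hinj, hTc, nsmul_eq_mul, mul_one]
      _ = ∑ i ∈ T.image idx, (J k i).indicator (fun _ => (1 : ENNReal)) t := by
          refine Finset.sum_congr rfl fun i hi => ?_
          obtain ⟨y, hy, rfl⟩ := Finset.mem_image.1 hi
          obtain ⟨h1, h2, -⟩ := hidx y hy
          have h3 : t ∈ J k (idx y) := hSJ k (idx y) ⟨htm, y, h1, h2, hT hy⟩
          rw [Set.indicator_of_mem h3]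
      _ ≤ M k t := Finset.sum_le_sum_of_subset hsub
  obtain ⟨R, hR1⟩ := ENNReal.exists_nat_gt ht.ne
  exact absurd (hR R) (not_le.2 hR1)

theorem ae_finite_fibre {a b κ : ℝ} (hκ : 0 < κ) (Φ : Set (ℝ × ℝ))
    (hb : ∀ q ∈ Φ, q.2 ∈ Set.Icc a b)
    (h : ∀ q ∈ Φ, ∀ q' ∈ Φ, q.1 ≤ q'.1 → q'.1 ≤ q.1 + 1 →
      κ * (q'.1 - q.1) ≤ |q'.2 - q.2|) :
    ∀ᵐ t : ℝ, {y | (t, y) ∈ Φ}.Finite := by
  rcases le_or_gt a b with hab | hab
  · have h1 : ∀ᵐ t : ℝ, ∀ m : ℤ, t ∈ Set.Ico (m : ℝ) (m + 1) → {y | (t, y) ∈ Φ}.Finite :=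
      ae_all_iff.2 fun m => h86_step hκ hab Φ hb h m
    filter_upwards [h1] with t ht
    exact ht ⌊t⌋ ⟨Int.floor_le t, Int.lt_floor_add_one t⟩
  · refine Filter.Eventually.of_forall fun t => ?_
    have h1 : {y | (t, y) ∈ Φ} = ∅ := by
      refine Set.eq_empty_of_forall_notMem fun y hy => ?_
      have h2 := hb (t, y) hy
      have h3 := h2.1.trans h2.2
      linarith
    rw [h1]
    exact Set.finite_empty

end AD
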