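import Pool.Agent.Helper45.AD.Defs

set_option autoImplicit false

/-!
# AD-H9: null sets of angles (Fubini)

PROOF of `null_of_slices` (Fubini in the coordinate `j`).
`MeasureTheory.volume_preserving_piFinSuccAbove (fun _ => ℝ) j` is a measure preserving
equivalence `(Fin (n+1) → ℝ) ≃ᵐ ℝ × (Fin n → ℝ)`, `t ↦ (t j, fun i => t (j.succAbove i))`; so
`volume A = (volume.prod volume) (image)`, and with `MeasureTheory.Measure.prod_swap` /
`MeasureTheory.Measure.measure_prod_null` (for the swapped set) it is zero if for almost every
`s : Fin n → ℝ` the slice `{x | j.insertNth x s ∈ A}` is null.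

PROOF of `ae_dist`.  `n = 0`: trivial (no indices).  `Dist t` fails iff `t i = t k + m π` for some
`i ≠ k`, `m : ℤ`: countable union (`ae_all_iff`).
Each set is closed (measurable), and null by `null_of_slices` with `j = i`: the slice has at most
one element (`k = j.succAbove i'`, `Fin.exists_succAbove_eq`, `t k = s i'`).

PROOF of `null_proj`.  Induction on `m`.  `m = 0`: `Fin.castAdd 0` is the identity.  Step:
`null_of_slices` with `j = Fin.last (4 + m)`: the set is measurable (preimage under a continuous
map), and the slice for `s` is everything or empty, namely empty if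
`(fun i => s (Fin.castAdd m i)) ∉ A` (`Fin.castAdd (m + 1) i = Fin.castSucc (Fin.castAdd m i)`
`= (Fin.last _).succAbove (Fin.castAdd m i)`, `Fin.insertNth_apply_succAbove`), which holds for
almost every `s` by the induction hypothesis. -/

namespace AD

open MeasureTheory

theorem null_of_slices {n : ℕ} (j : Fin (n + 1)) {A : Set (Fin (n + 1) → ℝ)}
    (hA : MeasurableSet A)
    (h : ∀ᵐ s : Fin n → ℝ, volume {x : ℝ | (j.insertNth x s : Fin (n + 1) → ℝ) ∈ A} = 0) :
    volume A = 0 := by
  have hmp := (volume_preserving_piFinSuccAbove (fun _ => ℝ) j).symm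
  have hB : MeasurableSet ((MeasurableEquiv.piFinSuccAbove (fun _ => ℝ) j).symm ⁻¹' A) :=
    (MeasurableEquiv.piFinSuccAbove (fun _ => ℝ) j).symm.measurable hA
  rw [← hmp.measure_preimage hA.nullMeasurableSet]
  have hsw : MeasurePreserving (Prod.swap : (Fin n → ℝ) × ℝ → ℝ × (Fin n → ℝ)) volume volume :=
    Measure.measurePreserving_swap
  rw [← hsw.measure_preimage hB.nullMeasurableSet]
  have h0 := (Measure.measure_prod_null (μ := (volume : Measure (Fin n → ℝ)))
    (ν := (volume : Measure ℝ)) (hsw.measurable hB)).2 ?_
  · exact h0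
  · filter_upwards [h] with s hs
    exact hs

theorem ae_dist (n : ℕ) : ∀ᵐ t : Fin n → ℝ, Dist t := by
  cases n with
  | zero => exact Filter.Eventually.of_forall fun t i => i.elim0
  | succ n =>
    have h : ∀ i k : Fin (n + 1), i ≠ k → ∀ m : ℤ,
        ∀ᵐ t : Fin (n + 1) → ℝ, t i ≠ t k + m * Real.pi := by
      intro i k hik m
      obtain ⟨k', rfl⟩ := Fin.exists_succAbove_eq hik.symm
      rw [ae_iff]
      refine null_of_slices i ?_ (Filter.Eventually.of_forall fun s => ?_)
      · have : {a : Fin (n + 1) → ℝ | ¬ a i ≠ a (i.succAbove k') + m * Real.pi} =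
          {a : Fin (n + 1) → ℝ | a i = a (i.succAbove k') + m * Real.pi} := by
          ext a
          simp
        rw [this]
        exact (isClosed_eq (by fun_prop) (by fun_prop)).measurableSet
      · refine measure_mono_null (t := {s k' + m * Real.pi}) ?_ (measure_singleton _)
        intro x hx
        have hx' : ¬ ((i.insertNth x s : Fin (n + 1) → ℝ) i ≠
          (i.insertNth x s : Fin (n + 1) → ℝ) (i.succAbove k') + m * Real.pi) := hx
        rw [Fin.insertNth_apply_same, Fin.insertNth_apply_succAbove, not_not] at hx'
        exact hx'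
    have h2 : ∀ᵐ t : Fin (n + 1) → ℝ, ∀ (i k : Fin (n + 1)) (m : ℤ), i ≠ k →
        t i ≠ t k + m * Real.pi := by
      rw [ae_all_iff]
      intro i
      rw [ae_all_iff]
      intro k
      rw [ae_all_iff]
      intro m
      by_cases hik : i = k
      · exact Filter.Eventually.of_forall fun t h => absurd hik h
      · filter_upwards [h i k hik m] with t ht _
        exact ht
    filter_upwards [h2] with t ht i k hik m
    exact ht i k m hik

theorem null_proj (m : ℕ) {A : Set (Fin 4 → ℝ)} (hA : MeasurableSet A) (h0 : volume A = 0) :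
    volume {t : Fin (4 + m) → ℝ | (fun i => t (Fin.castAdd m i)) ∈ A} = 0 := by
  induction m with
  | zero => exact h0
  | succ m ih =>
    refine null_of_slices (n := 4 + m) (Fin.last (4 + m)) ?_ ?_
    · exact (measurable_pi_lambda _ fun i => measurable_pi_apply _) hA
    · have h1 : ∀ᵐ s : Fin (4 + m) → ℝ, (fun i => s (Fin.castAdd m i)) ∉ A :=
        (measure_eq_zero_iff_ae_notMem).1 ih
      filter_upwards [h1] with s hs
      refine measure_mono_null (t := ∅) ?_ measure_empty
      intro x hx
      apply hs
      have hx' : (fun i => ((Fin.last (4 + m)).insertNth x s : Fin (4 + m + 1) → ℝ)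
        (Fin.castAdd (m + 1) i)) ∈ A := hx
      convert hx' using 2 with i
      have := Fin.insertNth_apply_succAbove (α := fun _ => ℝ) (Fin.last (4 + m)) x s
        (Fin.castAdd m i)
      rw [Fin.succAbove_last] at this
      exact this.symm

end AD
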