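import Pool.Agent.Helper45.AD.MainFin
import Pool.Agent.Helper45.AD.NullA

set_option autoImplicit false

/-!
# AD-H8: for almost every four angles the orbits without one letter are finite

PROOF of `inf_measurable`.  `Dist t`: countable intersection of complements of closed sets.
`(N S t β ε).Nonempty`: closed (`N_proj_closed S β ε (fun t => t) (fun l => continuous_apply l)`).
The function `o g t = W S (fun i => t (j.succAbove i)) g (aPt S t β ε)` is measurable: `aPt` is
(`aPt_measurable` with `α t = t`), and `(t, x) ↦ W S (fun i => t (j.succAbove i)) g x` is continuous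
(`W_cont` with `A = (Fin (n+1) → ℝ) × ℝ`).  The range of `g ↦ fract (o g t)` is finite iff there is a
finite set `G` of words such that for every `g` some `g' ∈ G` has `fract (o g t) = fract (o g' t)`:
countable union over `G : Finset (List (Fin n))` of countable intersections of finite unions of
measurable sets (`measurable_fract`, `measurableSet_eq_fun`).

PROOF of `ae_fin`.  The set `A` of `inf_measurable` (with `n = 3`) is null by `null_of_slices j`: let
`s : Fin 3 → ℝ`.  If `¬ Dist s` the slice is empty (`Fin.insertNth_apply_succAbove`, and `Dist` of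
`j.insertNth x s` implies `Dist s` since `j.succAbove` is injective).  If `Dist s`: for all `x`,
`ext s x ∘ finSuccEquiv' j = j.insertNth x s` (case distinction `l = j` or `l = j.succAbove i`:
`finSuccEquiv'_at`, `finSuccEquiv'_succAbove`), so `N S (j.insertNth x s) β ε = N S (ext s x) β ε`
(`N_relabel`) and the same for `aPt` (unfold).  So the slice is contained in the exceptional set of
`main_finite S s (le_refl 3) hs (hl s hs) β ε hε` (`orb S s β ε g x = W S s g (aPt S (ext s x) β ε)`). -/

namespace AD

open MeasureTheory

private theorem dist_measurable (n : ℕ) : MeasurableSet {t : Fin n → ℝ | Dist t} := by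
  have h : {t : Fin n → ℝ | Dist t} = ⋂ i : Fin n, ⋂ k : Fin n, ⋂ _ : i ≠ k, ⋂ m : ℤ,
      {t : Fin n → ℝ | t i = t k + m * Real.pi}ᶜ := by
    ext t
    simp [Dist]
  rw [h]
  refine MeasurableSet.iInter fun i => MeasurableSet.iInter fun k => MeasurableSet.iInter fun _ =>
    MeasurableSet.iInter fun m => ?_
  exact (measurableSet_eq_fun (measurable_pi_apply i)
    ((measurable_pi_apply k).add_const _)).compl

private theorem finite_range_iff {α : Type} [Nonempty α] (f : α → ℝ) :
    (Set.range f).Finite ↔ ∃ G : Finset α, ∀ g, ∃ g' ∈ G, f g = f g' := by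
  classical
  constructor
  · intro h
    refine ⟨h.toFinset.image (Function.invFun f), fun g => ⟨Function.invFun f (f g), ?_, ?_⟩⟩
    · refine Finset.mem_image_of_mem _ ?_
      rw [Set.Finite.mem_toFinset]
      exact ⟨g, rfl⟩
    · exact (Function.invFun_eq ⟨g, rfl⟩).symm
  · rintro ⟨G, hG⟩
    refine (G.finite_toSet.image f).subset ?_
    rintro _ ⟨g, rfl⟩
    obtain ⟨g', hg', he⟩ := hG g
    exact ⟨g', hg', he.symm⟩

theorem inf_measurable (S : Sys) {n : ℕ} (j : Fin (n + 1)) (β ε : ℝ) :
    MeasurableSet {t : Fin (n + 1) → ℝ | Dist t ∧ (N S t β ε).Nonempty ∧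
      (Set.range fun g : List (Fin n) =>
        Int.fract (W S (fun i => t (j.succAbove i)) g (aPt S t β ε))).Infinite} := by
  have ha : Measurable fun t : Fin (n + 1) → ℝ => aPt S t β ε :=
    aPt_measurable S β ε (fun t : Fin (n + 1) → ℝ => t) (fun l => continuous_apply l)
  have ho : ∀ g : List (Fin n), Measurable fun t : Fin (n + 1) → ℝ =>
      Int.fract (W S (fun i => t (j.succAbove i)) g (aPt S t β ε)) := by
    intro g
    have h1 : Continuous fun q : (Fin (n + 1) → ℝ) × ℝ =>
        W S (fun i => q.1 (j.succAbove i)) g q.2 :=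
      W_cont S g (fun q : (Fin (n + 1) → ℝ) × ℝ => fun i => q.1 (j.succAbove i))
        (fun l => (continuous_apply _).comp continuous_fst) (fun q => q.2) continuous_snd
    exact measurable_fract.comp (h1.measurable.comp (measurable_id.prodMk ha))
  have h3 : MeasurableSet {t : Fin (n + 1) → ℝ | (Set.range fun g : List (Fin n) =>
        Int.fract (W S (fun i => t (j.succAbove i)) g (aPt S t β ε))).Infinite} := by
    have h : {t : Fin (n + 1) → ℝ | (Set.range fun g : List (Fin n) =>
        Int.fract (W S (fun i => t (j.succAbove i)) g (aPt S t β ε))).Infinite} =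
        (⋃ G : Finset (List (Fin n)), ⋂ g : List (Fin n), ⋃ g' : List (Fin n), ⋃ _ : g' ∈ G,
          {t : Fin (n + 1) → ℝ |
            Int.fract (W S (fun i => t (j.succAbove i)) g (aPt S t β ε)) =
              Int.fract (W S (fun i => t (j.succAbove i)) g' (aPt S t β ε))})ᶜ := by
      ext t
      show ¬ (Set.range fun g : List (Fin n) =>
        Int.fract (W S (fun i => t (j.succAbove i)) g (aPt S t β ε))).Finite ↔ _
      rw [finite_range_iff]
      simp
    rw [h]
    refine (MeasurableSet.iUnion fun G => MeasurableSet.iInter fun g =>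
      MeasurableSet.iUnion fun g' => MeasurableSet.iUnion fun _ => ?_).compl
    exact measurableSet_eq_fun (ho g) (ho g')
  have h2 : MeasurableSet {t : Fin (n + 1) → ℝ | (N S t β ε).Nonempty} :=
    (N_proj_closed S β ε (fun t : Fin (n + 1) → ℝ => t)
      (fun l => continuous_apply l)).measurableSet
  exact (dist_measurable (n + 1)).inter (h2.inter h3)

private theorem ext_comp {n : ℕ} (j : Fin (n + 1)) (s : Fin n → ℝ) (x : ℝ) :
    ext s x ∘ finSuccEquiv' j = (j.insertNth x s : Fin (n + 1) → ℝ) := by
  funext l
  rcases Fin.eq_self_or_eq_succAbove j l with h | ⟨i, h⟩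
  · subst h
    simp [ext]
  · subst h
    simp [ext]

theorem ae_fin (S : Sys) (hl : ∀ s : Fin 3 → ℝ, Dist s → HasLoops S s) (j : Fin 4)
    (β ε : ℝ) (hε : 0 < ε) :
    ∀ᵐ t : Fin 4 → ℝ, Dist t → (N S t β ε).Nonempty →
      (Set.range fun g : List (Fin 3) =>
        Int.fract (W S (fun i => t (j.succAbove i)) g (aPt S t β ε))).Finite := by
  have hA := inf_measurable S (n := 3) j β ε
  have h0 := null_of_slices j hA (Filter.Eventually.of_forall fun s => by
    by_cases hs : Dist s
    · have h1 := main_finite S s (le_refl 3) hs (hl s hs) β ε hε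
      refine measure_mono_null ?_ (ae_iff.1 h1)
      rintro x ⟨-, h2, h3⟩
      have hN : N S (j.insertNth x s : Fin 4 → ℝ) β ε = N S (ext s x) β ε := by
        rw [← ext_comp j s x]
        exact N_relabel S (finSuccEquiv' j) (ext s x) β ε
      have ha : aPt S (j.insertNth x s : Fin 4 → ℝ) β ε = aPt S (ext s x) β ε := by
        unfold aPt
        rw [hN]
      have hsucc : (fun i => (j.insertNth x s : Fin 4 → ℝ) (j.succAbove i)) = s := by
        funext i
        exact Fin.insertNth_apply_succAbove _ _ _ _
      rw [hN] at h2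
      rw [ha, hsucc] at h3
      show ¬ _
      intro h4
      exact h3 (h4 h2)
    · have hempty : {x : ℝ | (j.insertNth x s : Fin 4 → ℝ) ∈
          {t : Fin 4 → ℝ | Dist t ∧ (N S t β ε).Nonempty ∧
            (Set.range fun g : List (Fin 3) =>
              Int.fract (W S (fun i => t (j.succAbove i)) g (aPt S t β ε))).Infinite}} = ∅ := by
        apply Set.eq_empty_of_forall_notMem
        rintro x ⟨h1, -⟩
        apply hs
        intro i k hik m
        have h2 := h1 (j.succAbove i) (j.succAbove k)
          (fun h => hik (Fin.succAbove_right_injective h)) m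
        rwa [Fin.insertNth_apply_succAbove, Fin.insertNth_apply_succAbove] at h2
      rw [hempty]
      exact measure_empty)
  have h1 := measure_eq_zero_iff_ae_notMem.1 h0
  filter_upwards [h1] with t ht hd hn
  by_contra hinf
  exact ht ⟨hd, hn, hinf⟩

end AD
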