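import Pool.Agent.Helper45.AD.Fub

set_option autoImplicit false

/-!
# AE-07: the orbits without the last letter are finite for almost every pair

PROOF.  `T p = ![a, b, p.1, p.2] : Fin 4 → ℝ` is continuous, so by `inf_measurable S (j := 3) β ε`
(`n = 3`, `(3 : Fin 4)`) the bad set `{p | Dist (T p) ∧ (N S (T p) β ε).Nonempty ∧ (range ...).Infinite}` is
measurable.  It is null by `MeasureTheory.Measure.measure_prod_null` (`volume` on `ℝ × ℝ` is
`volume.prod volume`): fix `x = p.1`, `s = ![a, b, x] : Fin 3 → ℝ`.  If `¬ Dist s` the slice is empty.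
If `Dist s`, use `main_finite S s (le_refl 3) hs (hl s hs) β ε hε`, exactly as in the proof of `ae_fin`
in `Fub.lean` with `j = 3 = Fin.last 3`: `T (x, y) = (3 : Fin 4).insertNth y s`
(`Fin.insertNth` at the last place, or directly `ext s y ∘ finSuccEquiv' 3 = ![a, b, x, y]`), and
`(fun i => T (x, y) ((3 : Fin 4).succAbove i)) = s`. -/

namespace AD

open MeasureTheory

private theorem fub2_succ (a b x y : ℝ) :
    (fun i : Fin 3 => (![a, b, x, y] : Fin 4 → ℝ) ((3 : Fin 4).succAbove i)) = ![a, b, x] := by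
  funext i
  fin_cases i <;> rfl

private theorem fub2_ext (a b x y : ℝ) :
    ext ![a, b, x] y ∘ finSuccEquiv' (3 : Fin 4) = ![a, b, x, y] := by
  funext l
  rcases Fin.eq_self_or_eq_succAbove (3 : Fin 4) l with h | ⟨i, h⟩
  · subst h
    simp only [Function.comp_apply, finSuccEquiv'_at]
    rfl
  · subst h
    have h1 : (ext ![a, b, x] y ∘ finSuccEquiv' (3 : Fin 4)) ((3 : Fin 4).succAbove i) =
        (![a, b, x] : Fin 3 → ℝ) i := by
      simp only [Function.comp_apply, finSuccEquiv'_succAbove]
      rfl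
    rw [h1, ← fub2_succ a b x y]

theorem ae_fin2 (S : Sys) (hl : ∀ s : Fin 3 → ℝ, Dist s → HasLoops S s) (a b : ℝ)
    (β ε : ℝ) (hε : 0 < ε) :
    ∀ᵐ p : ℝ × ℝ, Dist ![a, b, p.1, p.2] → (N S ![a, b, p.1, p.2] β ε).Nonempty →
      (Set.range fun g : List (Fin 3) => Int.fract (W S ![a, b, p.1] g
        (aPt S ![a, b, p.1, p.2] β ε))).Finite := by
  have hT : Measurable fun p : ℝ × ℝ => (![a, b, p.1, p.2] : Fin 4 → ℝ) := by
    refine measurable_pi_iff.2 fun i => ?_
    fin_cases i
    · exact measurable_const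
    · exact measurable_const
    · exact measurable_fst
    · exact measurable_snd
  have hB := hT (inf_measurable S (n := 3) (3 : Fin 4) β ε)
  have h0 : (volume : Measure (ℝ × ℝ)) ((fun p : ℝ × ℝ => (![a, b, p.1, p.2] : Fin 4 → ℝ)) ⁻¹'
      {t : Fin 4 → ℝ | Dist t ∧ (N S t β ε).Nonempty ∧
      (Set.range fun g : List (Fin 3) =>
        Int.fract (W S (fun i => t ((3 : Fin 4).succAbove i)) g (aPt S t β ε))).Infinite}) = 0 := by
    rw [Measure.volume_eq_prod, Measure.measure_prod_null hB]
    refine Filter.Eventually.of_forall fun x => ?_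
    show volume _ = 0
    by_cases hs : Dist ![a, b, x]
    · have h1 := main_finite S ![a, b, x] (le_refl 3) hs (hl _ hs) β ε hε
      refine measure_mono_null ?_ (ae_iff.1 h1)
      rintro y ⟨-, h2, h3⟩
      have hN : N S (![a, b, x, y] : Fin 4 → ℝ) β ε = N S (ext ![a, b, x] y) β ε := by
        rw [← fub2_ext a b x y]
        exact N_relabel S (finSuccEquiv' (3 : Fin 4)) (ext ![a, b, x] y) β ε
      have ha : aPt S (![a, b, x, y] : Fin 4 → ℝ) β ε = aPt S (ext ![a, b, x] y) β ε := by
        unfold aPt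
        rw [hN]
      rw [hN] at h2
      rw [ha, fub2_succ] at h3
      show ¬ _
      intro h4
      exact h3 (h4 h2)
    · convert measure_empty (μ := (volume : Measure ℝ)) using 2
      apply Set.eq_empty_of_forall_notMem
      rintro y ⟨h1, -⟩
      apply hs
      intro i k hik m
      have h2 := h1 ((3 : Fin 4).succAbove i) ((3 : Fin 4).succAbove k)
        (fun h => hik (Fin.succAbove_right_injective h)) m
      have h3 := congrFun (fub2_succ a b x y) i
      have h4 := congrFun (fub2_succ a b x y) k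
      intro h5
      exact h2 (h3.trans (h5.trans (congrArg (· + (m : ℝ) * Real.pi) h4.symm)))
  have h1 := measure_eq_zero_iff_ae_notMem.1 h0
  filter_upwards [h1] with p hp hd hn
  by_contra hinf
  refine hp ⟨hd, hn, ?_⟩
  rw [fub2_succ]
  exact hinf

end AD
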