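import Pool.Agent.Helper45.AD.NSet

set_option autoImplicit false

/-! # AD-07: maps of gap end points -/

namespace AD

variable {L : Type} {r : ℕ}

theorem GapEnd.map (S : Sys) (t : ℝ) {M : Set ℝ} (hM : ∀ x ∈ M, S.F t x ∈ M) {c : ℝ}
    (h : GapEnd M c) : GapEnd M (S.F t c) := by
  obtain ⟨hc, e, he, hne, hg⟩ := h
  refine ⟨hM c hc, S.F t e, hM e he, fun h => hne (F_inj S t h), fun x hx hx' => ?_⟩
  refine hg (S.F t x) (hM x hx) ?_
  have ha := (S.anti t)
  rcases lt_or_gt_of_ne hne with h | h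
  · have h1 := ha h
    rw [min_eq_left h1.le, max_eq_right h1.le] at hx'
    have h2 := ha hx'.1
    have h3 := ha hx'.2
    rw [S.inv] at h2 h3
    rw [min_eq_right h.le, max_eq_left h.le]
    exact ⟨h3, h2⟩
  · have h1 := ha h
    rw [min_eq_right h1.le, max_eq_left h1.le] at hx'
    have h2 := ha hx'.1
    have h3 := ha hx'.2
    rw [S.inv] at h2 h3
    rw [min_eq_left h.le, max_eq_right h.le]
    exact ⟨h3, h2⟩

theorem GapEnd.W (S : Sys) (α : L → ℝ) {M : Set ℝ} (hM : ∀ l, ∀ x ∈ M, S.F (α l) x ∈ M)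
    {c : ℝ} (h : GapEnd M c) (w : List L) : GapEnd M (W S α w c) := by
  induction w generalizing c with
  | nil => exact h
  | cons l w ih => exact ih (h.map S (α l) (hM l))

theorem GapEnd.add_int {M : Set ℝ} (hp : ∀ x ∈ M, ∀ k : ℤ, x + k ∈ M) {c : ℝ}
    (h : GapEnd M c) (k : ℤ) : GapEnd M (c + k) := by
  obtain ⟨hc, e, he, hne, hg⟩ := h
  refine ⟨hp c hc k, e + k, hp e he k, fun h => hne (by linarith), fun x hx hx' => ?_⟩
  refine hg (x + ((-k : ℤ) : ℝ)) (hp x hx _) ?_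
  rw [min_add_add_right, max_add_add_right] at hx'
  push_cast
  exact ⟨by linarith [hx'.1], by linarith [hx'.2]⟩

end AD
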