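import Pool.Agent.Helper45.AD.ThreePt

set_option autoImplicit false

/-!
# AE-08: orbits of all gap ends, one set of letters; periodic points

`gapEnd_orbit'` is `gapEnd_orbit` of `GapOrb.lean` for a single family `θ` of letters contained in the
letters of `t` (same proof, by `helper67`; copy it).

PROOF of `periodic_of_finite`.  Let `H z = S.F (θ i) (S.F (θ k) z)` and let `o m = fract (H^[m] c)`.
`H^[m] c = W S θ (the word (k, i) repeated m times) c`, so `o` has finite range, and there are
`m < m'` with `o m = o m'` (`Finite.exists_ne_map_eq_of_infinite` or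
`Set.Finite.exists_lt_map_eq_of_forall_mem`).  `H` is a bijection commuting with integer translations
(`F_add_int` twice), so `H^[m'] c = H^[m] c + n` gives `H^[m' - m] c = c + n` (injectivity of
`H^[m]`: `H^[m] (H^[m'-m] c) = H^[m] c + n = H^[m] (c + n)`); `q = m' - m - 1`. -/

namespace AD

variable {r : ℕ} {L : Type}

theorem gapEnd_orbit' (S : Sys) (t : L → ℝ) (θ : Fin r → ℝ) (e : Fin r → L)
    (hθ : ∀ i, θ i = t (e i))
    (hfin : ∀ (β : ℚ) (n : ℕ), (N S t β (1 / ((n : ℝ) + 1))).Nonempty →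
      (Set.range fun g : List (Fin r) => Int.fract (W S θ g
        (aPt S t β (1 / ((n : ℝ) + 1))))).Finite)
    (β₀ ε₀ : ℝ) {c : ℝ} (hc : GapEnd (N S t β₀ ε₀) c) :
    (Set.range fun g : List (Fin r) => Int.fract (W S θ g c)).Finite := by
  obtain ⟨hcM, e', heM, hne, hg⟩ := hc
  have hlt : min c e' < max c e' := by
    rcases lt_or_gt_of_ne hne with h | h
    · rw [min_eq_right h.le, max_eq_left h.le]
      exact h
    · rw [min_eq_left h.le, max_eq_right h.le]
      exact h
  obtain ⟨β, hβ1, hβ2⟩ := exists_rat_btwn hlt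
  obtain ⟨n, hn⟩ := exists_nat_one_div_lt
    (lt_min (sub_pos.2 hβ1) (sub_pos.2 hβ2) : (0 : ℝ) < min ((β : ℝ) - min c e') (max c e' - β))
  have hn1 := hn.trans_le (min_le_left _ _)
  have hn2 := hn.trans_le (min_le_right _ _)
  have hε : (0 : ℝ) < 1 / ((n : ℝ) + 1) := by positivity
  have hsub : N S t β₀ ε₀ ⊆ N S t β (1 / ((n : ℝ) + 1)) := by
    refine N_max S t β _ (fun l x hx => N_inv S t β₀ ε₀ hx l) ?_
    rintro x hx ⟨k, hk⟩
    have h1 := N_add_int S t β₀ ε₀ hx (-k)
    push_cast at h1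
    rw [abs_lt] at hk
    exact hg _ h1 ⟨by linarith [hk.1], by linarith [hk.2]⟩
  have hnon : (N S t β (1 / ((n : ℝ) + 1))).Nonempty := ⟨c, hsub hcM⟩
  have hmin : min c e' ∈ N S t β₀ ε₀ := by
    rcases min_choice c e' with h | h
    · rw [h]
      exact hcM
    · rw [h]
      exact heM
  exact gap_orbit_finite S θ
    (fun i x hx => by
      rw [hθ i]
      exact N_inv S t β₀ ε₀ hx (e i)) (fun x hx k => N_add_int S t β₀ ε₀ hx k)
    hcM heM hne hg (le_aPt S t β _ (hsub hmin) hβ1.le)
    ((aPt_lt S t β _ hε hnon).le.trans hβ2.le) (hfin β n hnon)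

theorem periodic_of_finite (S : Sys) (θ : Fin r → ℝ) (i k : Fin r) {c : ℝ}
    (hfin : (Set.range fun g : List (Fin r) => Int.fract (W S θ g c)).Finite) :
    ∃ (q : ℕ) (n : ℤ), (fun z => S.F (θ i) (S.F (θ k) z))^[q + 1] c = c + n := by
  set H : ℝ → ℝ := fun z => S.F (θ i) (S.F (θ k) z) with hH
  have hword : ∀ (m : ℕ) (x : ℝ), ∃ w : List (Fin r), W S θ w x = H^[m] x := by
    intro m
    induction m with
    | zero => exact fun x => ⟨[], rfl⟩
    | succ m ih =>
      intro x
      obtain ⟨w, hw⟩ := ih (H x)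
      refine ⟨k :: i :: w, ?_⟩
      rw [Function.iterate_succ_apply, ← hw]
      rfl
  have hadd1 : ∀ (z : ℝ) (n : ℤ), H (z + n) = H z + n := by
    intro z n
    show S.F (θ i) (S.F (θ k) (z + n)) = S.F (θ i) (S.F (θ k) z) + n
    rw [F_add_int]
    have h := F_add_int S (θ i) (S.F (θ k) z) (-n)
    push_cast at h
    rw [sub_eq_add_neg, h]
    ring
  have hadd : ∀ (m : ℕ) (z : ℝ) (n : ℤ), H^[m] (z + n) = H^[m] z + n := by
    intro m
    induction m with
    | zero => exact fun z n => rfl
    | succ m ih =>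
      intro z n
      rw [Function.iterate_succ_apply, Function.iterate_succ_apply, hadd1, ih]
  have hinj1 : Function.Injective H := fun a b hab =>
    (S.anti (θ k)).injective ((S.anti (θ i)).injective hab)
  obtain ⟨a, b, hab, he⟩ := Set.Finite.exists_lt_map_eq_of_forall_mem
    (f := fun m : ℕ => Int.fract (H^[m] c))
    (t := Set.range fun g : List (Fin r) => Int.fract (W S θ g c))
    (fun m => by
      obtain ⟨w, hw⟩ := hword m c
      exact ⟨w, by rw [← hw]⟩) hfin
  obtain ⟨n, hn⟩ := Int.fract_eq_fract.1 he.symm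
  refine ⟨b - a - 1, n, ?_⟩
  have hba : b = a + (b - a - 1 + 1) := by omega
  refine (hinj1.iterate a) ?_
  rw [hadd, ← Function.iterate_add_apply, ← hba]
  linarith

end AD
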