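import Pool.Agent.Helper45.AD.Par

set_option autoImplicit false

/-!
# AD-G3: the angle of the line through two boundary points

`e = dirv (π (x + y))`, `v = bp K y - bp K x`, `Th K x y = π (x + y) + arctan (cross e v / inner e v)`.

PROOFS.
`Th_self`: `v = 0`, `arctan 0 = 0`.
`Th_symm`: `π (x + y)` is symmetric and `v` changes its sign, so the quotient does not change
(`neg_div_neg_eq`; `cross_neg_right`, `inner_neg_right`).
`Th_add_one`: `bp K (y + 1) = bp K y` (`bp_eq_iff`), `dirv (π (x + y + 1)) = - dirv (π (x + y))`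
(`dirv_add_pi`), the quotient does not change.

`Th_key`: let `x < y < x + 1`, `d = π (y - x) ∈ (0, π)`, `C = cross e v`, `I = inner e v`.
`bp K y ≠ bp K x` (`bp_eq_iff`: `y - x` is not an integer), so by `bp_spec`
`0 < cross (dirv (2 π x)) v` and `cross (dirv (2 π y)) v < 0`.  By `cross_rotate` with
`s = π (x + y)`, `2 π x = s - d`, `2 π y = s + d`:
`0 < cos d * C + sin d * I` and `cos d * C - sin d * I < 0`.
So `|C * cos d| < I * sin d`, and `I > 0` since `sin d > 0`.
`Th_bound`: `|arctan (C / I)| < d` and `< π - d`.  If `d < π / 2`: `cos d > 0`,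
`|C / I| < tan d`, so `|arctan (C / I)| < arctan (tan d) = d ≤ π - d`.  If `d = π / 2` both bounds
are `π / 2` (`Real.arctan_lt_pi_div_two`, `Real.neg_pi_div_two_lt_arctan`).  If `d > π / 2`:
`|C / I| < tan (π - d)` (`cos (π - d) = - cos d > 0`), so `|arctan (C / I)| < π - d < d`.
`Th_dir`: `τ = Th K x y = s + φ` with `φ = arctan (C / I)`; `tan φ = C / I`, `cos φ > 0`; by
`cross_rotate`: `cross (dirv τ) v = cos φ * C - sin φ * I = cos φ (C - tan φ * I) = 0`, and by
`inner_rotate`: `inner (dirv τ) v = cos φ * I + sin φ * C = cos φ * (I + C ^ 2 / I) > 0`; so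
`v = inner (dirv τ) v • dirv τ` (`eq_smul_of_cross`) with a positive coefficient, which is `‖v‖`
(`norm_smul`, `norm_dirv`).
`Th_line`: for all `x y`.  If `y - x` is an integer, `v = 0`.  Otherwise put `y' = y + k` with
`x < y' < x + 1` (`k = -⌊y - x⌋`); `bp K y' = bp K y`, `Th K x y' = Th K x y + k π`
(`Th_add_int`, induction from `Th_add_one`), so `dirv` changes by a sign (`dirv_add_int_pi`).
`Th_near`: `|Th K x y - π (x + y)| ≤ π * |y - x|` for all `x y`: by symmetry (`Th_symm`) let
`x ≤ y`; `x = y`: `Th_self`; `y < x + 1`: `Th_bound`; `x + 1 ≤ y`: the left side is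
`|arctan _| < π / 2`.
-/

namespace AD

open ChordMaps

variable {K : Set Plane}

/-- the angle of the line through the boundary points `bp K x` and `bp K y` -/
noncomputable def Th (K : Set Plane) (x y : ℝ) : ℝ :=
  Real.pi * (x + y) + Real.arctan (cross (dirv (Real.pi * (x + y))) (bp K y - bp K x) /
    inner ℝ (dirv (Real.pi * (x + y))) (bp K y - bp K x))

theorem Th_self (K : Set Plane) (x : ℝ) : Th K x x = 2 * Real.pi * x := by
  unfold Th
  rw [sub_self, show cross (dirv (Real.pi * (x + x))) 0 = 0 by simp [cross], zero_div,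
    Real.arctan_zero]
  ring

theorem Th_symm (K : Set Plane) (x y : ℝ) : Th K x y = Th K y x := by
  unfold Th
  rw [add_comm y x, ← neg_sub (bp K y) (bp K x)]
  have h1 : cross (dirv (Real.pi * (x + y))) (-(bp K y - bp K x)) =
      -cross (dirv (Real.pi * (x + y))) (bp K y - bp K x) := by
    simp [cross]
    ring
  rw [h1, inner_neg_right, neg_div_neg_eq]

private theorem th_add_one (hB : SBody K) (x y : ℝ) : Th K x (y + 1) = Th K x y + Real.pi := by
  unfold Th
  have h1 : bp K (y + 1) = bp K y := (bp_eq_iff hB _ _).2 ⟨1, by push_cast; ring⟩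
  have h2 : Real.pi * (x + (y + 1)) = Real.pi * (x + y) + Real.pi := by ring
  have h3 : cross (-dirv (Real.pi * (x + y))) (bp K y - bp K x) =
      -cross (dirv (Real.pi * (x + y))) (bp K y - bp K x) := by
    simp [cross]
    ring
  rw [h1, h2, dirv_add_pi, h3, inner_neg_left, neg_div_neg_eq]
  ring

theorem Th_add_int (hB : SBody K) (x y : ℝ) (k : ℤ) :
    Th K x (y + k) = Th K x y + k * Real.pi := by
  have hn : ∀ (n : ℕ) (z : ℝ), Th K x (z + n) = Th K x z + n * Real.pi := by
    intro n
    induction n with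
    | zero =>
      intro z
      rw [Nat.cast_zero, add_zero, zero_mul, add_zero]
    | succ n ih =>
      intro z
      rw [Nat.cast_add, Nat.cast_one, ← add_assoc, th_add_one hB, ih]
      ring
  obtain ⟨n, rfl | rfl⟩ := k.eq_nat_or_neg
  · rw [Int.cast_natCast]
    exact hn n y
  · have h1 := hn n (y + ((-(n : ℤ) : ℤ) : ℝ))
    have h2 : y + ((-(n : ℤ) : ℤ) : ℝ) + (n : ℝ) = y := by
      push_cast
      ring
    rw [h2] at h1
    rw [h1]
    push_cast
    ring

private theorem th_key (hB : SBody K) {x y : ℝ} (h1 : x < y) (h2 : y < x + 1) :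
    0 < Real.cos (Real.pi * (y - x)) * cross (dirv (Real.pi * (x + y))) (bp K y - bp K x) +
      Real.sin (Real.pi * (y - x)) * inner ℝ (dirv (Real.pi * (x + y))) (bp K y - bp K x) ∧
    Real.cos (Real.pi * (y - x)) * cross (dirv (Real.pi * (x + y))) (bp K y - bp K x) -
      Real.sin (Real.pi * (y - x)) * inner ℝ (dirv (Real.pi * (x + y))) (bp K y - bp K x) < 0 := by
  have hne : bp K y ≠ bp K x := by
    intro h
    obtain ⟨k, hk⟩ := (bp_eq_iff hB _ _).1 h
    have h3 : (0 : ℝ) < k := by linarith
    have h4 : (k : ℝ) < 1 := by linarith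
    have h5 : (0 : ℤ) < k := by exact_mod_cast h3
    have h6 : k < (1 : ℤ) := by exact_mod_cast h4
    omega
  have h3 := (bp_spec hB x).2 _ (bp_spec hB y).1 hne
  have h4 := (bp_spec hB y).2 _ (bp_spec hB x).1 (Ne.symm hne)
  have hcr : ∀ u v w : Plane, cross u (v - w) = cross u v - cross u w := by
    intro u v w
    simp [cross]
    ring
  have h5 := cross_rotate (Real.pi * (x + y)) (2 * Real.pi * x) (bp K y - bp K x)
  have h6 := cross_rotate (Real.pi * (x + y)) (2 * Real.pi * y) (bp K y - bp K x)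
  have h7 : 2 * Real.pi * x - Real.pi * (x + y) = -(Real.pi * (y - x)) := by ring
  have h8 : 2 * Real.pi * y - Real.pi * (x + y) = Real.pi * (y - x) := by ring
  rw [h7, Real.cos_neg, Real.sin_neg, hcr (dirv (2 * Real.pi * x))] at h5
  rw [h8, hcr (dirv (2 * Real.pi * y))] at h6
  constructor
  · linarith
  · linarith

private theorem th_pos (hB : SBody K) {x y : ℝ} (h1 : x < y) (h2 : y < x + 1) :
    0 < Real.sin (Real.pi * (y - x)) ∧
      0 < inner ℝ (dirv (Real.pi * (x + y))) (bp K y - bp K x) := by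
  have hs : 0 < Real.sin (Real.pi * (y - x)) := by
    refine Real.sin_pos_of_pos_of_lt_pi (mul_pos Real.pi_pos (by linarith)) ?_
    calc Real.pi * (y - x) < Real.pi * 1 := mul_lt_mul_of_pos_left (by linarith) Real.pi_pos
      _ = Real.pi := mul_one _
  refine ⟨hs, ?_⟩
  obtain ⟨h3, h4⟩ := th_key hB h1 h2
  by_contra h5
  push Not at h5
  have h6 := mul_nonpos_of_nonneg_of_nonpos hs.le h5
  linarith

private theorem th_abs {a b d : ℝ} (hI : 0 < b) (hd0 : 0 < d) (hd1 : d < Real.pi / 2)
    (h1 : 0 < Real.cos d * a + Real.sin d * b) (h2 : Real.cos d * a - Real.sin d * b < 0) :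
    |Real.arctan (a / b)| < d := by
  have hc : 0 < Real.cos d := Real.cos_pos_of_mem_Ioo ⟨by linarith, hd1⟩
  have hat : Real.arctan (Real.tan d) = d := Real.arctan_tan (by linarith) hd1
  have h3 : a / b < Real.tan d := by
    rw [Real.tan_eq_sin_div_cos, div_lt_div_iff₀ hI hc]
    linarith
  have h4 : -(a / b) < Real.tan d := by
    rw [← neg_div, Real.tan_eq_sin_div_cos, div_lt_div_iff₀ hI hc]
    linarith
  rw [abs_lt]
  constructor
  · have h5 := Real.arctan_strictMono h4
    rw [Real.arctan_neg, hat] at h5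
    linarith
  · have h5 := Real.arctan_strictMono h3
    rwa [hat] at h5

theorem Th_bound (hB : SBody K) {x y : ℝ} (h1 : x < y) (h2 : y < x + 1) :
    |Th K x y - Real.pi * (x + y)| < Real.pi * (y - x) ∧
      |Th K x y - Real.pi * (x + y)| < Real.pi - Real.pi * (y - x) := by
  obtain ⟨hk1, hk2⟩ := th_key hB h1 h2
  obtain ⟨hs, hI⟩ := th_pos hB h1 h2
  have hT : Th K x y - Real.pi * (x + y) =
      Real.arctan (cross (dirv (Real.pi * (x + y))) (bp K y - bp K x) /
        inner ℝ (dirv (Real.pi * (x + y))) (bp K y - bp K x)) := by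
    unfold Th
    ring
  rw [hT]
  set a := cross (dirv (Real.pi * (x + y))) (bp K y - bp K x) with ha
  set b : ℝ := inner ℝ (dirv (Real.pi * (x + y))) (bp K y - bp K x) with hb
  set d := Real.pi * (y - x) with hd
  have hd0 : 0 < d := mul_pos Real.pi_pos (by linarith)
  have hd1 : d < Real.pi := by
    calc Real.pi * (y - x) < Real.pi * 1 := mul_lt_mul_of_pos_left (by linarith) Real.pi_pos
      _ = Real.pi := mul_one _
  rcases lt_trichotomy d (Real.pi / 2) with h | h | h
  · have h3 := th_abs hI hd0 h hk1 hk2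
    exact ⟨h3, by linarith⟩
  · have h3 : |Real.arctan (a / b)| < Real.pi / 2 := by
      rw [abs_lt]
      exact ⟨Real.neg_pi_div_two_lt_arctan _, Real.arctan_lt_pi_div_two _⟩
    constructor <;> linarith
  · have h3 : |Real.arctan (a / b)| < Real.pi - d := by
      refine th_abs hI (by linarith) (by linarith) ?_ ?_
      · rw [Real.cos_pi_sub, Real.sin_pi_sub]
        linarith
      · rw [Real.cos_pi_sub, Real.sin_pi_sub]
        linarith
    exact ⟨by linarith, h3⟩

theorem Th_dir (hB : SBody K) {x y : ℝ} (h1 : x < y) (h2 : y < x + 1) :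
    bp K y - bp K x = ‖bp K y - bp K x‖ • dirv (Th K x y) := by
  obtain ⟨hs, hI⟩ := th_pos hB h1 h2
  set v := bp K y - bp K x with hv
  set s := Real.pi * (x + y) with hsd
  set a := cross (dirv s) v with ha
  set b : ℝ := inner ℝ (dirv s) v with hb
  set φ := Real.arctan (a / b) with hφ
  have hT : Th K x y = s + φ := rfl
  have hcos : 0 < Real.cos φ := Real.cos_arctan_pos _
  have htan : Real.tan φ = a / b := Real.tan_arctan _
  have hsin : Real.sin φ = a / b * Real.cos φ := by
    rw [← htan, Real.tan_mul_cos hcos.ne']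
  have hsub : s + φ - s = φ := by ring
  have hcr : cross (dirv (s + φ)) v = 0 := by
    rw [cross_rotate s (s + φ) v, hsub, ← ha, ← hb, hsin]
    field_simp
    ring
  have hin : 0 < inner ℝ (dirv (s + φ)) v := by
    rw [inner_rotate s (s + φ) v, hsub, ← ha, ← hb, hsin]
    have h3 : Real.cos φ * b + a / b * Real.cos φ * a = Real.cos φ * (b + a ^ 2 / b) := by
      field_simp
    rw [h3]
    positivity
  have h4 := eq_smul_of_cross (s + φ) hcr
  have h5 : ‖v‖ = inner ℝ (dirv (s + φ)) v := by
    conv_lhs => rw [h4]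
    rw [norm_smul, norm_dirv, mul_one, Real.norm_eq_abs, abs_of_pos hin]
  rw [hT, h5]
  exact h4

private theorem th_shift (x y : ℝ) (h : ∀ k : ℤ, y - x ≠ k) :
    ∃ k : ℤ, x < y + k ∧ y + k < x + 1 := by
  refine ⟨-⌊y - x⌋, ?_, ?_⟩
  · have h1 := Int.floor_le (y - x)
    have h2 := lt_of_le_of_ne h1 (Ne.symm (h ⌊y - x⌋))
    push_cast
    linarith
  · have h1 := Int.lt_floor_add_one (y - x)
    push_cast
    linarith

theorem Th_line (hB : SBody K) (x y : ℝ) :
    cross (dirv (Th K x y)) (bp K y - bp K x) = 0 := by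
  by_cases h : ∃ k : ℤ, y - x = k
  · obtain ⟨k, hk⟩ := h
    have h1 : bp K y = bp K x := (bp_eq_iff hB _ _).2 ⟨k, by linarith⟩
    rw [h1, sub_self]
    simp [cross]
  · push Not at h
    obtain ⟨k, hk1, hk2⟩ := th_shift x y h
    have h1 := Th_dir hB hk1 hk2
    have h2 : bp K (y + k) = bp K y := (bp_eq_iff hB _ _).2 ⟨k, rfl⟩
    rw [h2, Th_add_int hB, dirv_add_int_pi] at h1
    rw [h1]
    simp [cross]
    ring

theorem Th_near (hB : SBody K) (x y : ℝ) :
    |Th K x y - Real.pi * (x + y)| ≤ Real.pi * |y - x| := by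
  have key : ∀ x y : ℝ, x ≤ y → |Th K x y - Real.pi * (x + y)| ≤ Real.pi * |y - x| := by
    intro x y hxy
    rcases eq_or_lt_of_le hxy with h | h
    · subst h
      rw [Th_self]
      have : 2 * Real.pi * x - Real.pi * (x + x) = 0 := by ring
      rw [this, sub_self, abs_zero, mul_zero]
    · rw [abs_of_pos (sub_pos.2 h)]
      rcases lt_or_ge y (x + 1) with h' | h'
      · exact (Th_bound hB h h').1.le
      · have h1 : |Th K x y - Real.pi * (x + y)| < Real.pi / 2 := by
          have hT : Th K x y - Real.pi * (x + y) =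
              Real.arctan (cross (dirv (Real.pi * (x + y))) (bp K y - bp K x) /
                inner ℝ (dirv (Real.pi * (x + y))) (bp K y - bp K x)) := by
            unfold Th
            ring
          rw [hT, abs_lt]
          exact ⟨Real.neg_pi_div_two_lt_arctan _, Real.arctan_lt_pi_div_two _⟩
        have h2 : Real.pi * 1 ≤ Real.pi * (y - x) :=
          mul_le_mul_of_nonneg_left (by linarith) Real.pi_pos.le
        linarith [Real.pi_pos]
  rcases le_total x y with h | h
  · exact key x y h
  · rw [Th_symm, add_comm x y, abs_sub_comm y x]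
    exact key y x h

end AD
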