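import Pool.Agent.Helper45.AD.Model
import Pool.Agent.Helper95.TL.T5

set_option autoImplicit false

/-! # AD-G8a: translation of walks into words -/

namespace AD

open ChordMaps

variable {K : Set Plane} {r : ℕ}

/-- the word of a walk -/
def wdl (lt : Fin 4 → Option (Fin r)) : Bool → List Bool → List (Option (Fin r))
  | _, [] => []
  | c, d :: L => lt (ltr c d) :: wdl lt (!c) L

theorem walk_eq (Mo : Model K) (θ : Fin r → ℝ) (t : ℝ) (lt : Fin 4 → Option (Fin r))
    (u : Fin 4 → Plane) (hu : ∀ m, u m = dirv (ext θ t (lt m))) (c : Bool) (L : List Bool)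
    (x : ℝ) : walk K u c L (Mo.p x) = Mo.p (W Mo.S (ext θ t) (wdl lt c L) x) := by
  induction L generalizing c x with
  | nil => rfl
  | cons d L ih =>
    rw [walk, hu, Mo.p_chord, ih, wdl, W_cons]

private theorem ltr_inj {c c' d d' : Bool} (h : ltr c d = ltr c' d') : c = c' := by
  revert c c' d d'
  decide

theorem wdl_alt (lt : Fin 4 → Option (Fin r)) (c' d' : Bool)
    (hlt : ∀ m, lt m = none → m = ltr c' d') (L : List Bool) (hL : Even L.length) :
    Alt (wdl lt c' L) := by
  match L, hL with
  | [], _ => exact Alt.nil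
  | [d], hL => exact absurd hL (by simp)
  | d :: e :: L, hL =>
    have hL' : Even L.length := by
      have : (d :: e :: L).length = L.length + 2 := rfl
      rw [this] at hL
      exact (Nat.even_add.1 hL).2 (by decide)
    have h1 := wdl_alt lt c' d' hlt L hL'
    have h2 : lt (ltr (!c') e) ≠ none := by
      intro h
      have := ltr_inj (hlt _ h)
      cases c' <;> simp at this
    obtain ⟨i, hi⟩ := Option.ne_none_iff_exists'.1 h2
    rw [wdl, wdl, hi, Bool.not_not]
    exact Alt.cons _ i _ h1

theorem loop_of_walk (Mo : Model K) (θ : Fin r → ℝ) (t : ℝ) (lt : Fin 4 → Option (Fin r))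
    (u : Fin 4 → Plane) (hu : ∀ m, u m = dirv (ext θ t (lt m))) (c' d' : Bool)
    (h0 : lt (ltr c' d') = none) (hlt : ∀ m, lt m = none → m = ltr c' d') (L : List Bool)
    (hL : Even (d' :: L).length) (x : ℝ) (h : walk K u c' (d' :: L) (Mo.p x) = Mo.p x) :
    ∃ i w n, Loop Mo.S θ t x i w n := by
  match L, hL with
  | [], hL => exact absurd hL (by simp)
  | e :: L, hL =>
    have hL' : Even L.length := by
      have : (d' :: e :: L).length = L.length + 2 := rfl
      rw [this] at hL
      exact (Nat.even_add.1 hL).2 (by decide)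
    have h1 := wdl_alt lt c' d' hlt L hL'
    have h2 : lt (ltr (!c') e) ≠ none := by
      intro h
      have := ltr_inj (hlt _ h)
      cases c' <;> simp at this
    obtain ⟨i, hi⟩ := Option.ne_none_iff_exists'.1 h2
    rw [walk_eq Mo θ t lt u hu, Mo.p_eq] at h
    obtain ⟨n, hn⟩ := h
    refine ⟨i, wdl lt c' L, n, h1, ?_⟩
    rw [wdl, wdl, hi, h0, Bool.not_not] at hn
    exact hn

end AD
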