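import Pool.Agent.Helper45.AD.LoopWord
import Pool.Agent.Helper45.AD.NSet

set_option autoImplicit false

/-!
# AD-G8: the loops

PROOF of `isGap_of_gap`.  Let `V = p '' M`.  Every `z ∈ V` is `p x` with `x ∈ M`, `c ≤ x < c + 1`
(shift by an integer).  If `x = c` then `z - p c = 0`, cross product `0`.  Otherwise `e ≤ x` (no
point of `M` strictly between `c` and `e`); if `x = e` the cross product is `0` (`cross_self`), and
if `e < x < c + 1` it is positive by `p_ccw c e x`.  `p c ≠ p e`: `p_eq` and `c < e < c + 1`.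

PROOF of `hasLoops`.  Let `t`, `M`, `c`, `e` be as in `HasLoops`.  Let
`c₁ = min c e < e₁ = max c e`; we get the loop for both.
(0) `e₁ < c₁ + 1`: `c₁ + 1 ∈ M` gives `e₁ ≤ c₁ + 1`; if `e₁ = c₁ + 1` then `M` is `c₁ + ℤ`
(shift any point into `[c₁, c₁ + 1)`), but `S.F (θ 0) c₁` and `S.F (θ 1) c₁` are in `M` and differ by
an integer, against `F_ne_of_dist` (`3 ≤ r`).
(1) `u = ![dirv t, dirv (θ 0), dirv (θ 1), dirv (θ 2)]` (indices `⟨0, _⟩, ⟨1, _⟩, ⟨2, _⟩ : Fin r`)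
is `PNP` (`cross_dirv_eq_zero_iff`, `Dist`, `t ≠ θ i + k π`); `exists_cyc` gives `σ` with
`Cyc (u ∘ σ)`.
(2) `V = p '' M`: `V ⊆ frontier K`, nonempty, invariant: if `x = p y`, `y ∈ M`, and
`x + τ • (u ∘ σ) i ∈ frontier K`, then this point is `x` or the chord point (`eq_of_cross_eq` of
`Helper3/Chord/Flow.lean`), and `chord K (dirv φ) (p y) = p (S.F φ y)` with `S.F φ y ∈ M`.
`V` is closed: `V = p '' (M ∩ Icc 0 1)`, compact.  `closure V = V ≠ frontier K`: take `x ∉ M`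
(`M ≠ univ`); `p x ∉ V`, otherwise `x = y + k` with `y ∈ M`.
(3) `loops_main K .. (u ∘ σ) hcyc` gives `A`; apply it to `V`, and to the gap `p c₁, p e₁`
(`isGap_of_gap`).  Let `c' d' : Bool` be the colour and
bit with `ltr c' d' = σ⁻¹ 0` (every element of `Fin 4` is `ltr c d`), so that
`(u ∘ σ) (ltr c' d') = u 0 = dirv t`.  `cross (dirv t) (p e₁ - p c₁) ≠ 0`: otherwise (`p e₁ ≠ p c₁`)
`p e₁` is the chord point of `p c₁` in the direction `dirv t` (`eq_of_cross_eq`), so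
`S.F t c₁ = e₁ + k` by `p_eq`; and then also `S.F t e₁ = c₁ + k` (`F_add_int`, `S.inv`), one of which
contradicts the hypothesis on `c`, `e`.  So we get `L : List Bool`, `(d' :: L)` of even length, and
`walk K (u ∘ σ) c' (d' :: L) (p c) = p c` (for both end points of the gap).
(4) `loop_of_walk` with `lt = ![none, some 0, some 1, some 2] ∘ σ` (the same three indices of
`Fin r`): `(u ∘ σ) m = dirv (ext θ t (lt m))` for all `m : Fin 4` (case distinction on `σ m`);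
`lt m = none` iff `σ m = 0` iff `m = ltr c' d'`.
-/

namespace AD

open ChordMaps

variable {K : Set Plane} {r : ℕ}

private theorem lp_add {M : Set ℝ} (h1 : ∀ x ∈ M, x + 1 ∈ M) (h2 : ∀ x ∈ M, x - 1 ∈ M) :
    ∀ x ∈ M, ∀ k : ℤ, x + k ∈ M := by
  intro x hx k
  induction k using Int.induction_on with
  | zero => simpa using hx
  | succ i ih =>
    have := h1 _ ih
    push_cast at this ⊢
    rwa [add_assoc] at this
  | pred i ih =>
    have := h2 _ ih
    push_cast at this ⊢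
    rwa [add_sub_assoc] at this

private theorem lp_shift {M : Set ℝ} (hp : ∀ x ∈ M, ∀ k : ℤ, x + k ∈ M) {c x : ℝ} (hx : x ∈ M) :
    ∃ (y : ℝ) (k : ℤ), y ∈ M ∧ x = y + k ∧ c ≤ y ∧ y < c + 1 := by
  refine ⟨x - ⌊x - c⌋, ⌊x - c⌋, ?_, by ring, ?_, ?_⟩
  · have := hp x hx (-⌊x - c⌋)
    push_cast at this
    rwa [← sub_eq_add_neg] at this
  · have := Int.floor_le (x - c)
    linarith
  · have := Int.lt_floor_add_one (x - c)
    linarith

theorem isGap_of_gap (Mo : Model K) {M : Set ℝ} (hp : ∀ x ∈ M, ∀ k : ℤ, x + k ∈ M) {c e : ℝ}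
    (hc : c ∈ M) (he : e ∈ M) (h1 : c < e) (h2 : e < c + 1)
    (hg : ∀ x ∈ M, ¬ (c < x ∧ x < e)) : IsGap (Mo.p '' M) (Mo.p c) (Mo.p e) := by
  refine ⟨subset_closure ⟨c, hc, rfl⟩, subset_closure ⟨e, he, rfl⟩, ?_, ?_⟩
  · intro h
    obtain ⟨k, hk⟩ := (Mo.p_eq e c).1 h.symm
    have h3 : (0 : ℝ) < k := by linarith
    have h4 : (k : ℝ) < 1 := by linarith
    have h5 : (0 : ℤ) < k := by exact_mod_cast h3
    have h6 : k < (1 : ℤ) := by exact_mod_cast h4
    omega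
  · rintro z ⟨x, hx, rfl⟩
    obtain ⟨y, k, hy, hxy, h3, h4⟩ := lp_shift hp (c := c) hx
    rw [(Mo.p_eq x y).2 ⟨k, hxy⟩]
    rcases eq_or_lt_of_le h3 with h | h
    · rw [← h, sub_self]
      simp [cross]
    · rcases lt_trichotomy y e with h5 | h5 | h5
      · exact absurd ⟨h, h5⟩ (hg y hy)
      · rw [h5, cross_self]
      · exact (Mo.p_ccw c e y h1 h5 h4).le

private theorem lp_ltr : ∀ m : Fin 4, ∃ c d : Bool, ltr c d = m := by decide

private theorem lp_ext (θ : Fin r → ℝ) (hd : Dist θ) (t : ℝ)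
    (ht : ∀ (i : Fin r) (k : ℤ), t ≠ θ i + k * Real.pi) {l l' : Option (Fin r)} (hl : l ≠ l')
    (k : ℤ) : ext θ t l ≠ ext θ t l' + k * Real.pi := by
  match l, l', hl with
  | none, none, hl => exact absurd rfl hl
  | none, some i, _ => exact ht i k
  | some i, none, _ =>
    intro h
    apply ht i (-k)
    change θ i = t + k * Real.pi at h
    push_cast
    linarith
  | some i, some j, hl => exact hd i j (fun h => hl (by rw [h])) k

private theorem lp_lt (f g h : Fin r) (hfg : f ≠ g) (hfh : f ≠ h) (hgh : g ≠ h) :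
    Function.Injective (![none, some f, some g, some h] : Fin 4 → Option (Fin r)) := by
  intro i j hij
  fin_cases i <;> fin_cases j <;> simp_all

/-- no point of `M` is strictly between `c` and `e`, and then `e < c + 1` -/
private theorem lp_width (S : Sys) (θ : Fin r → ℝ) (hr : 3 ≤ r) (hd : Dist θ) {M : Set ℝ}
    (hp : ∀ x ∈ M, ∀ k : ℤ, x + k ∈ M) (hF : ∀ i : Fin r, ∀ x ∈ M, S.F (θ i) x ∈ M) {c e : ℝ}
    (hc : c ∈ M) (hg : ∀ x ∈ M, ¬ (c < x ∧ x < e)) : e < c + 1 := by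
  by_contra hcon
  push Not at hcon
  have key : ∀ x ∈ M, ∃ k : ℤ, x = c + k := by
    intro x hx
    obtain ⟨y, k, hy, hxy, h1, h2⟩ := lp_shift hp (c := c) hx
    rcases eq_or_lt_of_le h1 with h | h
    · exact ⟨k, by rw [hxy, h]⟩
    · exact absurd ⟨h, lt_of_lt_of_le h2 hcon⟩ (hg y hy)
  obtain ⟨m, hm⟩ := key _ (hF ⟨0, by omega⟩ c hc)
  obtain ⟨n, hn⟩ := key _ (hF ⟨1, by omega⟩ c hc)
  refine F_ne_of_dist S θ hd (i := ⟨0, by omega⟩) (k := ⟨1, by omega⟩) ?_ c (m - n) ?_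
  · intro h
    simp at h
  · rw [hm, hn]
    push_cast
    ring

private theorem lp_closed (Mo : Model K) {M : Set ℝ} (hM : IsClosed M)
    (hp : ∀ x ∈ M, ∀ k : ℤ, x + k ∈ M) : IsClosed (Mo.p '' M) := by
  have h1 : Mo.p '' M = Mo.p '' (M ∩ Set.Icc 0 1) := by
    ext z
    constructor
    · rintro ⟨x, hx, rfl⟩
      obtain ⟨y, k, hy, hxy, h1, h2⟩ := lp_shift hp (c := 0) hx
      exact ⟨y, ⟨hy, h1, by linarith⟩, (Mo.p_eq y x).2 ⟨-k, by rw [hxy]; push_cast; ring⟩⟩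
    · rintro ⟨x, hx, rfl⟩
      exact ⟨x, hx.1, rfl⟩
  rw [h1]
  exact ((isCompact_Icc.inter_left hM).image Mo.p_cont).isClosed

/-- the loops at both end points of the gap with lower end point `c` and upper end point `e` -/
private theorem lp_main (hB : SBody K) (Mo : Model K) (θ : Fin r → ℝ) (hr : 3 ≤ r) (hd : Dist θ)
    (t : ℝ) (ht : ∀ (i : Fin r) (k : ℤ), t ≠ θ i + k * Real.pi) (M : Set ℝ) (hM : IsClosed M)
    (hMu : M ≠ Set.univ) (hp : ∀ x ∈ M, ∀ k : ℤ, x + k ∈ M)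
    (hF : ∀ l, ∀ x ∈ M, Mo.S.F (ext θ t l) x ∈ M) (c e : ℝ) (hc : c ∈ M) (he : e ∈ M)
    (hce : c < e) (hg : ∀ x ∈ M, ¬ (c < x ∧ x < e)) (hpar : ∀ k : ℤ, Mo.S.F t c ≠ e + k) :
    (∃ i w n, Loop Mo.S θ t c i w n) ∧ ∃ i w n, Loop Mo.S θ t e i w n := by
  have hwd : e < c + 1 := lp_width Mo.S θ hr hd hp (fun i x hx => hF (some i) x hx) hc hg
  set lt0 : Fin 4 → Option (Fin r) :=
    ![none, some ⟨0, by omega⟩, some ⟨1, by omega⟩, some ⟨2, by omega⟩] with hlt0
  have hinj : Function.Injective lt0 := by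
    apply lp_lt
    · intro h; simp at h
    · intro h; simp at h
    · intro h; simp at h
  have h00 : lt0 0 = none := rfl
  set u : Fin 4 → Plane := fun m => dirv (ext θ t (lt0 m)) with hu
  have hpnp : PNP u := by
    intro i j hij h
    obtain ⟨k, hk⟩ := (cross_dirv_eq_zero_iff _ _).1 h
    exact lp_ext θ hd t ht (fun h => hij (hinj h)) k hk
  obtain ⟨σ, hσ⟩ := exists_cyc u hpnp
  obtain ⟨A, hA⟩ := loops_main K hB.cpt hB.str hB.int hB.smo (u ∘ σ) hσ
  have hcl : IsClosed K := hB.cpt.isClosed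
  obtain ⟨-, hA2⟩ := hA (Mo.p '' M) (by
      rintro z ⟨x, -, rfl⟩
      exact Mo.p_mem x) ⟨_, c, hc, rfl⟩ (by
      rintro i z ⟨y, hy, rfl⟩ τ hz
      have h1 : cross ((u ∘ σ) i) (Mo.p y + τ • (u ∘ σ) i) = cross ((u ∘ σ) i) (Mo.p y) := by
        rw [cross_add_right, cross_smul_right, cross_self, mul_zero, add_zero]
      rcases eq_of_cross_eq hcl hB.str (dirv_ne _) (Mo.p_mem y) hz h1 with h2 | h2
      · rw [h2]
        exact ⟨y, hy, rfl⟩
      · rw [h2]
        change chord K (dirv (ext θ t (lt0 (σ i)))) (Mo.p y) ∈ Mo.p '' M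
        rw [Mo.p_chord]
        exact ⟨_, hF _ y hy, rfl⟩) (by
      rw [(lp_closed Mo hM hp).closure_eq]
      intro h
      apply hMu
      rw [Set.eq_univ_iff_forall]
      intro x
      have h1 : Mo.p x ∈ Mo.p '' M := by
        rw [h]
        exact Mo.p_mem x
      obtain ⟨y, hy, hyx⟩ := h1
      obtain ⟨k, hk⟩ := (Mo.p_eq x y).1 hyx.symm
      rw [hk]
      exact hp y hy k)
  obtain ⟨c', d', hcd⟩ := lp_ltr (σ.symm 0)
  have hu0 : (u ∘ σ) (ltr c' d') = dirv t := by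
    rw [Function.comp, hcd, Equiv.apply_symm_apply]
    rfl
  have hgap := isGap_of_gap Mo hp hc he hce hwd hg
  have hne : Mo.p e ≠ Mo.p c := by
    intro h
    obtain ⟨k, hk⟩ := (Mo.p_eq e c).1 h
    have h1 : (0 : ℝ) < k := by linarith
    have h2 : (k : ℝ) < 1 := by linarith
    have h3 : (0 : ℤ) < k := by exact_mod_cast h1
    have h4 : k < (1 : ℤ) := by exact_mod_cast h2
    omega
  have hcr : cross ((u ∘ σ) (ltr c' d')) (Mo.p e - Mo.p c) ≠ 0 := by
    rw [hu0, cross_sub_right]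
    intro h
    rcases eq_of_cross_eq hcl hB.str (dirv_ne t) (Mo.p_mem c) (Mo.p_mem e) (sub_eq_zero.1 h)
      with h2 | h2
    · exact hne h2
    · rw [Mo.p_chord] at h2
      obtain ⟨k, hk⟩ := (Mo.p_eq e _).1 h2
      apply hpar (-k)
      push_cast
      linarith
  obtain ⟨L, hL, -, ha, hb⟩ := hA2 _ _ hgap c' d' hcr
  have h0 : (lt0 ∘ σ) (ltr c' d') = none := by
    rw [Function.comp, hcd, Equiv.apply_symm_apply]
    exact h00
  have hlt : ∀ m, (lt0 ∘ σ) m = none → m = ltr c' d' := by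
    intro m hm
    have h1 : σ m = 0 := hinj (by rw [h00]; exact hm)
    rw [hcd, ← h1, Equiv.symm_apply_apply]
  exact ⟨loop_of_walk Mo θ t (lt0 ∘ σ) (u ∘ σ) (fun m => rfl) c' d' h0 hlt L hL c ha,
    loop_of_walk Mo θ t (lt0 ∘ σ) (u ∘ σ) (fun m => rfl) c' d' h0 hlt L hL e hb⟩

theorem hasLoops (hB : SBody K) (Mo : Model K) (θ : Fin r → ℝ) (hr : 3 ≤ r) (hd : Dist θ) :
    HasLoops Mo.S θ := by
  intro t ht M hM hMu h1 h2 hF c e hc he hce hg hpar
  have hp := lp_add h1 h2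
  rcases lt_or_gt_of_ne hce with h | h
  · rw [min_eq_left h.le, max_eq_right h.le] at hg
    exact (lp_main hB Mo θ hr hd t ht M hM hMu hp hF c e hc he h hg hpar).1
  · rw [min_eq_right h.le, max_eq_left h.le] at hg
    refine (lp_main hB Mo θ hr hd t ht M hM hMu hp hF e c he hc h hg ?_).2
    intro k hk
    apply hpar k
    have h3 := Mo.S.inv t e
    rw [hk, F_add_int] at h3
    linarith

end AD
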