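import Pool.Agent.Helper45.AD.Dir
import Pool.Agent.Helper45.AD.NullA
import Pool.Agent.Helper3.Chord.UM12

set_option autoImplicit false

/-!
# AD-H10: the directions of affinely regular polygons form a null set

PROOF of `ae_not_polygon`.  Let `e i = dir n (m i)` and suppose `Dist t` and
`dirv (t i) = c i • A (e i)`, `c i ≠ 0`.  For the linear map `A` there is `D` with
`cross (A x) (A y) = D * cross x y` for all `x y` (expand in the standard basis).  Hence
`cross (dirv (t a)) (dirv (t b)) = c a * c b * D * cross (e a) (e b)` and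
`cross (d 0) (d 1) * cross (d 2) (d 3) * (cross (e 0) (e 2) * cross (e 1) (e 3)) =
 cross (d 0) (d 2) * cross (d 1) (d 3) * (cross (e 0) (e 1) * cross (e 2) (e 3))`, i.e. with
`κ' = cross (e 0) (e 2) * cross (e 1) (e 3)` and `κ = cross (e 0) (e 1) * cross (e 2) (e 3)`:
`κ' * (sin (t 1 - t 0) * sin (t 3 - t 2)) = κ * (sin (t 2 - t 0) * sin (t 3 - t 1))` (`cross_dirv`),
and `κ' ≠ 0` because of `Dist t` (`cross (d 0) (d 2)`, `cross (d 1) (d 3)` are not zero,
`cross_dirv_eq_zero_iff`).  There are countably many `(n, m)`, so it is enough that for fixed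
`κ' ≠ 0`, `κ` the set of all `t` with this equation and `sin (t 1 - t 0) ≠ 0`,
`sin (t 1 - t 2) ≠ 0` (measurable) is null (lemma `eq_null`): `null_of_slices` with
`j = Fin.last 3`: for fixed `t 0, t 1, t 2` (`= s 0, s 1, s 2`) the equation for `x = t 3` is
`a * sin x + b * cos x = 0` (addition formulas), and at `x = t 1` the difference
of the two sides is `κ' * sin (t 1 - t 0) * sin (t 1 - t 2) ≠ 0`, so `(a, b) ≠ 0`; if `x, y` are two
solutions then `sin (x - y) = 0` (`(sin x, cos x)`, `(sin y, cos y)` are both orthogonal to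
`(a, b)`), so the solutions are contained in `{y + k π}` (`Real.sin_eq_zero_iff`), countable,
null. -/

namespace AD

open ChordMaps MeasureTheory

private theorem slice_null (κ κ' a b c : ℝ) (h : κ' ≠ 0) (h1 : Real.sin (b - a) ≠ 0)
    (h2 : Real.sin (b - c) ≠ 0) : volume {x : ℝ |
      κ' * (Real.sin (b - a) * Real.sin (x - c)) = κ * (Real.sin (c - a) * Real.sin (x - b))} =
      0 := by
  set P : ℝ := κ' * Real.sin (b - a) * Real.cos c - κ * Real.sin (c - a) * Real.cos b with hP
  set Q : ℝ := -(κ' * Real.sin (b - a) * Real.sin c) + κ * Real.sin (c - a) * Real.sin b with hQ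
  have hf : ∀ x : ℝ, κ' * (Real.sin (b - a) * Real.sin (x - c)) -
      κ * (Real.sin (c - a) * Real.sin (x - b)) = P * Real.sin x + Q * Real.cos x := by
    intro x
    rw [hP, hQ, Real.sin_sub x c, Real.sin_sub x b]
    ring
  have hPQ : ¬ (P = 0 ∧ Q = 0) := by
    rintro ⟨hp, hq⟩
    have h3 := hf b
    rw [hp, hq, sub_self, Real.sin_zero] at h3
    have h4 : κ' * (Real.sin (b - a) * Real.sin (b - c)) = 0 := by linarith
    exact mul_ne_zero h (mul_ne_zero h1 h2) h4
  have hxy : ∀ x y : ℝ, P * Real.sin x + Q * Real.cos x = 0 →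
      P * Real.sin y + Q * Real.cos y = 0 → Real.sin (x - y) = 0 := by
    intro x y hx hy
    rw [Real.sin_sub]
    have e1 : P * (Real.sin x * Real.cos y - Real.cos x * Real.sin y) = 0 := by
      linear_combination (Real.cos y) * hx - (Real.cos x) * hy
    have e2 : Q * (Real.sin x * Real.cos y - Real.cos x * Real.sin y) = 0 := by
      linear_combination (Real.sin x) * hy - (Real.sin y) * hx
    rcases mul_eq_zero.1 e1 with h3 | h3
    · rcases mul_eq_zero.1 e2 with h4 | h4
      · exact absurd ⟨h3, h4⟩ hPQ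
      · exact h4
    · exact h3
  by_cases hne : ∃ y : ℝ, κ' * (Real.sin (b - a) * Real.sin (y - c)) =
      κ * (Real.sin (c - a) * Real.sin (y - b))
  · obtain ⟨y, hy⟩ := hne
    have hy' : P * Real.sin y + Q * Real.cos y = 0 := by rw [← hf, hy, sub_self]
    refine measure_mono_null (t := Set.range fun k : ℤ => y + k * Real.pi) ?_
      ((Set.countable_range _).measure_zero _)
    intro x hx
    have hx0 : κ' * (Real.sin (b - a) * Real.sin (x - c)) =
      κ * (Real.sin (c - a) * Real.sin (x - b)) := hx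
    have hx' : P * Real.sin x + Q * Real.cos x = 0 := by rw [← hf, hx0, sub_self]
    obtain ⟨k, hk⟩ := Real.sin_eq_zero_iff.1 (hxy x y hx' hy')
    exact ⟨k, by linarith⟩
  · have : {x : ℝ | κ' * (Real.sin (b - a) * Real.sin (x - c)) =
      κ * (Real.sin (c - a) * Real.sin (x - b))} = ∅ := by
      rw [Set.eq_empty_iff_forall_notMem]
      intro x hx
      exact hne ⟨x, hx⟩
    rw [this, measure_empty]

theorem eq_null {κ κ' : ℝ} (h : κ' ≠ 0) : volume {t : Fin 4 → ℝ |
    κ' * (Real.sin (t 1 - t 0) * Real.sin (t 3 - t 2)) =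
      κ * (Real.sin (t 2 - t 0) * Real.sin (t 3 - t 1)) ∧
    Real.sin (t 1 - t 0) ≠ 0 ∧ Real.sin (t 1 - t 2) ≠ 0} = 0 := by
  refine null_of_slices (Fin.last 3) ?_ (Filter.Eventually.of_forall fun s => ?_)
  · refine MeasurableSet.inter ?_ (MeasurableSet.inter ?_ ?_)
    · exact (isClosed_eq (by fun_prop) (by fun_prop)).measurableSet
    · exact ((isClosed_eq (by fun_prop) (by fun_prop) : IsClosed {t : Fin 4 → ℝ |
        Real.sin (t 1 - t 0) = 0}).measurableSet).compl
    · exact ((isClosed_eq (by fun_prop) (by fun_prop) : IsClosed {t : Fin 4 → ℝ |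
        Real.sin (t 1 - t 2) = 0}).measurableSet).compl
  · have e3 : ∀ x : ℝ, ((Fin.last 3).insertNth x s : Fin 4 → ℝ) 3 = x := fun x =>
      Fin.insertNth_apply_same (α := fun _ => ℝ) (Fin.last 3) x s
    have e0 : ∀ x : ℝ, ((Fin.last 3).insertNth x s : Fin 4 → ℝ) 0 = s 0 := fun x =>
      Fin.insertNth_apply_succAbove (α := fun _ => ℝ) (Fin.last 3) x s 0
    have e1 : ∀ x : ℝ, ((Fin.last 3).insertNth x s : Fin 4 → ℝ) 1 = s 1 := fun x =>
      Fin.insertNth_apply_succAbove (α := fun _ => ℝ) (Fin.last 3) x s 1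
    have e2 : ∀ x : ℝ, ((Fin.last 3).insertNth x s : Fin 4 → ℝ) 2 = s 2 := fun x =>
      Fin.insertNth_apply_succAbove (α := fun _ => ℝ) (Fin.last 3) x s 2
    by_cases hs : Real.sin (s 1 - s 0) ≠ 0 ∧ Real.sin (s 1 - s 2) ≠ 0
    · refine measure_mono_null ?_ (slice_null κ κ' (s 0) (s 1) (s 2) h hs.1 hs.2)
      intro x hx
      have hx1 := hx.1
      rw [e0, e1, e2, e3] at hx1
      exact hx1
    · refine measure_mono_null (t := ∅) ?_ measure_empty
      intro x hx
      have hx2 := hx.2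
      rw [e0, e1, e2] at hx2
      exact absurd hx2 hs

private theorem cross_map (A : Plane ≃L[ℝ] Plane) (x y : Plane) :
    cross (A x) (A y) = cross (A !₂[1, 0]) (A !₂[0, 1]) * cross x y := by
  have hx : ∀ z : Plane, A z = z 0 • A !₂[1, 0] + z 1 • A !₂[0, 1] := by
    intro z
    rw [← map_smul, ← map_smul, ← map_add]
    congr 1
    ext i
    fin_cases i <;> simp
  rw [hx x, hx y]
  simp only [cross_add_left, cross_add_right, cross_smul_left, cross_smul_right, cross_self]
  rw [cross_comm (A !₂[0, 1]) (A !₂[1, 0])]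
  simp only [cross]
  ring

theorem ae_not_polygon : ∀ᵐ t : Fin 4 → ℝ, Dist t → ¬ ∃ (n : ℕ) (A : Plane ≃L[ℝ] Plane),
    ∀ i, ∃ (m : ℤ) (c : ℝ), c ≠ 0 ∧ dirv (t i) = c • A (dir n m) := by
  have key : ∀ᵐ t : Fin 4 → ℝ, ∀ (n : ℕ) (m : Fin 4 → ℤ),
      cross (dir n (m 0)) (dir n (m 2)) * cross (dir n (m 1)) (dir n (m 3)) ≠ 0 →
      ¬ ((cross (dir n (m 0)) (dir n (m 2)) * cross (dir n (m 1)) (dir n (m 3))) *
          (Real.sin (t 1 - t 0) * Real.sin (t 3 - t 2)) =
        (cross (dir n (m 0)) (dir n (m 1)) * cross (dir n (m 2)) (dir n (m 3))) *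
          (Real.sin (t 2 - t 0) * Real.sin (t 3 - t 1)) ∧
        Real.sin (t 1 - t 0) ≠ 0 ∧ Real.sin (t 1 - t 2) ≠ 0) := by
    rw [ae_all_iff]
    intro n
    rw [ae_all_iff]
    intro m
    by_cases h : cross (dir n (m 0)) (dir n (m 2)) * cross (dir n (m 1)) (dir n (m 3)) = 0
    · exact Filter.Eventually.of_forall fun t h' => absurd h h'
    · have h1 := eq_null (κ := cross (dir n (m 0)) (dir n (m 1)) *
        cross (dir n (m 2)) (dir n (m 3))) h
      have h2 := (measure_eq_zero_iff_ae_notMem).1 h1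
      filter_upwards [h2] with t ht _
      exact ht
  filter_upwards [key] with t ht hd
  rintro ⟨n, A, hA⟩
  choose m c hc hdir using hA
  obtain ⟨D, hD⟩ : ∃ D : ℝ, ∀ x y, cross (A x) (A y) = D * cross x y := ⟨_, cross_map A⟩
  have hcr : ∀ a b, Real.sin (t b - t a) =
      c a * c b * D * cross (dir n (m a)) (dir n (m b)) := by
    intro a b
    rw [← cross_dirv, hdir a, hdir b, cross_smul_left, cross_smul_right, hD]
    ring
  have hne : ∀ a b, a ≠ b → Real.sin (t b - t a) ≠ 0 := by
    intro a b hab h0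
    rw [← cross_dirv, cross_dirv_eq_zero_iff] at h0
    obtain ⟨k, hk⟩ := h0
    exact hd a b hab k hk
  refine ht n m ?_ ⟨?_, hne 0 1 (by decide), ?_⟩
  · have h1 := hne 0 2 (by decide)
    have h2 := hne 1 3 (by decide)
    rw [hcr] at h1 h2
    exact mul_ne_zero (right_ne_zero_of_mul h1) (right_ne_zero_of_mul h2)
  · rw [hcr 0 1, hcr 2 3, hcr 0 2, hcr 1 3]
    ring
  · exact hne 2 1 (by decide)

end AD
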