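import Pool.Agent.Helper45.AD.Det4
import Pool.Agent.Helper45.AD.Fub
import Pool.Agent.Helper45.AD.NullP
import Pool.Agent.Helper45.AD.DenseCrit
import Pool.Agent.Helper45.AD.Loops

set_option autoImplicit false

/-! # AD-A: almost all sets of at least four directions, every body -/

namespace AD

open ChordMaps MeasureTheory

variable {K : Set Plane}

/-- the invariance of the problem gives invariance under the chord maps -/
theorem chord_inv {V : Set Plane} (hV : V ⊆ frontier K) {v : Plane}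
    (h : ∀ x ∈ V, ∀ τ : ℝ, x + τ • v ∈ frontier K → x + τ • v ∈ V) :
    ∀ x ∈ V, chord K v x ∈ V := by
  intro x hx
  obtain ⟨t, ht⟩ := chord_line K v x
  have h1 : chord K v x ∈ frontier K := chord_mem (hV hx)
  rw [ht] at h1 ⊢
  exact h x hx t h1

theorem null_N4 (hB : SBody K) (Mo : Model K) (β : ℚ) (n : ℕ) :
    volume {t : Fin 4 → ℝ | (N Mo.S t β (1 / ((n : ℝ) + 1))).Nonempty} = 0 := by
  have h1 : ∀ᵐ t : Fin 4 → ℝ, ∀ (j : Fin 4) (β : ℚ) (n : ℕ), Dist t →
      (N Mo.S t β (1 / ((n : ℝ) + 1))).Nonempty →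
      (Set.range fun g : List (Fin 3) => Int.fract (W Mo.S (fun i => t (j.succAbove i)) g
        (aPt Mo.S t β (1 / ((n : ℝ) + 1))))).Finite := by
    rw [ae_all_iff]
    intro j
    rw [ae_all_iff]
    intro β
    rw [ae_all_iff]
    intro n
    exact ae_fin Mo.S (fun s hs => hasLoops hB Mo s (le_refl 3) hs) j β _ (by positivity)
  have h2 : ∀ᵐ t : Fin 4 → ℝ, ¬ (N Mo.S t β (1 / ((n : ℝ) + 1))).Nonempty := by
    filter_upwards [h1, ae_dist 4, ae_not_polygon] with t h1 h2 h3 hN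
    exact h3 h2 (polygon_of_fin hB Mo t h2 (fun j β n => h1 j β n h2) β _ (by positivity) hN)
  rw [ae_iff] at h2
  simpa using h2

theorem mainA (hB : SBody K) (m : ℕ) :
    ∃ F : ℕ → Set (Fin (4 + m) → ℝ), (∀ k, IsClosed (F k) ∧ volume (F k) = 0) ∧
      ∀ t, (∀ k, t ∉ F k) → ∀ V ⊆ frontier K, V.Nonempty →
        (∀ i, ∀ x ∈ V, ∀ τ : ℝ, x + τ • dirv (t i) ∈ frontier K → x + τ • dirv (t i) ∈ V) →
        closure V = frontier K := by
  obtain ⟨Mo⟩ := exists_model hB
  obtain ⟨e, he⟩ := exists_surjective_nat (ℚ × ℕ)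
  have hcl : ∀ (β : ℚ) (n : ℕ),
      IsClosed {t : Fin 4 → ℝ | (N Mo.S t β (1 / ((n : ℝ) + 1))).Nonempty} := fun β n =>
    N_proj_closed Mo.S β _ (fun t : Fin 4 → ℝ => t) (fun l => continuous_apply l)
  have hpr : Continuous fun t : Fin (4 + m) → ℝ => fun i : Fin 4 => t (Fin.castAdd m i) :=
    continuous_pi fun i => continuous_apply _
  refine ⟨fun k => {t | (fun i => t (Fin.castAdd m i)) ∈
    {t : Fin 4 → ℝ | (N Mo.S t (e k).1 (1 / (((e k).2 : ℝ) + 1))).Nonempty}}, fun k => ⟨?_, ?_⟩,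
    fun t ht V hV hne hinv => ?_⟩
  · exact (hcl _ _).preimage hpr
  · exact null_proj m (hcl _ _).measurableSet (null_N4 hB Mo _ _)
  · refine Set.Subset.antisymm (closure_minimal hV isClosed_frontier) ?_
    by_contra hnd
    obtain ⟨β, n, hN⟩ := exists_N_of_not_dense Mo (fun i : Fin 4 => t (Fin.castAdd m i)) V hV hne
      (fun i => chord_inv hV (hinv _)) hnd
    obtain ⟨k, hk⟩ := he (β, n)
    refine ht k ?_
    rw [Set.mem_ofPred_eq, Set.mem_ofPred_eq, hk]
    exact hN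

end AD
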