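import Pool.Agent.Helper45.AD.NullP

set_option autoImplicit false

/-!
# AE-06: two given angles and two generic ones are not polygon directions

Same proof as `ae_not_polygon` in `NullP.lean`, with `t = ![a, b, p.1, p.2]`.  (The private lemmas
`slice_null` and `cross_map` of `NullP.lean` may be copied here as private lemmas.)

For `n`, `m : Fin 4 → ℤ` with `κ' ≠ 0` the set of `p` with
`κ' * (sin (b - a) * sin (p.2 - p.1)) = κ * (sin (p.1 - a) * sin (p.2 - b))`,
`sin (b - a) ≠ 0`, `sin (b - p.1) ≠ 0` is measurable and null by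
`MeasureTheory.Measure.measure_prod_null`: for every `s = p.1` the slice in `p.2` is null
(`slice_null κ κ' a b s`).  `volume` on `ℝ × ℝ` is `volume.prod volume` (`Measure.volume_eq_prod`).
Also `ae_dist2`: for almost every `p`, `Dist ![a, b, p.1, p.2]`: countably many conditions
`a ≠ b + k π` (given), `p.1 ≠ a + k π`, ..., `p.1 ≠ p.2 + k π`, each of which fails on a null set
(slices again). -/

namespace AD

open ChordMaps MeasureTheory

private theorem slice_null (κ κ' a b c : ℝ) (h : κ' ≠ 0) (h1 : Real.sin (b - a) ≠ 0)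
    (h2 : Real.sin (b - c) ≠ 0) : volume {x : ℝ |
      κ' * (Real.sin (b - a) * Real.sin (x - c)) = κ * (Real.sin (c - a) * Real.sin (x - b))} =
      0 := by
  set P : ℝ := κ' * Real.sin (b - a) * Real.cos c - κ * Real.sin (c - a) * Real.cos b with hP
  set Q : ℝ := -(κ' * Real.sin (b - a) * Real.sin c) + κ * Real.sin (c - a) * Real.sin b with hQ
  have hf : ∀ x : ℝ, κ' * (Real.sin (b - a) * Real.sin (x - c)) -
      κ * (Real.sin (c - a) * Real.sin (x - b)) = P * Real.sin x + Q * Real.cos x := by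
    intro x
    rw [hP, hQ, Real.sin_sub x c, Real.sin_sub x b]
    ring
  have hPQ : ¬ (P = 0 ∧ Q = 0) := by
    rintro ⟨hp, hq⟩
    have h3 := hf b
    rw [hp, hq, sub_self, Real.sin_zero] at h3
    have h4 : κ' * (Real.sin (b - a) * Real.sin (b - c)) = 0 := by linarith
    exact mul_ne_zero h (mul_ne_zero h1 h2) h4
  have hxy : ∀ x y : ℝ, P * Real.sin x + Q * Real.cos x = 0 →
      P * Real.sin y + Q * Real.cos y = 0 → Real.sin (x - y) = 0 := by
    intro x y hx hy
    rw [Real.sin_sub]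
    have e1 : P * (Real.sin x * Real.cos y - Real.cos x * Real.sin y) = 0 := by
      linear_combination (Real.cos y) * hx - (Real.cos x) * hy
    have e2 : Q * (Real.sin x * Real.cos y - Real.cos x * Real.sin y) = 0 := by
      linear_combination (Real.sin x) * hy - (Real.sin y) * hx
    rcases mul_eq_zero.1 e1 with h3 | h3
    · rcases mul_eq_zero.1 e2 with h4 | h4
      · exact absurd ⟨h3, h4⟩ hPQ
      · exact h4
    · exact h3
  by_cases hne : ∃ y : ℝ, κ' * (Real.sin (b - a) * Real.sin (y - c)) =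
      κ * (Real.sin (c - a) * Real.sin (y - b))
  · obtain ⟨y, hy⟩ := hne
    have hy' : P * Real.sin y + Q * Real.cos y = 0 := by rw [← hf, hy, sub_self]
    refine measure_mono_null (t := Set.range fun k : ℤ => y + k * Real.pi) ?_
      ((Set.countable_range _).measure_zero _)
    intro x hx
    have hx0 : κ' * (Real.sin (b - a) * Real.sin (x - c)) =
      κ * (Real.sin (c - a) * Real.sin (x - b)) := hx
    have hx' : P * Real.sin x + Q * Real.cos x = 0 := by rw [← hf, hx0, sub_self]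
    obtain ⟨k, hk⟩ := Real.sin_eq_zero_iff.1 (hxy x y hx' hy')
    exact ⟨k, by linarith⟩
  · have : {x : ℝ | κ' * (Real.sin (b - a) * Real.sin (x - c)) =
      κ * (Real.sin (c - a) * Real.sin (x - b))} = ∅ := by
      rw [Set.eq_empty_iff_forall_notMem]
      intro x hx
      exact hne ⟨x, hx⟩
    rw [this, measure_empty]

private theorem cross_map (A : Plane ≃L[ℝ] Plane) (x y : Plane) :
    cross (A x) (A y) = cross (A !₂[1, 0]) (A !₂[0, 1]) * cross x y := by
  have hx : ∀ z : Plane, A z = z 0 • A !₂[1, 0] + z 1 • A !₂[0, 1] := by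
    intro z
    rw [← map_smul, ← map_smul, ← map_add]
    congr 1
    ext i
    fin_cases i <;> simp
  rw [hx x, hx y]
  simp only [cross_add_left, cross_add_right, cross_smul_left, cross_smul_right, cross_self]
  rw [cross_comm (A !₂[0, 1]) (A !₂[1, 0])]
  simp only [cross]
  ring

private theorem prod_null {s : Set (ℝ × ℝ)} (hs : MeasurableSet s)
    (h : ∀ x, volume {y : ℝ | (x, y) ∈ s} = 0) : volume s = 0 := by
  rw [Measure.volume_eq_prod]
  rw [Measure.measure_prod_null hs]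
  exact Filter.Eventually.of_forall fun x => h x

private theorem eq_null2 (a b : ℝ) {κ κ' : ℝ} (h : κ' ≠ 0) : volume {p : ℝ × ℝ |
    κ' * (Real.sin (b - a) * Real.sin (p.2 - p.1)) =
      κ * (Real.sin (p.1 - a) * Real.sin (p.2 - b)) ∧
    Real.sin (b - a) ≠ 0 ∧ Real.sin (b - p.1) ≠ 0} = 0 := by
  refine prod_null ?_ fun s => ?_
  · refine MeasurableSet.inter ?_ (MeasurableSet.inter ?_ ?_)
    · exact (isClosed_eq (by fun_prop) (by fun_prop)).measurableSet
    · exact MeasurableSet.const _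
    · exact ((isClosed_eq (by fun_prop) (by fun_prop) : IsClosed {p : ℝ × ℝ |
        Real.sin (b - p.1) = 0}).measurableSet).compl
  · by_cases hs : Real.sin (b - a) ≠ 0 ∧ Real.sin (b - s) ≠ 0
    · refine measure_mono_null ?_ (slice_null κ κ' a b s h hs.1 hs.2)
      intro x hx
      exact hx.1
    · refine measure_mono_null (t := ∅) ?_ measure_empty
      intro x hx
      exact absurd hx.2 hs

private theorem line_null (f : ℝ × ℝ → ℝ) (hf : Continuous f)
    (h : ∀ x, (({y : ℝ | f (x, y) = 0} : Set ℝ)).Countable) :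
    ∀ᵐ p : ℝ × ℝ, f p ≠ 0 := by
  have h1 : volume {p : ℝ × ℝ | f p = 0} = 0 := by
    refine prod_null (isClosed_eq hf continuous_const).measurableSet fun x => ?_
    exact (h x).measure_zero _
  exact measure_eq_zero_iff_ae_notMem.1 h1

private theorem fst_null (c : ℝ) : ∀ᵐ p : ℝ × ℝ, p.1 ≠ c := by
  have h1 : volume {p : ℝ × ℝ | p.1 = c} = 0 := by
    have e : {p : ℝ × ℝ | p.1 = c} = ({c} : Set ℝ) ×ˢ (Set.univ : Set ℝ) := by
      ext p
      simp
    rw [e, Measure.volume_eq_prod, Measure.prod_prod]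
    simp
  exact measure_eq_zero_iff_ae_notMem.1 h1

private theorem snd_null (c : ℝ) : ∀ᵐ p : ℝ × ℝ, p.2 ≠ c := by
  have h1 : volume {p : ℝ × ℝ | p.2 = c} = 0 := by
    have e : {p : ℝ × ℝ | p.2 = c} = (Set.univ : Set ℝ) ×ˢ ({c} : Set ℝ) := by
      ext p
      simp
    rw [e, Measure.volume_eq_prod, Measure.prod_prod]
    simp
  exact measure_eq_zero_iff_ae_notMem.1 h1

private theorem diag_null (c : ℝ) : ∀ᵐ p : ℝ × ℝ, p.2 ≠ p.1 + c := by
  have h := line_null (fun p => p.2 - (p.1 + c)) (by fun_prop) (fun x => by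
    refine (Set.countable_singleton (x + c)).mono ?_
    intro y hy
    have : y - (x + c) = 0 := hy
    rw [Set.mem_singleton_iff]
    linarith)
  filter_upwards [h] with p hp h0
  exact hp (by rw [h0]; ring)

theorem ae_dist2 (a b : ℝ) (hab : ∀ k : ℤ, a ≠ b + k * Real.pi) :
    ∀ᵐ p : ℝ × ℝ, Dist ![a, b, p.1, p.2] := by
  have h1 : ∀ᵐ p : ℝ × ℝ, ∀ k : ℤ, p.1 ≠ a + k * Real.pi := ae_all_iff.2 fun k => fst_null _
  have h2 : ∀ᵐ p : ℝ × ℝ, ∀ k : ℤ, p.1 ≠ b + k * Real.pi := ae_all_iff.2 fun k => fst_null _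
  have h3 : ∀ᵐ p : ℝ × ℝ, ∀ k : ℤ, p.2 ≠ a + k * Real.pi := ae_all_iff.2 fun k => snd_null _
  have h4 : ∀ᵐ p : ℝ × ℝ, ∀ k : ℤ, p.2 ≠ b + k * Real.pi := ae_all_iff.2 fun k => snd_null _
  have h5 : ∀ᵐ p : ℝ × ℝ, ∀ k : ℤ, p.2 ≠ p.1 + k * Real.pi := ae_all_iff.2 fun k => diag_null _
  filter_upwards [h1, h2, h3, h4, h5] with p h1 h2 h3 h4 h5
  have flip : ∀ x y : ℝ, (∀ k : ℤ, x ≠ y + k * Real.pi) → ∀ k : ℤ, y ≠ x + k * Real.pi := by
    intro x y h k hk
    refine h (-k) ?_
    rw [hk]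
    push_cast
    ring
  intro i k hik
  fin_cases i <;> fin_cases k
  · exact absurd rfl hik
  · exact hab
  · exact flip _ _ h1
  · exact flip _ _ h3
  · exact flip _ _ hab
  · exact absurd rfl hik
  · exact flip _ _ h2
  · exact flip _ _ h4
  · exact h1
  · exact h2
  · exact absurd rfl hik
  · exact flip _ _ h5
  · exact h3
  · exact h4
  · exact h5
  · exact absurd rfl hik

theorem ae_not_polygon2 (a b : ℝ) : ∀ᵐ p : ℝ × ℝ, Dist ![a, b, p.1, p.2] →
    ¬ ∃ (n : ℕ) (A : Plane ≃L[ℝ] Plane), ∀ i, ∃ (m : ℤ) (c : ℝ), c ≠ 0 ∧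
      dirv (![a, b, p.1, p.2] i) = c • A (dir n m) := by
  have key : ∀ᵐ p : ℝ × ℝ, ∀ (n : ℕ) (m : Fin 4 → ℤ),
      cross (dir n (m 0)) (dir n (m 2)) * cross (dir n (m 1)) (dir n (m 3)) ≠ 0 →
      ¬ ((cross (dir n (m 0)) (dir n (m 2)) * cross (dir n (m 1)) (dir n (m 3))) *
          (Real.sin (b - a) * Real.sin (p.2 - p.1)) =
        (cross (dir n (m 0)) (dir n (m 1)) * cross (dir n (m 2)) (dir n (m 3))) *
          (Real.sin (p.1 - a) * Real.sin (p.2 - b)) ∧
        Real.sin (b - a) ≠ 0 ∧ Real.sin (b - p.1) ≠ 0) := by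
    rw [ae_all_iff]
    intro n
    rw [ae_all_iff]
    intro m
    by_cases h : cross (dir n (m 0)) (dir n (m 2)) * cross (dir n (m 1)) (dir n (m 3)) = 0
    · exact Filter.Eventually.of_forall fun t h' => absurd h h'
    · have h1 := eq_null2 a b (κ := cross (dir n (m 0)) (dir n (m 1)) *
        cross (dir n (m 2)) (dir n (m 3))) h
      have h2 := (measure_eq_zero_iff_ae_notMem).1 h1
      filter_upwards [h2] with t ht _
      exact ht
  filter_upwards [key] with p ht hd
  rintro ⟨n, A, hA⟩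
  choose m c hc hdir using hA
  obtain ⟨D, hD⟩ : ∃ D : ℝ, ∀ x y, cross (A x) (A y) = D * cross x y := ⟨_, cross_map A⟩
  have hcr : ∀ i j, Real.sin ((![a, b, p.1, p.2] : Fin 4 → ℝ) j - (![a, b, p.1, p.2] : Fin 4 → ℝ) i) =
      c i * c j * D * cross (dir n (m i)) (dir n (m j)) := by
    intro i j
    rw [← cross_dirv, hdir i, hdir j, cross_smul_left, cross_smul_right, hD]
    ring
  have hne : ∀ i j, i ≠ j →
      Real.sin ((![a, b, p.1, p.2] : Fin 4 → ℝ) j - (![a, b, p.1, p.2] : Fin 4 → ℝ) i) ≠ 0 := by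
    intro i j hab h0
    rw [← cross_dirv, cross_dirv_eq_zero_iff] at h0
    obtain ⟨k, hk⟩ := h0
    exact hd i j hab k hk
  have e01 : Real.sin (b - a) = c 0 * c 1 * D * cross (dir n (m 0)) (dir n (m 1)) := hcr 0 1
  have e23 : Real.sin (p.2 - p.1) = c 2 * c 3 * D * cross (dir n (m 2)) (dir n (m 3)) := hcr 2 3
  have e02 : Real.sin (p.1 - a) = c 0 * c 2 * D * cross (dir n (m 0)) (dir n (m 2)) := hcr 0 2
  have e13 : Real.sin (p.2 - b) = c 1 * c 3 * D * cross (dir n (m 1)) (dir n (m 3)) := hcr 1 3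
  refine ht n m ?_ ⟨?_, hne 0 1 (by decide), ?_⟩
  · have h1 := hne 0 2 (by decide)
    have h2 := hne 1 3 (by decide)
    rw [hcr] at h1 h2
    exact mul_ne_zero (right_ne_zero_of_mul h1) (right_ne_zero_of_mul h2)
  · rw [e01, e23, e02, e13]
    ring
  · exact hne 2 1 (by decide)

end AD
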