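import Pool.Agent.Helper45.AD.FinInv
import Pool.Agent.Helper3.Chord.UM12

set_option autoImplicit false

/-!
# AE-05: a finite invariant set gives polygon directions

PROOF.  `V = Mo.p '' D` is finite (`p_fract`: `p x = p (fract x)`), nonempty, contained in `frontier K`
(`p_mem`), invariant under `chord K (dirv (t i))` (`p_chord`).  `gardner_mcmullen` with
`w m = dirv (t m)`, `m = 0, 1, 2` (`PNP` from `Dist t`, `cross_dirv_eq_zero_iff`), conclusion for
`u = dirv (t i)`, `dirv_ne`. -/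

namespace AD

open ChordMaps

variable {K : Set Plane}

theorem polygon_of_finInv (hB : SBody K) (Mo : Model K) (t : Fin 4 → ℝ) (hd : Dist t)
    (D : Set ℝ) (hne : D.Nonempty) (hf : (Int.fract '' D).Finite)
    (hinv : ∀ l, ∀ x ∈ D, Mo.S.F (t l) x ∈ D) :
    ∃ (n : ℕ) (A : Plane ≃L[ℝ] Plane), ∀ i, ∃ (m : ℤ) (c : ℝ), c ≠ 0 ∧
      dirv (t i) = c • A (dir n m) := by
  have hVf : (Mo.p '' D).Finite := by
    refine (hf.image Mo.p).subset ?_
    rintro _ ⟨x, hx, rfl⟩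
    exact ⟨Int.fract x, ⟨x, hx, rfl⟩, p_fract Mo x⟩
  have hVK : Mo.p '' D ⊆ frontier K := by
    rintro _ ⟨x, _, rfl⟩
    exact Mo.p_mem x
  have hVi : ∀ i, ∀ y ∈ Mo.p '' D, chord K (dirv (t i)) y ∈ Mo.p '' D := by
    rintro i _ ⟨x, hx, rfl⟩
    exact ⟨Mo.S.F (t i) x, hinv i x hx, (Mo.p_chord (t i) x).symm⟩
  have hpnp : PNP (fun m : Fin 3 => dirv (t (Fin.castSucc m))) := by
    intro a b hab h0
    obtain ⟨k, hk⟩ := (cross_dirv_eq_zero_iff _ _).1 h0
    exact hd _ _ (fun h => hab (Fin.castSucc_injective 3 h)) k hk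
  obtain ⟨n, A, _, hA⟩ := gardner_mcmullen hB.cpt hB.str hB.smo hVf (hne.image Mo.p) hVK
    (fun m : Fin 3 => dirv (t (Fin.castSucc m))) hpnp (fun i => hVi (Fin.castSucc i))
  exact ⟨n, A, fun i => hA (dirv (t i)) (dirv_ne _) (hVi i)⟩

end AD
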