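import Mathlib

set_option autoImplicit false

/-!
# AE-03: all periodic points have the same rotation data

PROOF.  `H` is strictly increasing and commutes with integer translations (`H (x + k) = H x + k`), so
all iterates do.  Let `A = H^[(q+1) * (q'+1)]`; `A x = x + n * (q' + 1)`, `A y = y + n' * (q + 1)`
(iterate the given equations, `Function.iterate_mul`), and `A^[k] x = x + k n (q'+1)`,
`A^[k] y = y + k n' (q+1)`.  With an integer `m ≥ |x - y|`: `x - m ≤ y ≤ x + m` gives
`A^[k] x - m ≤ A^[k] y ≤ A^[k] x + m` for all `k`, so `n (q'+1) = n' (q+1)`.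
Let `G z = H^[q+1] z - n`: strictly increasing, commutes with integer translations, and
`G^[q'+1] y = H^[(q+1)(q'+1)] y - n (q'+1) = y`.  If `G y > y` then `G^[k] y > y` for all `k ≥ 1`; if
`G y < y` then `G^[k] y < y`; so `G y = y`. -/

namespace AD

private theorem trans_int {F : ℝ → ℝ} (hT : ∀ x, F (x + 1) = F x + 1) (k : ℤ) (z : ℝ) : F (z + k) = F z + k := by
  induction k using Int.induction_on with
  | zero => simp
  | succ i ih =>
    have h : z + (((i : ℤ) + 1 : ℤ) : ℝ) = (z + ((i : ℤ) : ℝ)) + 1 := by push_cast; ring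
    rw [h, hT, ih]
    push_cast
    ring
  | pred i ih =>
    have h : (z + ((-(i : ℤ) - 1 : ℤ) : ℝ)) + 1 = z + ((-(i : ℤ) : ℤ) : ℝ) := by push_cast; ring
    have h2 := hT (z + ((-(i : ℤ) - 1 : ℤ) : ℝ))
    rw [h, ih] at h2
    push_cast at h2 ⊢
    linarith

private theorem iter_trans {F : ℝ → ℝ} (hT : ∀ (k : ℤ) (z : ℝ), F (z + k) = F z + k) (j : ℕ) (k : ℤ) (z : ℝ) :
    F^[j] (z + k) = F^[j] z + k := by
  induction j generalizing z with
  | zero => rfl
  | succ j ih => rw [Function.iterate_succ_apply, Function.iterate_succ_apply, hT, ih]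

private theorem iter_shift {F : ℝ → ℝ} (hT : ∀ (k : ℤ) (z : ℝ), F (z + k) = F z + k) {z : ℝ} {d : ℤ} (h : F z = z + d) (j : ℕ) :
    F^[j] z = z + ((j * d : ℤ) : ℝ) := by
  induction j with
  | zero => simp
  | succ j ih =>
    rw [Function.iterate_succ_apply', ih, hT, h]
    push_cast
    ring

/-- If `F` is monotone, commutes with translations and fixes `x`, then it cannot move `y` by a nonzero integer. -/
private theorem shift_zero {F : ℝ → ℝ} (hm : Monotone F) (hT : ∀ (k : ℤ) (z : ℝ), F (z + k) = F z + k) {x y : ℝ} {d : ℤ}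
    (hx : F x = x) (hy : F y = y + d) : d = 0 := by
  by_contra hd
  obtain ⟨m, hm'⟩ := exists_nat_ge |x - y|
  have h1 := abs_le.1 hm'
  have hup : ∀ j : ℕ, F^[j] y ≤ x + m := by
    intro j
    have h2 : F^[j] (x + ((m : ℤ) : ℝ)) = x + m := by
      rw [iter_trans hT, Function.iterate_fixed hx]
      push_cast
      rfl
    rw [← h2]
    refine (hm.iterate j) ?_
    push_cast
    linarith [h1.1]
  have hlo : ∀ j : ℕ, x - m ≤ F^[j] y := by
    intro j
    have h2 : F^[j] (x + ((-(m : ℤ) : ℤ) : ℝ)) = x - m := by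
      rw [iter_trans hT, Function.iterate_fixed hx]
      push_cast
      ring
    rw [← h2]
    refine (hm.iterate j) ?_
    push_cast
    linarith [h1.2]
  have hu := hup (2 * m + 1)
  have hl := hlo (2 * m + 1)
  rw [iter_shift hT hy] at hu hl
  rcases lt_or_gt_of_ne hd with hneg | hpos
  · have h3 : d ≤ -1 := by omega
    have h4 : (((2 * m + 1 : ℕ) : ℤ) * d) ≤ -(2 * m + 1) := by
      push_cast
      nlinarith
    have h5 : ((((2 * m + 1 : ℕ) : ℤ) * d : ℤ) : ℝ) ≤ ((-(2 * m + 1) : ℤ) : ℝ) := by exact_mod_cast h4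
    push_cast at h5 hl hu
    linarith [h1.1, h1.2]
  · have h3 : 1 ≤ d := by omega
    have h4 : (2 * m + 1 : ℤ) ≤ (((2 * m + 1 : ℕ) : ℤ) * d) := by
      push_cast
      nlinarith
    have h5 : ((2 * m + 1 : ℤ) : ℝ) ≤ ((((2 * m + 1 : ℕ) : ℤ) * d : ℤ) : ℝ) := by exact_mod_cast h4
    push_cast at h5 hl hu
    linarith [h1.1, h1.2]

theorem uniform_period {H : ℝ → ℝ} (hm : StrictMono H) (hT : ∀ x, H (x + 1) = H x + 1)
    {x y : ℝ} {q q' : ℕ} {n n' : ℤ} (hx : H^[q + 1] x = x + n) (hy : H^[q' + 1] y = y + n') :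
    H^[q + 1] y = y + n := by
  have hTk : ∀ (k : ℤ) (z : ℝ), H (z + k) = H z + k := fun k z => trans_int hT k z
  have hq : ∀ (k : ℤ) (z : ℝ), H^[q + 1] (z + k) = H^[q + 1] z + k := fun k z => iter_trans hTk (q + 1) k z
  have hq' : ∀ (k : ℤ) (z : ℝ), H^[q' + 1] (z + k) = H^[q' + 1] z + k := fun k z => iter_trans hTk (q' + 1) k z
  let G : ℝ → ℝ := fun z => H^[q + 1] z - n
  have hGm : StrictMono G := fun a b hab => sub_lt_sub_right ((hm.iterate (q + 1)) hab) _
  have hGT : ∀ (k : ℤ) (z : ℝ), G (z + k) = G z + k := by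
    intro k z
    show H^[q + 1] (z + k) - n = H^[q + 1] z - n + k
    rw [hq]
    ring
  have hGx : G x = x := by
    show H^[q + 1] x - n = x
    rw [hx]
    ring
  have hGit : ∀ (j : ℕ) (z : ℝ), G^[j] z = H^[(q + 1) * j] z - ((j * n : ℤ) : ℝ) := by
    intro j z
    induction j with
    | zero => simp
    | succ j ih =>
      rw [Function.iterate_succ_apply', ih]
      show H^[q + 1] (H^[(q + 1) * j] z - ((j * n : ℤ) : ℝ)) - n = _
      have h1 : H^[(q + 1) * j] z - ((j * n : ℤ) : ℝ) = H^[(q + 1) * j] z + ((-(j * n) : ℤ) : ℝ) := by push_cast; ring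
      rw [h1, hq, ← Function.iterate_add_apply]
      have h2 : q + 1 + (q + 1) * j = (q + 1) * (j + 1) := by ring
      rw [h2]
      push_cast
      ring
  have hyy : H^[(q + 1) * (q' + 1)] y = y + (((q + 1 : ℕ) * n' : ℤ) : ℝ) := by
    rw [mul_comm, Function.iterate_mul]
    exact iter_shift hq' hy (q + 1)
  have hGy : G^[q' + 1] y = y + (((q + 1 : ℕ) * n' - (q' + 1 : ℕ) * n : ℤ) : ℝ) := by
    rw [hGit, hyy]
    push_cast
    ring
  have hd := shift_zero (F := G^[q' + 1]) (hGm.iterate (q' + 1)).monotone (fun k z => iter_trans hGT (q' + 1) k z)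
    (Function.iterate_fixed hGx _) hGy
  rw [hd] at hGy
  have hGy2 : G^[q' + 1] y = id^[q' + 1] y := by
    rw [hGy, Function.iterate_id]
    simp
  have hfix : G y = id y := ((Function.Commute.id_right (f := G)).iterate_pos_eq_iff_map_eq hGm.monotone strictMono_id
    (Nat.succ_pos q')).1 hGy2
  have h3 : H^[q + 1] y - n = y := hfix
  linarith

end AD
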