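import Pool.Agent.Helper45.AD.FPer
import Pool.Agent.Helper45.AD.RotUnif
import Pool.Agent.Helper45.AD.Derived
import Pool.Agent.Helper45.AD.PolyInv
import Pool.Agent.Helper45.AD.NullP2
import Pool.Agent.Helper45.AD.Fub2
import Pool.Agent.Helper45.AD.GapOrb2
import Pool.Agent.Helper45.AD.DenseCrit
import Pool.Agent.Helper45.AD.Loops

set_option autoImplicit false

/-! # AE-A: any two directions and almost every pair of further directions, every body -/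

namespace AD

open ChordMaps MeasureTheory

variable {K : Set Plane}

theorem null_N2 (hB : SBody K) (Mo : Model K) (a b : ℝ) (hab : ∀ k : ℤ, a ≠ b + k * Real.pi)
    (β : ℚ) (n : ℕ) :
    volume {p : ℝ × ℝ | (N Mo.S ![a, b, p.1, p.2] β (1 / ((n : ℝ) + 1))).Nonempty} = 0 := by
  have h1 : ∀ᵐ p : ℝ × ℝ, ∀ (β : ℚ) (n : ℕ), Dist ![a, b, p.1, p.2] →
      (N Mo.S ![a, b, p.1, p.2] β (1 / ((n : ℝ) + 1))).Nonempty →
      (Set.range fun g : List (Fin 3) => Int.fract (W Mo.S ![a, b, p.1] g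
        (aPt Mo.S ![a, b, p.1, p.2] β (1 / ((n : ℝ) + 1))))).Finite := by
    rw [ae_all_iff]
    intro β
    rw [ae_all_iff]
    intro n
    exact ae_fin2 Mo.S (fun s hs => hasLoops hB Mo s (le_refl 3) hs) a b β _ (by positivity)
  have h4 : ∀ᵐ p : ℝ × ℝ, ∀ (q : ℕ) (n : ℤ) (m : ℕ),
      {x : ℝ | 0 ≤ x ∧ x ≤ 1 ∧
        (fun z => Mo.S.F a (Mo.S.F p.1 z))^[q + 1] x = x + n ∧
        1 / ((m : ℝ) + 1) ≤ Mo.S.s p.1 x ∧
        1 / ((m : ℝ) + 1) ≤ Mo.S.s p.1 (Mo.S.F a x)}.Finite := by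
    have h : ∀ᵐ s : ℝ, ∀ (q : ℕ) (n : ℤ) (m : ℕ),
      {x : ℝ | 0 ≤ x ∧ x ≤ 1 ∧
        (fun z => Mo.S.F a (Mo.S.F s z))^[q + 1] x = x + n ∧
        1 / ((m : ℝ) + 1) ≤ Mo.S.s s x ∧
        1 / ((m : ℝ) + 1) ≤ Mo.S.s s (Mo.S.F a x)}.Finite := by
      rw [ae_all_iff]
      intro q
      rw [ae_all_iff]
      intro n
      rw [ae_all_iff]
      intro m
      exact ae_finite_periodic Mo.S a q n (by positivity)
    exact (Measure.quasiMeasurePreserving_fst (μ := (volume : Measure ℝ))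
      (ν := (volume : Measure ℝ))).ae h
  have h5 : ∀ᵐ p : ℝ × ℝ, ¬ (N Mo.S ![a, b, p.1, p.2] β (1 / ((n : ℝ) + 1))).Nonempty := by
    filter_upwards [h1, ae_dist2 a b hab, ae_not_polygon2 a b, h4] with p h1 h2 h3 h4 hN
    set t : Fin 4 → ℝ := ![a, b, p.1, p.2] with ht
    have hε : (0 : ℝ) < 1 / ((n : ℝ) + 1) := by positivity
    set E : Set ℝ := {c | GapEnd (N Mo.S t β (1 / ((n : ℝ) + 1))) c} with hE
    have hne : E.Nonempty := ⟨_, aPt_gapEnd Mo.S t β _ hε hN⟩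
    have hinv : ∀ l, ∀ x ∈ E, Mo.S.F (t l) x ∈ E := fun l x hx =>
      GapEnd.map Mo.S (t l) (fun y hy => N_inv Mo.S t β _ hy l) hx
    have hper : ∀ x ∈ E, ∀ k : ℤ, x + k ∈ E := fun x hx k =>
      GapEnd.add_int (fun y hy k => N_add_int Mo.S t β _ hy k) hx k
    have hperiod : ∀ c ∈ E, ∃ (q : ℕ) (n : ℤ),
        (fun z => Mo.S.F a (Mo.S.F p.1 z))^[q + 1] c = c + n := by
      intro c hc
      have hf := gapEnd_orbit' Mo.S t ![a, b, p.1] Fin.castSucc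
        (fun i => by fin_cases i <;> rfl) (fun β n => h1 β n h2) β _ hc
      exact periodic_of_finite Mo.S ![a, b, p.1] 0 2 hf
    obtain ⟨c₀, hc₀⟩ := hne
    obtain ⟨q, k, hqk⟩ := hperiod c₀ hc₀
    have hunif : ∀ c ∈ E, (fun z => Mo.S.F a (Mo.S.F p.1 z))^[q + 1] c = c + k := by
      intro c hc
      obtain ⟨q', k', hqk'⟩ := hperiod c hc
      refine uniform_period (fun x y hxy => Mo.S.anti a (Mo.S.anti p.1 hxy)) (fun x => ?_) hqk hqk'
      rw [Mo.S.per, show Mo.S.F p.1 x - 1 = Mo.S.F p.1 x + ((-1 : ℤ) : ℝ) by push_cast; ring,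
        F_add_int]
      push_cast
      ring
    obtain ⟨D, hD1, hD2, hD3⟩ := exists_finInv Mo.S t E ⟨c₀, hc₀⟩ hinv hper a p.1 (fun m =>
      (h4 q k m).subset fun x hx => ⟨hx.2.1, hx.2.2.1, hunif x hx.1, hx.2.2.2.1, hx.2.2.2.2⟩)
    exact h3 h2 (polygon_of_finInv hB Mo t h2 D hD1 hD2 hD3)
  rw [ae_iff] at h5
  simpa using h5

/-- letters of the pair of given and the pair of variable angles -/
theorem cont2 (a b : ℝ) (l : Fin 4) : Continuous fun p : ℝ × ℝ => ![a, b, p.1, p.2] l := by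
  fin_cases l
  · exact continuous_const
  · exact continuous_const
  · exact continuous_fst
  · exact continuous_snd

theorem chord_inv' {V : Set Plane} (hV : V ⊆ frontier K) {v : Plane}
    (h : ∀ x ∈ V, ∀ τ : ℝ, x + τ • v ∈ frontier K → x + τ • v ∈ V) :
    ∀ x ∈ V, chord K v x ∈ V := by
  intro x hx
  obtain ⟨t, ht⟩ := chord_line K v x
  have h1 : chord K v x ∈ frontier K := chord_mem (hV hx)
  rw [ht] at h1 ⊢
  exact h x hx t h1

theorem mainA2 (hB : SBody K) (a b : ℝ) (hab : ∀ k : ℤ, a ≠ b + k * Real.pi) :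
    ∃ F : ℕ → Set (ℝ × ℝ), (∀ k, IsClosed (F k) ∧ volume (F k) = 0) ∧
      ∀ p : ℝ × ℝ, (∀ k, p ∉ F k) → ∀ V ⊆ frontier K, V.Nonempty →
        (∀ i : Fin 4, ∀ x ∈ V, ∀ τ : ℝ, x + τ • dirv (![a, b, p.1, p.2] i) ∈ frontier K →
          x + τ • dirv (![a, b, p.1, p.2] i) ∈ V) →
        closure V = frontier K := by
  obtain ⟨Mo⟩ := exists_model hB
  obtain ⟨e, he⟩ := exists_surjective_nat (ℚ × ℕ)
  refine ⟨fun k => {p : ℝ × ℝ |
    (N Mo.S ![a, b, p.1, p.2] (e k).1 (1 / (((e k).2 : ℝ) + 1))).Nonempty}, fun k => ⟨?_, ?_⟩,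
    fun p hp V hV hne hinv => ?_⟩
  · exact N_proj_closed Mo.S _ _ (fun p : ℝ × ℝ => ![a, b, p.1, p.2]) (cont2 a b)
  · exact null_N2 hB Mo a b hab _ _
  · refine Set.Subset.antisymm (closure_minimal hV isClosed_frontier) ?_
    by_contra hnd
    obtain ⟨β, n, hN⟩ := exists_N_of_not_dense Mo ![a, b, p.1, p.2] V hV hne
      (fun i => chord_inv' hV (hinv i)) hnd
    obtain ⟨k, hk⟩ := he (β, n)
    refine hp k ?_
    rw [Set.mem_ofPred_eq, hk]
    exact hN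

end AD
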