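import Pool.Agent.Helper45.AD.AMeas
import Pool.Agent.Helper45.AD.Sets

set_option autoImplicit false

/-! # AD-13b: measurability of all the sets

PROOF. `orb`: `W S θ g` is continuous (`W_cont` with a constant `α`), composed with
`aPt_measurable S β ε (fun t => ext θ t) (ext_cont θ)`.  `Rep g` is a countable intersection over
`g' : List (Fin r)` (countable type) of sets which are either everything or
`{t | fract (orb g' t) = fract (orb g t)}ᶜ` (`measurable_fract`, `measurableSet_eq_fun`).
Loops: `{t | Loop S θ t (x t) i w n}` is empty if `¬ Alt w`, else the set where the two measurable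
functions `W S (ext θ t) (none :: some i :: w) (x t)` (jointly continuous in `(t, x)` by `W_cont`
with `A = ℝ × ℝ`) and `x t + n` agree.  `TT` is closed (`N_proj_closed`), `⌊t⌋ = m` is measurable
(`Int.measurable_floor`, `measurableSet_eq_fun` or preimage of a singleton).  `Good`: the functions
`S.s t (orb g t)`, `S.s t (S.F (θ j) (orb g t))` are measurable (`S.s_cont`, `S.cont` with
`Continuous.measurable` and `Measurable.prodMk`); `HasLoop` is a countable union. -/

namespace AD

variable {r : ℕ}

theorem orb_measurable (S : Sys) (θ : Fin r → ℝ) (β ε : ℝ) (g : List (Fin r)) :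
    Measurable (orb S θ β ε g) := by
  have h1 : Continuous fun x : ℝ => W S θ g x :=
    W_cont S g (fun (_ : ℝ) => θ) (fun _ => continuous_const) (fun x => x) continuous_id
  have h2 : Measurable fun t : ℝ => aPt S (ext θ t) β ε :=
    aPt_measurable S β ε (fun t => ext θ t) (ext_cont θ)
  exact h1.measurable.comp h2

theorem rep_measurable (S : Sys) (θ : Fin r → ℝ) (β ε : ℝ) (g : List (Fin r)) :
    MeasurableSet (Rep S θ β ε g) := by
  have h : Rep S θ β ε g = ⋂ g' : List (Fin r), ⋂ _ : Encodable.encode g' < Encodable.encode g,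
      {t | Int.fract (orb S θ β ε g' t) = Int.fract (orb S θ β ε g t)}ᶜ := by
    ext t
    simp [Rep]
  rw [h]
  refine MeasurableSet.iInter fun g' => MeasurableSet.iInter fun _ => ?_
  exact (measurableSet_eq_fun (measurable_fract.comp (orb_measurable S θ β ε g'))
    (measurable_fract.comp (orb_measurable S θ β ε g))).compl

theorem loop_measurable (S : Sys) (θ : Fin r → ℝ) (x : ℝ → ℝ) (hx : Measurable x) (i : Fin r)
    (w : List (Option (Fin r))) (n : ℤ) : MeasurableSet {t | Loop S θ t (x t) i w n} := by
  by_cases hw : Alt w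
  · have h : {t | Loop S θ t (x t) i w n} =
        {t | W S (ext θ t) (none :: some i :: w) (x t) = x t + n} := by
      ext t
      exact ⟨fun h => h.2, fun h => ⟨hw, h⟩⟩
    rw [h]
    have h1 : Continuous fun q : ℝ × ℝ => W S (ext θ q.1) (none :: some i :: w) q.2 :=
      W_cont S _ (fun q : ℝ × ℝ => ext θ q.1) (fun l => (ext_cont θ l).comp continuous_fst)
        (fun q => q.2) continuous_snd
    have h2 : Measurable fun t : ℝ => W S (ext θ t) (none :: some i :: w) (x t) :=
      h1.measurable.comp (measurable_id.prodMk hx)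
    exact measurableSet_eq_fun h2 (hx.add_const _)
  · have h : {t | Loop S θ t (x t) i w n} = ∅ := by
      ext t
      exact ⟨fun h => absurd h.1 hw, fun h => absurd h (Set.notMem_empty t)⟩
    rw [h]
    exact MeasurableSet.empty

theorem base_measurable (S : Sys) (θ : Fin r → ℝ) (β ε : ℝ) (g : List (Fin r)) (i : Fin r)
    (w : List (Option (Fin r))) (n m : ℤ) : MeasurableSet (Base S θ β ε g i w n m) := by
  have h : Base S θ β ε g i w n m = TT S θ β ε ∩ ({t | ⌊t⌋ = m} ∩
      {t | Loop S θ t (orb S θ β ε g t) i w n}) := rfl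
  rw [h]
  refine MeasurableSet.inter ?_ (MeasurableSet.inter ?_ ?_)
  · exact (N_proj_closed S β ε (fun t => ext θ t) (ext_cont θ)).measurableSet
  · exact measurableSet_eq_fun Int.measurable_floor measurable_const
  · exact loop_measurable S θ _ (orb_measurable S θ β ε g) i w n

private theorem hasLoop_measurable (S : Sys) (θ : Fin r → ℝ) (x : ℝ → ℝ) (hx : Measurable x) :
    MeasurableSet {t | HasLoop S θ t (x t)} := by
  have h : {t | HasLoop S θ t (x t)} = ⋃ i : Fin r, ⋃ w : List (Option (Fin r)), ⋃ n : ℤ,
      {t | Loop S θ t (x t) i w n} := by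
    ext t
    simp [HasLoop]
  rw [h]
  exact MeasurableSet.iUnion fun i => MeasurableSet.iUnion fun w => MeasurableSet.iUnion fun n =>
    loop_measurable S θ x hx i w n

theorem good_measurable (S : Sys) (θ : Fin r → ℝ) (β ε η : ℝ) (j : Fin r) (g : List (Fin r)) :
    MeasurableSet {t | Good S θ β ε η j t g} := by
  have ho := orb_measurable S θ β ε g
  have hF : Measurable fun t : ℝ => S.F (θ j) (orb S θ β ε g t) :=
    S.cont.measurable.comp (measurable_const.prodMk ho)
  have h1 : Measurable fun t : ℝ => S.s t (orb S θ β ε g t) :=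
    S.s_cont.measurable.comp (measurable_id.prodMk ho)
  have h2 : Measurable fun t : ℝ => S.s t (S.F (θ j) (orb S θ β ε g t)) :=
    S.s_cont.measurable.comp (measurable_id.prodMk hF)
  have h : {t | Good S θ β ε η j t g} = Rep S θ β ε g ∩ ({t | η ≤ S.s t (orb S θ β ε g t)} ∩
      ({t | η ≤ S.s t (S.F (θ j) (orb S θ β ε g t))} ∩ ({t | HasLoop S θ t (orb S θ β ε g t)} ∩
      {t | HasLoop S θ t (S.F (θ j) (orb S θ β ε g t))}))) := rfl
  rw [h]
  exact (rep_measurable S θ β ε g).inter ((measurableSet_le measurable_const h1).inter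
    ((measurableSet_le measurable_const h2).inter ((hasLoop_measurable S θ _ ho).inter
      (hasLoop_measurable S θ _ hF))))

end AD
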