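import Mathlib

set_option autoImplicit false

/-! # AD-11: expanding maps of subsets of the line

PROOF of `volume_le_of_expand`. `f` is injective on `A` (for `t < t'` the hypothesis gives
`0 < |f t' - f t|`).  Let `g = Function.invFunOn f A`; on `f '' A` the map `g` is Lipschitz with
constant `1/κ` (`LipschitzOnWith (Real.toNNReal κ⁻¹) g (f '' A)`), and `g '' (f '' A) = A`
(`Set.InjOn.invFunOn_image` / `leftInvOn_invFunOn`).  Use
`LipschitzOnWith.hausdorffMeasure_image_le` with dimension `1` and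
`MeasureTheory.hausdorffMeasure_real`:
`volume A ≤ ofReal (κ⁻¹) * volume (f '' A)`, then multiply by `ofReal κ`.

PROOF of `volume_le_of_pieces`. `ι` empty: `A = ∅`.  Otherwise `exists_surjective_nat`-encode the
pieces: `Q : ℕ → Set ℝ` (`Q n = P (e n)` with `e : ℕ → ι` surjective), `D n = A ∩ disjointed Q n`:
measurable, pairwise disjoint, union `A`.  The images `f '' D n` are measurable
(`MeasurableSet.image_of_measurable_injOn`, Lusin–Souslin), pairwise disjoint (injectivity on `A`),
contained in `f '' A`; so `κ |A| = Σ κ |D n| ≤ Σ |f '' D n| = |⋃ f '' D n| ≤ |f '' A|`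
(`MeasureTheory.measure_iUnion`, `ENNReal.tsum_mul_left`). -/

namespace AD

open MeasureTheory

theorem volume_le_of_expand {A : Set ℝ} {f : ℝ → ℝ} {κ : ℝ} (hκ : 0 < κ)
    (h : ∀ t ∈ A, ∀ t' ∈ A, t ≤ t' → κ * (t' - t) ≤ |f t' - f t|) :
    ENNReal.ofReal κ * volume A ≤ volume (f '' A) := by
  have hd : ∀ t ∈ A, ∀ t' ∈ A, κ * |t' - t| ≤ |f t' - f t| := by
    intro t ht t' ht'
    rcases le_total t t' with h1 | h1
    · rw [abs_of_nonneg (sub_nonneg.2 h1)]
      exact h t ht t' ht' h1
    · have h2 := h t' ht' t ht h1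
      rw [abs_sub_comm t' t, abs_sub_comm (f t') (f t), abs_of_nonneg (sub_nonneg.2 h1)]
      exact h2
  have hinj : Set.InjOn f A := by
    intro t ht t' ht' he
    have h1 := hd t ht t' ht'
    rw [he, sub_self, abs_zero] at h1
    have h2 : |t' - t| ≤ 0 := by
      by_contra hc
      push Not at hc
      have := mul_pos hκ hc
      linarith
    have h3 := abs_nonpos_iff.1 h2
    linarith
  have hleft : Set.LeftInvOn (Function.invFunOn f A) f A := hinj.leftInvOn_invFunOn
  have hlip : LipschitzOnWith (Real.toNNReal κ⁻¹) (Function.invFunOn f A) (f '' A) := by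
    apply LipschitzOnWith.of_dist_le_mul
    rintro x ⟨t, ht, rfl⟩ y ⟨t', ht', rfl⟩
    rw [hleft ht, hleft ht', Real.coe_toNNReal _ (inv_nonneg.2 hκ.le), Real.dist_eq,
      Real.dist_eq]
    have h1 := hd t' ht' t ht
    rw [inv_mul_eq_div, le_div_iff₀ hκ, mul_comm]
    exact h1
  have h1 := hlip.hausdorffMeasure_image_le (d := 1) zero_le_one
  rw [hinj.invFunOn_image subset_rfl, MeasureTheory.hausdorffMeasure_real] at h1
  simp only [ENNReal.rpow_one] at h1
  calc ENNReal.ofReal κ * volume A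
      ≤ ENNReal.ofReal κ * (((Real.toNNReal κ⁻¹ : NNReal) : ENNReal) * volume (f '' A)) := by
        gcongr
    _ = volume (f '' A) := by
        rw [← mul_assoc]
        have : ENNReal.ofReal κ * ((Real.toNNReal κ⁻¹ : NNReal) : ENNReal) = 1 := by
          show ENNReal.ofReal κ * ENNReal.ofReal κ⁻¹ = 1
          rw [← ENNReal.ofReal_mul hκ.le, mul_inv_cancel₀ hκ.ne', ENNReal.ofReal_one]
        rw [this, one_mul]

theorem volume_le_of_pieces {ι : Type} [Countable ι] {A : Set ℝ} (hA : MeasurableSet A)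
    (P : ι → Set ℝ) (hP : ∀ i, MeasurableSet (P i)) (hAP : A ⊆ ⋃ i, P i) {f : ℝ → ℝ}
    (hf : Measurable f) (hinj : Set.InjOn f A) {κ : ℝ} (hκ : 0 < κ)
    (h : ∀ i, ∀ t ∈ A ∩ P i, ∀ t' ∈ A ∩ P i, t ≤ t' → κ * (t' - t) ≤ |f t' - f t|) :
    ENNReal.ofReal κ * volume A ≤ volume (f '' A) := by
  rcases isEmpty_or_nonempty ι with hι | hι
  · have : A = ∅ := by
      apply Set.eq_empty_of_subset_empty
      refine hAP.trans ?_
      simp
    subst this
    simp
  obtain ⟨e, he⟩ := exists_surjective_nat ι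
  set D : ℕ → Set ℝ := fun n => A ∩ disjointed (fun n => P (e n)) n with hD
  have hDm : ∀ n, MeasurableSet (D n) := fun n =>
    hA.inter (MeasurableSet.disjointed (fun n => hP (e n)) n)
  have hDd : Pairwise (Function.onFun Disjoint D) := fun i j hij =>
    ((disjoint_disjointed (fun n => P (e n))) hij).mono Set.inter_subset_right
      Set.inter_subset_right
  have hDU : ⋃ n, D n = A := by
    rw [hD, ← Set.inter_iUnion, iUnion_disjointed, Set.inter_eq_left]
    refine hAP.trans ?_
    intro x hx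
    obtain ⟨i, hi⟩ := Set.mem_iUnion.1 hx
    obtain ⟨n, rfl⟩ := he i
    exact Set.mem_iUnion.2 ⟨n, hi⟩
  have hDA : ∀ n, D n ⊆ A := fun n => Set.inter_subset_left
  have hDP : ∀ n, D n ⊆ P (e n) := fun n =>
    Set.inter_subset_right.trans (disjointed_subset _ _)
  have him : ∀ n, MeasurableSet (f '' D n) := fun n =>
    (hDm n).image_of_measurable_injOn hf (hinj.mono (hDA n))
  have hid : Pairwise (Function.onFun Disjoint fun n => f '' D n) := fun i j hij =>
    by
      rw [Function.onFun, Set.disjoint_left]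
      rintro y ⟨x, hx, rfl⟩ ⟨x', hx', hxx⟩
      have := hinj (hDA j hx') (hDA i hx) hxx
      subst this
      exact Set.disjoint_left.1 (hDd hij) hx hx'
  have hpc : ∀ n, ENNReal.ofReal κ * volume (D n) ≤ volume (f '' D n) := fun n =>
    volume_le_of_expand hκ fun t ht t' ht' htt => h (e n) t ⟨hDA n ht, hDP n ht⟩ t'
      ⟨hDA n ht', hDP n ht'⟩ htt
  calc ENNReal.ofReal κ * volume A = ENNReal.ofReal κ * ∑' n, volume (D n) := by
        rw [← measure_iUnion hDd hDm, hDU]
    _ = ∑' n, ENNReal.ofReal κ * volume (D n) := ENNReal.tsum_mul_left.symm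
    _ ≤ ∑' n, volume (f '' D n) := ENNReal.tsum_le_tsum hpc
    _ = volume (⋃ n, f '' D n) := (measure_iUnion hid him).symm
    _ ≤ volume (f '' A) := measure_mono (Set.iUnion_subset fun n => Set.image_mono (hDA n))

end AD
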