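import Mathlib

set_option autoImplicit false

/-! # AD-12: summability from disjoint images

PROOF. The images `f g '' A g` are measurable (`MeasurableSet.image_of_measurable_injOn`; `hinj`
with `g = g'` gives injectivity on `A g`), pairwise disjoint for different `g` (`hinj`), and
contained in `Icc a b`; so `Σ_g κ |A g| ≤ Σ_g |f g '' A g| = |⋃ ...| ≤ |Icc a b| < ∞`
(`tsum_meas_le_meas_iUnion_of_disjoint` or `measure_iUnion`), hence `Σ_g |A g| ≠ ∞`, and
`MeasureTheory.ae_finite_setOf_mem` (Borel–Cantelli for a countable index type). -/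

namespace AD

open MeasureTheory

theorem ae_finite_of_images {G : Type} [Countable G] (A : G → Set ℝ)
    (hA : ∀ g, MeasurableSet (A g)) (f : G → ℝ → ℝ) (hf : ∀ g, Measurable (f g))
    (hinj : ∀ g g', ∀ t ∈ A g, ∀ t' ∈ A g', f g t = f g' t' → g = g' ∧ t = t')
    {κ : ℝ} (hκ : 0 < κ) (a b : ℝ) (hb : ∀ g, ∀ t ∈ A g, f g t ∈ Set.Icc a b)
    (hE : ∀ g, ENNReal.ofReal κ * volume (A g) ≤ volume (f g '' A g)) :
    ∀ᵐ t : ℝ, {g | t ∈ A g}.Finite := by
  have h1 : ∀ g, MeasurableSet (f g '' A g) := fun g =>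
    (hA g).image_of_measurable_injOn (hf g) fun t ht t' ht' h => (hinj g g t ht t' ht' h).2
  have h2 : Pairwise (Function.onFun Disjoint fun g => f g '' A g) := by
    intro g g' hne
    rw [Function.onFun, Set.disjoint_left]
    rintro s ⟨t, ht, rfl⟩ ⟨t', ht', h⟩
    exact hne (hinj g g' t ht t' ht' h.symm).1
  have h3 := tsum_meas_le_meas_iUnion_of_disjoint volume h1 h2
  have h4 : volume (⋃ g, f g '' A g) ≤ volume (Set.Icc a b) := by
    refine measure_mono (Set.iUnion_subset fun g => ?_)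
    rintro s ⟨t, ht, rfl⟩
    exact hb g t ht
  have h5 : ENNReal.ofReal κ * ∑' g, volume (A g) ≤ volume (Set.Icc a b) := by
    rw [← ENNReal.tsum_mul_left]
    exact (ENNReal.tsum_le_tsum hE).trans (h3.trans h4)
  refine ae_finite_setOfPred_mem ?_
  intro h6
  rw [h6, ENNReal.mul_top (by simpa using hκ), Real.volume_Icc] at h5
  exact absurd h5 (not_le.2 ENNReal.ofReal_lt_top)

end AD
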