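import Pool.Agent.Helper45.AD.Comb
import Pool.Agent.Helper45.AD.Meas
import Pool.Agent.Helper45.AD.Expand
import Pool.Agent.Helper45.AD.MeasE
import Pool.Agent.Helper45.AD.Summ
import Pool.Agent.Helper45.AD.Far

set_option autoImplicit false

/-! # AD-15: for almost every `t` the orbit of the end point is finite

PROOF. `exists_far` gives `η`.  Fix a base `B = Base S θ β ε g₀ i₀ w₀ n₀ m₀` and `j`.  Apply
`ae_finite_of_images` with `A g = B ∩ {t | Good S θ β ε η j t g}` (measurable: `base_measurable`,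
`good_measurable`), `f g t = Yf S (θ j) (Int.fract (orb S θ β ε g t))`, `κ = η / 2`,
`a = Yf S (θ j) 0`, `b = Yf S (θ j) 1`.
 * measurable: `Yf S (θ j)` is strictly monotone, so measurable (`Monotone.measurable`).
 * `hinj`: `(Yf_mono S _).injective`, then `rep_inj` (`Good.1`).
 * range: monotonicity, `Int.fract_nonneg`, `Int.fract_lt_one`.
 * `hE`: `volume_le_of_pieces` with
   `ι = (Fin r × List (Option (Fin r)) × ℤ) × (Fin r × List (Option (Fin r)) × ℤ) × ℤ` and the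
   pieces `P ((i,w,n),(i',w',n'),m) = {t | Loop S θ t (orb g t) i w n ∧
   Loop S θ t (S.F (θ j) (orb g t)) i' w' n' ∧ ⌊orb g t⌋ = m}` (measurable: `loop_measurable`).
   For `t ≤ t'` in `A g ∩ P`: `t' ≤ t + 1` because `⌊t⌋ = ⌊t'⌋`; `c = orb g t - m = fract (orb g t)`
   and `S.F (θ j) c = S.F (θ j) (orb g t) + m` (`F_add_int`); the loops are translated by
   `Loop.add_int`, the lengths by `s_add_int`; then `expand_piece`.
   Injectivity of `f g` on `A g` is a case of `hinj`.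
Countably many bases and `j`, and the countable set of `t = θ i + k π` is null
(`Set.Countable.ae_notMem` / `Set.Countable.measure_zero`): for almost every `t` all the sets
`{g | t ∈ A g}` are finite and `t ≠ θ i + k π`.  For such `t ∈ TT`: if the range were infinite,
`comb` gives a loop (so `t` is in some base, `m₀ = ⌊t⌋`) and `j` with infinitely many good `g`:
contradiction. -/

namespace AD

variable {r : ℕ}

private theorem mainfin_fract (x : ℝ) : Int.fract x = x + ((-⌊x⌋ : ℤ) : ℝ) := by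
  push_cast
  rw [← sub_eq_add_neg, Int.self_sub_floor]

private theorem mainfin_pieces (S : Sys) (θ : Fin r → ℝ) (β ε η : ℝ) (j : Fin r)
    (g₀ : List (Fin r)) (i₀ : Fin r) (w₀ : List (Option (Fin r))) (n₀ m₀ : ℤ) (g : List (Fin r))
    {i i' : Fin r} {w w' : List (Option (Fin r))} {n n' m : ℤ} {t t' : ℝ} (htt : t ≤ t')
    (hb : t ∈ Base S θ β ε g₀ i₀ w₀ n₀ m₀) (hb' : t' ∈ Base S θ β ε g₀ i₀ w₀ n₀ m₀)
    (hg : Good S θ β ε η j t g)
    (h1 : Loop S θ t (orb S θ β ε g t) i w n) (h1' : Loop S θ t' (orb S θ β ε g t') i w n)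
    (h2 : Loop S θ t (S.F (θ j) (orb S θ β ε g t)) i' w' n')
    (h2' : Loop S θ t' (S.F (θ j) (orb S θ β ε g t')) i' w' n')
    (h3 : ⌊orb S θ β ε g t⌋ = m) (h3' : ⌊orb S θ β ε g t'⌋ = m) :
    η / 2 * (t' - t) ≤ |Yf S (θ j) (Int.fract (orb S θ β ε g t')) -
      Yf S (θ j) (Int.fract (orb S θ β ε g t))| := by
  have e : Int.fract (orb S θ β ε g t) = orb S θ β ε g t + ((-m : ℤ) : ℝ) := by
    rw [mainfin_fract, h3]
  have e' : Int.fract (orb S θ β ε g t') = orb S θ β ε g t' + ((-m : ℤ) : ℝ) := by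
    rw [mainfin_fract, h3']
  have f : S.F (θ j) (Int.fract (orb S θ β ε g t)) = S.F (θ j) (orb S θ β ε g t) + (m : ℝ) := by
    rw [e, F_add_int]
    push_cast
    ring
  have f' : S.F (θ j) (Int.fract (orb S θ β ε g t')) =
      S.F (θ j) (orb S θ β ε g t') + (m : ℝ) := by
    rw [e', F_add_int]
    push_cast
    ring
  have ht1 : t' ≤ t + 1 := by
    have h4 : ⌊t⌋ = m₀ := hb.2.1
    have h5 : ⌊t'⌋ = m₀ := hb'.2.1
    have h6 := Int.lt_floor_add_one t'
    have h7 := Int.floor_le t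
    rw [h5] at h6
    rw [h4] at h7
    linarith
  refine expand_piece S θ j (i := i) (i' := i') (w := w) (w' := w') (n := n) (n' := n') htt ht1
    ?_ ?_ ?_ ?_ ?_ ?_
  · rw [e]
    exact h1.add_int S θ _
  · rw [e']
    exact h1'.add_int S θ _
  · rw [f]
    exact h2.add_int S θ _
  · rw [f']
    exact h2'.add_int S θ _
  · rw [e, s_add_int]
    exact hg.2.1
  · rw [f, s_add_int]
    exact hg.2.2.1

private theorem mainfin_base (S : Sys) (θ : Fin r → ℝ) (β ε : ℝ) {η : ℝ} (hη : 0 < η)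
    (g₀ : List (Fin r)) (i₀ : Fin r) (w₀ : List (Option (Fin r))) (n₀ m₀ : ℤ) (j : Fin r) :
    ∀ᵐ t : ℝ, {g : List (Fin r) | t ∈ Base S θ β ε g₀ i₀ w₀ n₀ m₀ ∩
      {t | Good S θ β ε η j t g}}.Finite := by
  have hA : ∀ g : List (Fin r), MeasurableSet (Base S θ β ε g₀ i₀ w₀ n₀ m₀ ∩
      {t | Good S θ β ε η j t g}) := fun g =>
    (base_measurable S θ β ε g₀ i₀ w₀ n₀ m₀).inter (good_measurable S θ β ε η j g)
  have hf : ∀ g : List (Fin r), Measurable
      (fun t => Yf S (θ j) (Int.fract (orb S θ β ε g t))) := fun g =>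
    (Yf_mono S (θ j)).monotone.measurable.comp (measurable_fract.comp (orb_measurable S θ β ε g))
  have hinj : ∀ g g' : List (Fin r), ∀ t ∈ Base S θ β ε g₀ i₀ w₀ n₀ m₀ ∩
      {t | Good S θ β ε η j t g}, ∀ t' ∈ Base S θ β ε g₀ i₀ w₀ n₀ m₀ ∩
      {t | Good S θ β ε η j t g'}, Yf S (θ j) (Int.fract (orb S θ β ε g t)) =
        Yf S (θ j) (Int.fract (orb S θ β ε g' t')) → g = g' ∧ t = t' := by
    intro g g' t ht t' ht' h
    exact rep_inj S θ β ε ht.1 ht'.1 ht.2.1 ht'.2.1 ((Yf_mono S (θ j)).injective h)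
  refine ae_finite_of_images (fun g => Base S θ β ε g₀ i₀ w₀ n₀ m₀ ∩
      {t | Good S θ β ε η j t g}) hA (fun g t => Yf S (θ j) (Int.fract (orb S θ β ε g t))) hf hinj
    (half_pos hη) (Yf S (θ j) 0) (Yf S (θ j) 1) ?_ ?_
  · intro g t _
    exact ⟨(Yf_mono S (θ j)).monotone (Int.fract_nonneg _),
      (Yf_mono S (θ j)).monotone (Int.fract_lt_one _).le⟩
  · intro g
    refine volume_le_of_pieces
      (ι := (Fin r × List (Option (Fin r)) × ℤ) × (Fin r × List (Option (Fin r)) × ℤ) × ℤ)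
      (hA g) (fun p => {t | Loop S θ t (orb S θ β ε g t) p.1.1 p.1.2.1 p.1.2.2} ∩
        ({t | Loop S θ t (S.F (θ j) (orb S θ β ε g t)) p.2.1.1 p.2.1.2.1 p.2.1.2.2} ∩
          {t | ⌊orb S θ β ε g t⌋ = p.2.2})) ?_ ?_ (hf g) ?_ (half_pos hη) ?_
    · intro p
      have ho := orb_measurable S θ β ε g
      refine (loop_measurable S θ _ ho _ _ _).inter ((loop_measurable S θ _ ?_ _ _ _).inter ?_)
      · exact S.cont.measurable.comp (measurable_const.prodMk ho)
      · exact measurableSet_eq_fun (Int.measurable_floor.comp ho) measurable_const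
    · rintro t ⟨hb, hg⟩
      obtain ⟨i, w, n, hL⟩ := hg.2.2.2.1
      obtain ⟨i', w', n', hL'⟩ := hg.2.2.2.2
      exact Set.mem_iUnion.2 ⟨((i, w, n), (i', w', n'), ⌊orb S θ β ε g t⌋), hL, hL', rfl⟩
    · intro t ht t' ht' h
      exact (hinj g g t ht t' ht' h).2
    · rintro p t ⟨⟨hb, hg⟩, h1, h2, h3⟩ t' ⟨⟨hb', -⟩, h1', h2', h3'⟩ htt
      exact mainfin_pieces S θ β ε η j g₀ i₀ w₀ n₀ m₀ g htt hb hb' hg h1 h1' h2 h2' h3 h3'

theorem main_finite (S : Sys) (θ : Fin r → ℝ) (hr : 3 ≤ r) (hd : Dist θ) (hl : HasLoops S θ)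
    (β ε : ℝ) (hε : 0 < ε) :
    ∀ᵐ t : ℝ, (N S (ext θ t) β ε).Nonempty →
      (Set.range fun g : List (Fin r) => Int.fract (orb S θ β ε g t)).Finite := by
  obtain ⟨η, hη, hfar⟩ := exists_far S θ hr hd
  have h1 : ∀ᵐ t : ℝ, ∀ p : List (Fin r) × Fin r × List (Option (Fin r)) × ℤ × ℤ × Fin r,
      {g : List (Fin r) | t ∈ Base S θ β ε p.1 p.2.1 p.2.2.1 p.2.2.2.1 p.2.2.2.2.1 ∩
        {t | Good S θ β ε η p.2.2.2.2.2 t g}}.Finite := by
    rw [MeasureTheory.ae_all_iff]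
    intro p
    exact mainfin_base S θ β ε hη _ _ _ _ _ _
  have h2 : ∀ᵐ t : ℝ, ∀ q : Fin r × ℤ, t ≠ θ q.1 + q.2 * Real.pi := by
    rw [MeasureTheory.ae_all_iff]
    intro q
    have := (Set.countable_singleton (θ q.1 + q.2 * Real.pi)).ae_notMem MeasureTheory.volume
    filter_upwards [this] with t ht h
    exact ht h
  filter_upwards [h1, h2] with t ht1 ht2 hne
  by_contra hinf
  obtain ⟨⟨g, i, w, n, hL⟩, j, hj⟩ := comb S θ β ε hε hl hfar (t := t) hne
    (fun i k => ht2 (i, k)) hinf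
  refine hj ((ht1 (g, i, w, n, ⌊t⌋, j)).subset ?_)
  intro g' hg'
  exact ⟨⟨hne, rfl, hL⟩, hg'⟩

end AD
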