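import Pool.Agent.Helper45.AD.FinInv
import Pool.Agent.Helper45.AD.MainFin
import Pool.Agent.Helper45.AD.DenseCrit
import Pool.Agent.Helper45.AD.Loops
import Pool.Agent.Helper3.Chord.MainU

set_option autoImplicit false

/-! # AD-B: one more direction -/

namespace AD

open ChordMaps MeasureTheory

variable {K : Set Plane} {r : ℕ}

theorem null_B (hB : SBody K) (Mo : Model K) (θ : Fin r → ℝ) (hr : 3 ≤ r) (hd : Dist θ)
    (hno : ∀ V ⊆ frontier K, V.Finite → V.Nonempty →
      ¬ ∀ i, ∀ x ∈ V, chord K (dirv (θ i)) x ∈ V) (β ε : ℝ) (hε : 0 < ε) :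
    volume {t : ℝ | (N Mo.S (ext θ t) β ε).Nonempty} = 0 := by
  have h := main_finite Mo.S θ hr hd (hasLoops hB Mo θ hr hd) β ε hε
  have h2 : ∀ᵐ t : ℝ, ¬ (N Mo.S (ext θ t) β ε).Nonempty := by
    filter_upwards [h] with t ht hN
    have hf := finite_p Mo (fun g : List (Fin r) => orb Mo.S θ β ε g t) (ht hN)
    refine hno _ ?_ hf ⟨_, ⟨[], rfl⟩⟩ fun i => inv_p Mo θ _ i
    rintro _ ⟨g, rfl⟩
    exact Mo.p_mem _
  rw [ae_iff] at h2
  simpa using h2

theorem mainB (hB : SBody K) (S : Finset Plane) (hS : ∀ u ∈ S, u ≠ 0) (hd : Determines S) :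
    ∃ F : ℕ → Set ℝ, (∀ k, IsClosed (F k) ∧ volume (F k) = 0) ∧
      ∀ t, (∀ k, t ∉ F k) → ∀ V ⊆ frontier K, V.Nonempty →
        (∀ v ∈ S, ∀ x ∈ V, ∀ τ : ℝ, x + τ • v ∈ frontier K → x + τ • v ∈ V) →
        (∀ x ∈ V, ∀ τ : ℝ, x + τ • dirv t ∈ frontier K → x + τ • dirv t ∈ V) →
        closure V = frontier K := by
  obtain ⟨r, w, hr, hn, hw, hwS, hSw⟩ := exists_directions S hS hd
  have hex : ∀ i, ∃ t : ℝ, w i = dirv t := by
    intro i
    obtain ⟨t, ht⟩ := exists_angle (w i)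
    refine ⟨t, ?_⟩
    rw [hn i, one_smul] at ht
    exact ht
  choose θ hθ using hex
  have hdist : Dist θ := by
    intro i k hik n h
    apply hw i k hik
    rw [hθ i, hθ k, cross_dirv_eq_zero_iff]
    exact ⟨n, h⟩
  have hno : ∀ V ⊆ frontier K, V.Finite → V.Nonempty →
      ¬ ∀ i, ∀ x ∈ V, chord K (dirv (θ i)) x ∈ V := by
    intro V hV hf hne hinv
    have hinv' : ∀ i, ∀ x ∈ V, chord K (w i) x ∈ V := by
      intro i x hx
      rw [hθ i]
      exact hinv i x hx
    obtain ⟨n, A, hn2, hA⟩ := gardner_mcmullen hB.cpt hB.str hB.smo hf hne hV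
      (fun m : Fin 3 => w (Fin.castLE hr m))
      (fun i j hij => hw _ _ (fun h => hij (Fin.castLE_injective hr h)))
      (fun i => hinv' _)
    refine not_determines S hn2 A (fun u hu => hA u (hS u hu) fun x hx => ?_) hd
    obtain ⟨i, c, hc, rfl⟩ := hSw u hu
    rw [chord_smul hB.clo hB.str (hV hx) hc]
    exact hinv' i x hx
  obtain ⟨Mo⟩ := exists_model hB
  obtain ⟨e, he⟩ := exists_surjective_nat (ℚ × ℕ)
  refine ⟨fun k => {t : ℝ | (N Mo.S (ext θ t) (e k).1 (1 / (((e k).2 : ℝ) + 1))).Nonempty},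
    fun k => ⟨?_, ?_⟩, fun t ht V hV hne hinv hinvt => ?_⟩
  · exact N_proj_closed Mo.S _ _ (fun t : ℝ => ext θ t) (fun l => ext_cont θ l)
  · exact null_B hB Mo θ hr hdist hno _ _ (by positivity)
  · refine Set.Subset.antisymm (closure_minimal hV isClosed_frontier) ?_
    by_contra hnd
    have hall : ∀ l : Option (Fin r), ∀ x ∈ V, chord K (dirv (ext θ t l)) x ∈ V := by
      intro l
      cases l with
      | none =>
        intro x hx
        obtain ⟨τ, hτ⟩ := chord_line K (dirv t) x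
        have h1 : chord K (dirv t) x ∈ frontier K := chord_mem (hV hx)
        change chord K (dirv t) x ∈ V
        rw [hτ] at h1 ⊢
        exact hinvt x hx τ h1
      | some i =>
        intro x hx
        obtain ⟨v, hv, c, hc, hwv⟩ := hwS i
        change chord K (dirv (θ i)) x ∈ V
        rw [← hθ i, hwv, chord_smul hB.clo hB.str (hV hx) hc]
        obtain ⟨τ, hτ⟩ := chord_line K v x
        have h1 : chord K v x ∈ frontier K := chord_mem (hV hx)
        rw [hτ] at h1 ⊢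
        exact hinv v hv x hx τ h1
    obtain ⟨β, n, hN⟩ := exists_N_of_not_dense Mo (ext θ t) V hV hne hall hnd
    obtain ⟨k, hk⟩ := he (β, n)
    refine ht k ?_
    rw [Set.mem_ofPred_eq, hk]
    exact hN

end AD
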