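import Pool.Agent.Helper45.AD.LineAng

set_option autoImplicit false

/-!
# AD-G4: continuity and monotonicity of the line angle

PROOF of `Th_cont`.  At a point `(x₀, y₀)` with `y₀ - x₀` not an integer: the denominator
`inner (dirv (π (x₀ + y₀))) (bp K y₀ - bp K x₀)` is not zero, and the formula is continuous
(`bp_cont`, `dirv_cont`, `ContinuousAt.div`, `Real.continuous_arctan`).  [Denominator not zero:
otherwise, `v = bp K y₀ - bp K x₀ ≠ 0`, the quotient is `0` (division by zero), so
`Th K x₀ y₀ = π (x₀ + y₀)`, and `Th_line` gives `cross e v = 0` too, so `v = inner e v • e = 0` by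
`eq_smul_of_cross`, contradiction with `bp_eq_iff`.]
At a point with `y₀ = x₀ + k`: for all `(x, y)`,
`|Th K x y - π (x + y)| ≤ π * |y - k - x|` (`Th_near` for `(x, y - k)` and `Th_add_int`:
`Th K x (y - k) = Th K x y - k π`), which tends to `0`; and `Th K x₀ y₀ = π (x₀ + y₀)` by the same
inequality; squeeze.

PROOF of `Th_strictMono`.  `Th K x` is continuous and injective, so strictly monotone or strictly
antitone (`Continuous.strictMono_of_inj`), and `Th K x (y + 1) = Th K x y + π` excludes antitone.
Injectivity: let `Th K x y = Th K x y' = τ`, so `cross (dirv τ) (bp K y - bp K x) = 0` and the same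
for `y'` (`Th_line`).
If `bp K y = bp K y'` then `y = y' + k` and `Th_add_int` gives `k π = 0`, `k = 0`.
If `bp K y ≠ bp K y'`, and both are different from `bp K x`: three distinct boundary points on a
line (`cross_ne_zero_of_distinct`; both differences are multiples of `dirv τ`, `eq_smul_of_cross`,
so their cross product is `0`), impossible.
If `bp K y = bp K x` (the case `bp K y' = bp K x` is symmetric): `y = x + k`,
`τ = Th K x x + k π = 2 π x + k π` (`Th_self`), `dirv τ = ± dirv (2 π x)`
(`dirv_add_int_pi`), so `cross (dirv (2 π x)) (bp K y' - bp K x) = 0`, but it is positive by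
`bp_spec`, as `bp K y' ≠ bp K y = bp K x`.

PROOF of `bp_ccw`.  `x < y < z < x + 1`: by `Th_dir` both differences are positive multiples of
`dirv (Th K x y)`, `dirv (Th K x z)`, and
`2 π x = Th K x x < Th K x y < Th K x z < Th K x (x + 1) = 2 π x + π` (`Th_strictMono`,
`Th_self`, `Th_add_int`), so the cross product is a positive multiple of
`sin (Th K x z - Th K x y) > 0` (`cross_dirv`, `Real.sin_pos_of_pos_of_lt_pi`).  The norms are
positive by `bp_eq_iff`.
-/

namespace AD

open ChordMaps

variable {K : Set Plane}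

private theorem cross_smul_smul (a b : ℝ) (u v : Plane) :
    cross (a • u) (b • v) = a * b * cross u v := by
  simp [cross]
  ring

private theorem cross_smul_left' (a : ℝ) (u v : Plane) :
    cross (a • u) v = a * cross u v := by
  simp [cross]
  ring

private theorem cross_sub_right' (u v w : Plane) :
    cross u (v - w) = cross u v - cross u w := by
  simp [cross]
  ring

private theorem int_not_mem {k : ℤ} (h0 : (0 : ℝ) < k) (h1 : (k : ℝ) < 1) : False := by
  have h2 : (0 : ℤ) < k := by exact_mod_cast h0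
  have h3 : k < 1 := by exact_mod_cast h1
  omega

theorem Th_cont (hB : SBody K) : Continuous (fun q : ℝ × ℝ => Th K q.1 q.2) := by
  rw [continuous_iff_continuousAt]
  rintro ⟨x₀, y₀⟩
  by_cases hint : ∃ k : ℤ, y₀ = x₀ + k
  · obtain ⟨k, hk⟩ := hint
    have hle : ∀ q : ℝ × ℝ, ‖Th K q.1 q.2 - Real.pi * (q.1 + q.2)‖ ≤
        Real.pi * |q.2 - k - q.1| := by
      intro q
      have h1 := Th_near hB q.1 (q.2 - k)
      have h2 := Th_add_int hB q.1 (q.2 - k) k
      rw [sub_add_cancel] at h2
      rw [Real.norm_eq_abs, h2]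
      have h3 : Th K q.1 (q.2 - k) + k * Real.pi - Real.pi * (q.1 + q.2) =
          Th K q.1 (q.2 - k) - Real.pi * (q.1 + (q.2 - k)) := by ring
      rw [h3]
      exact h1
    have hz : Filter.Tendsto (fun q : ℝ × ℝ => Real.pi * |q.2 - k - q.1|)
        (nhds (x₀, y₀)) (nhds 0) := by
      have hc : Continuous (fun q : ℝ × ℝ => Real.pi * |q.2 - k - q.1|) := by fun_prop
      have h4 := hc.tendsto (x₀, y₀)
      have h5 : Real.pi * |y₀ - k - x₀| = 0 := by
        rw [hk]
        have : x₀ + (k : ℝ) - k - x₀ = 0 := by ring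
        rw [this, abs_zero, mul_zero]
      simp only [h5] at h4
      exact h4
    have ht := squeeze_zero_norm hle hz
    have hc2 : Filter.Tendsto (fun q : ℝ × ℝ => Real.pi * (q.1 + q.2))
        (nhds (x₀, y₀)) (nhds (Real.pi * (x₀ + y₀))) := by
      have hc : Continuous (fun q : ℝ × ℝ => Real.pi * (q.1 + q.2)) := by fun_prop
      exact hc.tendsto (x₀, y₀)
    have h6 := ht.add hc2
    have h7 : Th K x₀ y₀ = Real.pi * (x₀ + y₀) := by
      have h8 := hle (x₀, y₀)
      simp only at h8
      have h5 : y₀ - k - x₀ = 0 := by rw [hk]; ring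
      rw [h5, abs_zero, mul_zero] at h8
      have h9 := norm_le_zero_iff.1 h8
      linarith
    rw [ContinuousAt]
    simp only
    rw [h7]
    have h8 : (fun q : ℝ × ℝ => Th K q.1 q.2) =
        fun q : ℝ × ℝ => (Th K q.1 q.2 - Real.pi * (q.1 + q.2)) + Real.pi * (q.1 + q.2) := by
      funext q
      ring
    rw [h8]
    simpa using h6
  · have hv : bp K y₀ - bp K x₀ ≠ 0 := by
      intro h
      exact hint ((bp_eq_iff hB y₀ x₀).1 (sub_eq_zero.1 h))
    have hden : (inner ℝ (dirv (Real.pi * (x₀ + y₀))) (bp K y₀ - bp K x₀) : ℝ) ≠ 0 := by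
      intro h
      have h1 : Th K x₀ y₀ = Real.pi * (x₀ + y₀) := by
        rw [Th, h, div_zero, Real.arctan_zero, add_zero]
      have h2 := Th_line hB x₀ y₀
      rw [h1] at h2
      have h3 := eq_smul_of_cross _ h2
      rw [h, zero_smul] at h3
      exact hv h3
    have hd : Continuous (fun q : ℝ × ℝ => dirv (Real.pi * (q.1 + q.2))) :=
      dirv_cont.comp (by fun_prop)
    have hb : Continuous (fun q : ℝ × ℝ => bp K q.2 - bp K q.1) :=
      ((bp_cont hB).comp continuous_snd).sub ((bp_cont hB).comp continuous_fst)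
    have hco : ∀ i : Fin 2, Continuous (fun v : Plane => v i) := by
      intro i
      fun_prop
    have hnum : Continuous (fun q : ℝ × ℝ =>
        cross (dirv (Real.pi * (q.1 + q.2))) (bp K q.2 - bp K q.1)) := by
      unfold cross
      exact (((hco 0).comp hd).mul ((hco 1).comp hb)).sub (((hco 1).comp hd).mul ((hco 0).comp hb))
    have hinn : Continuous (fun q : ℝ × ℝ =>
        (inner ℝ (dirv (Real.pi * (q.1 + q.2))) (bp K q.2 - bp K q.1) : ℝ)) := hd.inner hb
    have hpi : Continuous (fun q : ℝ × ℝ => Real.pi * (q.1 + q.2)) := by fun_prop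
    have hq : ContinuousAt (fun q : ℝ × ℝ =>
        cross (dirv (Real.pi * (q.1 + q.2))) (bp K q.2 - bp K q.1) /
          (inner ℝ (dirv (Real.pi * (q.1 + q.2))) (bp K q.2 - bp K q.1) : ℝ)) (x₀, y₀) :=
      hnum.continuousAt.div hinn.continuousAt hden
    have ha : ContinuousAt (fun q : ℝ × ℝ => Real.arctan
        (cross (dirv (Real.pi * (q.1 + q.2))) (bp K q.2 - bp K q.1) /
          (inner ℝ (dirv (Real.pi * (q.1 + q.2))) (bp K q.2 - bp K q.1) : ℝ))) (x₀, y₀) :=
      ContinuousAt.comp (g := Real.arctan) Real.continuous_arctan.continuousAt hq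
    exact hpi.continuousAt.add ha

private theorem Th_inj_aux (hB : SBody K) {x y y' : ℝ} (h : Th K x y = Th K x y')
    (h1 : bp K y = bp K x) (h2 : bp K y' ≠ bp K x) : False := by
  obtain ⟨k, hk⟩ := (bp_eq_iff hB y x).1 h1
  have h3 : Th K x y = 2 * Real.pi * x + k * Real.pi := by
    rw [hk, Th_add_int hB, Th_self]
  have h4 := Th_line hB x y'
  rw [← h, h3, dirv_add_int_pi, cross_smul_left'] at h4
  have h5 : ((-1 : ℝ) ^ k) ≠ 0 := zpow_ne_zero _ (by norm_num)
  have h6 := (mul_eq_zero.1 h4).resolve_left h5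
  rw [cross_sub_right'] at h6
  have h7 := (bp_spec hB x).2 (bp K y') ((bp_spec hB y').1) h2
  linarith

private theorem Th_inj (hB : SBody K) (x : ℝ) : Function.Injective (Th K x) := by
  intro y y' h
  by_cases h0 : bp K y = bp K y'
  · obtain ⟨k, hk⟩ := (bp_eq_iff hB y y').1 h0
    rw [hk, Th_add_int hB] at h
    have h1 : (k : ℝ) * Real.pi = 0 := by linarith
    have h2 : (k : ℝ) = 0 := (mul_eq_zero.1 h1).resolve_right Real.pi_ne_zero
    rw [hk, h2, add_zero]
  · exfalso
    by_cases h1 : bp K y = bp K x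
    · exact Th_inj_aux hB h h1 (fun h2 => h0 (h1.trans h2.symm))
    · by_cases h2 : bp K y' = bp K x
      · exact Th_inj_aux hB h.symm h2 h1
      · have h3 := Th_line hB x y
        have h4 := Th_line hB x y'
        rw [← h] at h4
        have h5 := eq_smul_of_cross _ h3
        have h6 := eq_smul_of_cross _ h4
        have h7 := cross_ne_zero_of_distinct hB.clo hB.str (bp_mem hB x) (bp_mem hB y)
          (bp_mem hB y') (Ne.symm h1) h2 (Ne.symm h0)
        apply h7
        rw [h5, h6, cross_smul_smul, cross_dirv, sub_self, Real.sin_zero, mul_zero]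

theorem Th_strictMono (hB : SBody K) (x : ℝ) : StrictMono (Th K x) := by
  have hc : Continuous (Th K x) :=
    (Th_cont hB).comp (continuous_const.prodMk continuous_id)
  rcases hc.strictMono_of_inj (Th_inj hB x) with h | h
  · exact h
  · exfalso
    have h1 : Th K x (x + 1) < Th K x x := h (by linarith)
    have h2 := Th_add_int hB x x 1
    rw [Int.cast_one, one_mul] at h2
    have := Real.pi_pos
    linarith

theorem bp_ccw (hB : SBody K) {x y z : ℝ} (h1 : x < y) (h2 : y < z) (h3 : z < x + 1) :
    0 < cross (bp K y - bp K x) (bp K z - bp K x) := by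
  have hy := Th_dir hB h1 (h2.trans h3)
  have hz := Th_dir hB (h1.trans h2) h3
  have hne : ∀ w, x < w → w < x + 1 → 0 < ‖bp K w - bp K x‖ := by
    intro w hw1 hw2
    rw [norm_pos_iff]
    intro h
    obtain ⟨k, hk⟩ := (bp_eq_iff hB w x).1 (sub_eq_zero.1 h)
    exact int_not_mem (k := k) (by linarith) (by linarith)
  rw [hy, hz, cross_smul_smul, cross_dirv]
  have m1 := Th_strictMono hB x h1
  have m2 := Th_strictMono hB x h2
  have m3 := Th_strictMono hB x h3
  have m4 := Th_add_int hB x x 1
  rw [Int.cast_one, one_mul] at m4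
  refine mul_pos (mul_pos (hne y h1 (h2.trans h3)) (hne z (h1.trans h2) h3)) ?_
  exact Real.sin_pos_of_pos_of_lt_pi (by linarith) (by linarith)

end AD
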