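import Pool.Agent.Helper45.AD.WBasic
import Pool.Agent.Helper45.AD.ThMono
import Pool.Agent.Helper45.AD.FTh
import Pool.Agent.Helper45.AD.ArcLen

set_option autoImplicit false

/-!
# AD-G7: the chord system of a smooth strictly convex body

PROOF.  `F` from `exists_F (Th K) (Th_cont hB) (Th_symm K) (Th_add_int with k = 1)
(Th_strictMono hB)`; `V` from `exists_V`; `s t x = ‖bp K (F t x) - bp K x‖`.
* `s_cont`: `bp_cont`, continuity of `F`.  `s_zero`: `bp K (F t x) = bp K x` and `bp_eq_iff`.
* `s_per`, `s_perT`: `F t (x + 1) = F t x - 1`, `F (t + π) x = F t x + 1`, and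
  `bp K (y + k) = bp K y` (`bp_eq_iff`).
* `expand`: let `y = F t x`, `z = F t' y`.  `x = F t y ≤ z` (`F` is increasing in the angle), so
  `‖bp K z - bp K x‖ ≤ V z - V x`.  `Th K x y = t`, so `bp K x - bp K y = c • dirv t` with
  `c = inner (dirv t) (bp K x - bp K y)` (`Th_line`, `eq_smul_of_cross`; the sign: `Th_line` has
  `bp K y - bp K x`), `|c| = s t x`.  `Th K y z = t'`, so
  `cross (dirv t') (bp K z - bp K y) = 0`.  Hence
  `cross (dirv t') (bp K z - bp K x) = - cross (dirv t') (bp K x - bp K y)
   = - c * sin (t - t')`, of absolute value `s t x * sin (t' - t)` (`0 ≤ t' - t ≤ 1`), and it is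
  at most `‖bp K z - bp K x‖` (`abs_cross_le`, `norm_dirv`).  Finally
  `sin u ≥ u / 2` for `0 ≤ u ≤ 1` (`Real.mul_le_sin`: `2 / π * u ≤ sin u`, and `π < 4`).
* `p_chord`: if `F t x - x` is not an integer: `bp K (F t x) ≠ bp K x` is a boundary point on the
  line through `bp K x` with direction `dirv t` (`Th_line`, `eq_smul_of_cross`), so `chord_eq`.
  If `F t x = x + k`: `t = Th K x (x + k) = 2 π x + k π`, so `cross (dirv t) (tang K (bp K x)) =
  cross (dirv t) (dirv (2 π x)) = 0` (`bp_tang`, `cross_dirv_eq_zero_iff`), and `chord_eq_iff`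
  gives `chord K (dirv t) (bp K x) = bp K x = bp K (F t x)`.
* `p_ccw` is `bp_ccw`.
-/

namespace AD

open ChordMaps

/-- a chord system together with the parametrisation `p` of the boundary of `K` -/
structure Model (K : Set Plane) where
  S : Sys
  p : ℝ → Plane
  p_cont : Continuous p
  p_mem : ∀ x, p x ∈ frontier K
  p_surj : ∀ q ∈ frontier K, ∃ x, p x = q
  p_eq : ∀ x y, p x = p y ↔ ∃ k : ℤ, x = y + k
  p_ccw : ∀ x y z, x < y → y < z → z < x + 1 → 0 < cross (p y - p x) (p z - p x)
  p_chord : ∀ t x, chord K (dirv t) (p x) = p (S.F t x)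

theorem exists_model {K : Set Plane} (hB : SBody K) : Nonempty (Model K) := by
  classical
  obtain ⟨F, hT, hFc, hFa, hFm, hFp, hFi, hFT⟩ := exists_F (Th K) (Th_cont hB) (Th_symm K)
    (fun x y => by have := Th_add_int hB x y 1; push_cast at this; rw [this]; ring)
    (Th_strictMono hB)
  obtain ⟨V, hV, hVle⟩ := exists_V hB
  have hline : ∀ t x, bp K (F t x) - bp K x =
      inner ℝ (dirv t) (bp K (F t x) - bp K x) • dirv t := by
    intro t x
    apply eq_smul_of_cross
    have h := Th_line hB x (F t x)
    rwa [hT] at h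
  have hper : ∀ y (k : ℤ), bp K (y + k) = bp K y := fun y k =>
    (bp_eq_iff hB _ _).2 ⟨k, rfl⟩
  refine ⟨{
    S := {
      F := F
      cont := hFc
      anti := hFa
      mono := hFm
      per := hFp
      inv := hFi
      perT := hFT
      V := V
      Vmono := hV
      s := fun t x => ‖bp K (F t x) - bp K x‖
      s_cont := ?_
      s_nonneg := fun t x => norm_nonneg _
      s_zero := ?_
      s_per := ?_
      s_perT := ?_
      expand := ?_ }
    p := bp K
    p_cont := bp_cont hB
    p_mem := bp_mem hB
    p_surj := fun q hq => bp_surj hB hq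
    p_eq := bp_eq_iff hB
    p_ccw := fun x y z h1 h2 h3 => bp_ccw hB h1 h2 h3
    p_chord := ?_ }⟩
  · exact (((bp_cont hB).comp hFc).sub ((bp_cont hB).comp continuous_snd)).norm
  · intro t x h
    have h1 : bp K (F t x) = bp K x := sub_eq_zero.1 (norm_eq_zero.1 h)
    exact (bp_eq_iff hB _ _).1 h1
  · intro t x
    beta_reduce
    rw [hFp]
    have h1 := hper (F t x) (-1)
    have h2 := hper x 1
    push_cast at h1 h2
    rw [h2, show F t x - 1 = F t x + -1 by ring, h1]
  · intro t x
    beta_reduce
    rw [hFT]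
    have h1 := hper (F t x) 1
    push_cast at h1
    rw [h1]
  · intro t t' x h1 h2
    beta_reduce
    set y := F t x with hy
    set z := F t' y with hz
    have hxy : F t y = x := by rw [hy]; exact hFi t x
    have hxz : x ≤ z := by
      rw [← hxy, hz]
      exact (hFm y).monotone h1
    have hVz := hVle x z hxz
    have hl := hline t x
    rw [← hy] at hl
    set c : ℝ := inner ℝ (dirv t) (bp K y - bp K x) with hc
    have hcn : ‖bp K y - bp K x‖ = |c| := by
      rw [hl, norm_smul, norm_dirv, mul_one, Real.norm_eq_abs]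
    have hyz : cross (dirv t') (bp K z - bp K y) = 0 := by
      have h := Th_line hB y z
      rwa [hz, hT] at h
    have hcr : cross (dirv t') (bp K z - bp K x) = c * Real.sin (t - t') := by
      have : bp K z - bp K x = (bp K z - bp K y) + (bp K y - bp K x) := by abel
      rw [this, cross_add_right, hyz, zero_add, hl, cross_smul_right, cross_dirv]
    have habs := abs_cross_le (dirv t') (bp K z - bp K x)
    rw [norm_dirv, one_mul, hcr, abs_mul] at habs
    have hsin : (t' - t) / 2 ≤ |Real.sin (t - t')| := by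
      have h3 : Real.sin (t - t') = - Real.sin (t' - t) := by
        rw [← Real.sin_neg]; congr 1; ring
      rw [h3, abs_neg]
      have h0 : 0 ≤ t' - t := by linarith
      have hle : t' - t ≤ Real.pi / 2 := by
        have := Real.pi_gt_three
        linarith
      have h4 := Real.mul_le_sin h0 hle
      have h5 : (1 : ℝ) / 2 ≤ 2 / Real.pi := by
        rw [div_le_div_iff₀ (by norm_num) Real.pi_pos]
        have := Real.pi_lt_four
        linarith
      calc (t' - t) / 2 = 1 / 2 * (t' - t) := by ring
        _ ≤ 2 / Real.pi * (t' - t) := mul_le_mul_of_nonneg_right h5 h0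
        _ ≤ Real.sin (t' - t) := h4
        _ ≤ |Real.sin (t' - t)| := le_abs_self _
    rw [hcn]
    have h6 : |c| * ((t' - t) / 2) ≤ |c| * |Real.sin (t - t')| :=
      mul_le_mul_of_nonneg_left hsin (abs_nonneg c)
    linarith
  · intro t x
    beta_reduce
    by_cases h : ∃ k : ℤ, F t x = x + k
    · obtain ⟨k, hk⟩ := h
      have h1 : bp K (F t x) = bp K x := by rw [hk]; exact hper x k
      rw [h1, chord_eq_iff hB (bp_mem hB x) (dirv_ne t), bp_tang hB, cross_dirv_eq_zero_iff]
      refine ⟨k, ?_⟩
      have h2 := hT t x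
      rw [hk, Th_add_int hB, Th_self] at h2
      exact h2.symm
    · have hne : bp K (F t x) ≠ bp K x := fun h1 => h ((bp_eq_iff hB _ _).1 h1)
      refine chord_eq hB.clo hB.str (bp_mem hB x) (bp_mem hB _) hne
        ⟨inner ℝ (dirv t) (bp K (F t x) - bp K x), ?_⟩
      rw [← hline t x]
      abel

end AD
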