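import Pool.Agent.Helper45.AD.Dir

set_option autoImplicit false

/-!
# AD-G2: parametrisation of the boundary by the tangent angle

`bp K x` is the boundary point of `K` whose counterclockwise tangent vector is `dirv (2 π x)`.

PROOFS. `bp_spec`: `K` is compact and nonempty, so the continuous function
`cross (dirv (2 π x))` has a minimum point `q`; it is the only one: if `z ∈ K`, `z ≠ q` has the same
value then the midpoint is in `interior K` (`StrictConvex`, `hB.str hz hq hne ...`) and has the same
value, so a neighbourhood contains a point with a smaller value (move the interior point `m` to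
`m - s • rot (dirv (2 π x))` with small `s > 0`: `cross u (rot u) = ‖u‖ ^ 2 = 1`, `cross_rot`).
`bp_mem`: `bp K x ∈ K` and not in the interior (same argument), `mem_frontier_of`.
`bp_tang`: `tang_unique` with `T = dirv (2 π x)`, `norm_dirv`.
`bp_surj`: for `q ∈ frontier K` take `t` with `tang K q = ‖tang K q‖ • dirv t = dirv t`
(`exists_angle`, `tang_spec`), `x = t / (2 π)`; `q` is the minimum point by `tang_spec`, so by the
uniqueness in `bp_spec` (`bp_lt` : if `q ≠ bp K x` then the value at `q` is bigger) `q = bp K x`.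
`bp_eq_iff`: if `bp K x = bp K y` then `dirv (2 π x) = tang = dirv (2 π y)` (`bp_tang`), so
`dirv_eq_iff`.  Conversely `dirv (2 π (y + k)) = dirv (2 π y)` and the definition of `bp` only
depends on this vector (`simp only [bp]`, rewrite), or use `bp_lt` twice.
`bp_cont`: sequences: `x n → x`; every subsequence of `bp K (x n)` has a further subsequence
converging to some `q ∈ K` (compactness; `tendsto_of_subseq_tendsto`, `IsCompact.tendsto_subseq`,
as in the proof of `tang_continuousOn` in `Helper3/LS/L01.lean`), and passing to the limit in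
`cross (dirv (2 π x n)) (bp K (x n)) ≤ cross (dirv (2 π x n)) z` (`continuous_cross`, `dirv_cont`)
gives `cross (dirv (2 π x)) q ≤ cross (dirv (2 π x)) z` for all `z ∈ K`, so `q = bp K x`.
-/

namespace AD

open ChordMaps

variable {K : Set Plane}

open Classical in
/-- the boundary point with tangent angle `2 π x` -/
noncomputable def bp (K : Set Plane) (x : ℝ) : Plane :=
  if h : ∃ q ∈ K, ∀ z ∈ K, z ≠ q →
    cross (dirv (2 * Real.pi * x)) q < cross (dirv (2 * Real.pi * x)) z then h.choose else 0

private theorem par_low (u m : Plane) (hu : u ≠ 0) (hm : m ∈ interior K) :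
    ∃ z ∈ K, cross u z < cross u m := by
  have hpos : 0 < cross u (rot u) := by
    have h1 : cross u (rot u) = u 0 ^ 2 + u 1 ^ 2 := by
      simp [cross, rot]
      ring
    rw [h1]
    by_contra h2
    push Not at h2
    have h3 : u 0 = 0 := by nlinarith [sq_nonneg (u 0), sq_nonneg (u 1)]
    have h4 : u 1 = 0 := by nlinarith [sq_nonneg (u 0), sq_nonneg (u 1)]
    apply hu
    ext i
    fin_cases i
    · simpa using h3
    · simpa using h4
  have hc : Continuous fun s : ℝ => m - s • rot u := by fun_prop
  have h1 : ∀ᶠ s in nhds (0 : ℝ), m - s • rot u ∈ interior K := by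
    apply hc.continuousAt.eventually_mem
    apply isOpen_interior.mem_nhds
    rw [zero_smul, sub_zero]
    exact hm
  obtain ⟨ε, hε, h2⟩ := Metric.eventually_nhds_iff.1 h1
  refine ⟨m - (ε / 2) • rot u, interior_subset (h2 ?_), ?_⟩
  · rw [Real.dist_eq, sub_zero, abs_of_pos (by positivity)]
    linarith
  · rw [cross_sub_right, cross_smul_right]
    have : 0 < ε / 2 * cross u (rot u) := by positivity
    linarith

theorem bp_spec (hB : SBody K) (x : ℝ) : bp K x ∈ K ∧ ∀ z ∈ K, z ≠ bp K x →
    cross (dirv (2 * Real.pi * x)) (bp K x) < cross (dirv (2 * Real.pi * x)) z := by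
  classical
  obtain ⟨q, hq, hmin⟩ := hB.cpt.exists_isMinOn (f := fun z => cross (dirv (2 * Real.pi * x)) z)
    (hB.int.mono interior_subset)
    (Continuous.continuousOn (continuous_cross.comp (continuous_const.prodMk continuous_id)))
  have hmin' : ∀ z ∈ K, cross (dirv (2 * Real.pi * x)) q ≤ cross (dirv (2 * Real.pi * x)) z :=
    fun z hz => isMinOn_iff.1 hmin z hz
  have hex : ∃ q ∈ K, ∀ z ∈ K, z ≠ q →
      cross (dirv (2 * Real.pi * x)) q < cross (dirv (2 * Real.pi * x)) z := by
    refine ⟨q, hq, fun z hz hne => lt_of_le_of_ne (hmin' z hz) fun heq => ?_⟩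
    have hmid : (1 / 2 : ℝ) • q + (1 / 2 : ℝ) • z ∈ interior K :=
      hB.str hq hz (Ne.symm hne) (by norm_num) (by norm_num) (by norm_num)
    obtain ⟨w, hw, hlt⟩ := par_low (dirv (2 * Real.pi * x)) _ (dirv_ne _) hmid
    rw [cross_add_right, cross_smul_right, cross_smul_right, ← heq] at hlt
    have := hmin' w hw
    linarith
  unfold bp
  rw [dif_pos hex]
  exact hex.choose_spec

theorem bp_le (hB : SBody K) (x : ℝ) {z : Plane} (hz : z ∈ K) :
    cross (dirv (2 * Real.pi * x)) (bp K x) ≤ cross (dirv (2 * Real.pi * x)) z := by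
  by_cases h : z = bp K x
  · rw [h]
  · exact ((bp_spec hB x).2 z hz h).le

theorem bp_mem (hB : SBody K) (x : ℝ) : bp K x ∈ frontier K := by
  refine mem_frontier_of hB.clo (bp_spec hB x).1 fun hm => ?_
  obtain ⟨z, hz, hlt⟩ := par_low (dirv (2 * Real.pi * x)) _ (dirv_ne _) hm
  exact absurd (bp_le hB x hz) (not_le.2 hlt)

theorem bp_tang (hB : SBody K) (x : ℝ) : tang K (bp K x) = dirv (2 * Real.pi * x) := by
  have h := tang_unique hB (bp_mem hB x) (dirv_ne (2 * Real.pi * x)) (fun z hz => by
    rw [cross_sub_right]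
    have := bp_le hB x hz
    linarith)
  rw [norm_dirv, one_smul] at h
  exact h.symm

theorem bp_surj (hB : SBody K) {q : Plane} (hq : q ∈ frontier K) : ∃ x, bp K x = q := by
  obtain ⟨t, ht⟩ := exists_angle (tang K q)
  obtain ⟨h1, h2⟩ := tang_spec hB hq
  rw [h1, one_smul] at ht
  refine ⟨t / (2 * Real.pi), ?_⟩
  have hx : 2 * Real.pi * (t / (2 * Real.pi)) = t := by
    field_simp
  by_contra hne
  have h3 := (bp_spec hB (t / (2 * Real.pi))).2 q (hB.clo.frontier_subset hq) (Ne.symm hne)
  have h4 := h2 _ (bp_spec hB (t / (2 * Real.pi))).1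
  rw [hx] at h3
  rw [ht, cross_sub_right] at h4
  linarith

theorem bp_eq_iff (hB : SBody K) (x y : ℝ) : bp K x = bp K y ↔ ∃ k : ℤ, x = y + k := by
  constructor
  · intro h
    have h1 : dirv (2 * Real.pi * x) = dirv (2 * Real.pi * y) := by
      rw [← bp_tang hB x, ← bp_tang hB y, h]
    obtain ⟨k, hk⟩ := (dirv_eq_iff _ _).1 h1
    refine ⟨k, ?_⟩
    have hpi : (2 * Real.pi) ≠ 0 := by positivity
    apply mul_left_cancel₀ hpi
    linarith
  · rintro ⟨k, rfl⟩
    have h1 : dirv (2 * Real.pi * (y + k)) = dirv (2 * Real.pi * y) :=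
      (dirv_eq_iff _ _).2 ⟨k, by ring⟩
    by_contra hne
    have h2 := (bp_spec hB (y + k)).2 _ (bp_spec hB y).1 (Ne.symm hne)
    have h3 := (bp_spec hB y).2 _ (bp_spec hB (y + k)).1 hne
    rw [h1] at h2
    linarith

theorem bp_cont (hB : SBody K) : Continuous (bp K) := by
  rw [continuous_iff_continuousAt]
  intro x
  rw [ContinuousAt, Filter.tendsto_iff_seq_tendsto]
  intro y hy
  refine Filter.tendsto_of_subseq_tendsto fun ns hns => ?_
  obtain ⟨q, hqK, φ, hφ, hT⟩ := hB.cpt.tendsto_subseq (x := fun n => bp K (y (ns n)))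
    (fun n => (bp_spec hB _).1)
  refine ⟨φ, ?_⟩
  have hy' : Filter.Tendsto (fun n => y (ns (φ n))) Filter.atTop (nhds x) :=
    hy.comp (hns.comp hφ.tendsto_atTop)
  have hd : Filter.Tendsto (fun n => dirv (2 * Real.pi * y (ns (φ n)))) Filter.atTop
      (nhds (dirv (2 * Real.pi * x))) := (dirv_cont.tendsto _).comp (hy'.const_mul _)
  have hle : ∀ z ∈ K, cross (dirv (2 * Real.pi * x)) q ≤ cross (dirv (2 * Real.pi * x)) z := by
    intro z hz
    have h1 : Filter.Tendsto (fun n => cross (dirv (2 * Real.pi * y (ns (φ n))))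
        (bp K (y (ns (φ n))))) Filter.atTop (nhds (cross (dirv (2 * Real.pi * x)) q)) :=
      (continuous_cross.tendsto (dirv (2 * Real.pi * x), q)).comp (hd.prodMk_nhds hT)
    have h2 : Filter.Tendsto (fun n => cross (dirv (2 * Real.pi * y (ns (φ n)))) z)
        Filter.atTop (nhds (cross (dirv (2 * Real.pi * x)) z)) :=
      (continuous_cross.tendsto (dirv (2 * Real.pi * x), z)).comp
        (hd.prodMk_nhds tendsto_const_nhds)
    exact le_of_tendsto_of_tendsto' h1 h2 fun n => bp_le hB _ hz
  have hq : q = bp K x := by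
    by_contra hne
    exact absurd (hle _ (bp_spec hB x).1) (not_le.2 ((bp_spec hB x).2 q hqK hne))
  rw [← hq]
  exact hT

end AD
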