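import Pool.Agent.Helper45.AD.WBasic

set_option autoImplicit false

/-! # AD-03: the sign lemma for alternating loops -/

namespace AD

variable {r : ℕ}

theorem ext_le (S : Sys) (θ : Fin r → ℝ) {t t' x x' : ℝ} (ht : t ≤ t') (hx : x' ≤ x)
    (l : Option (Fin r)) : S.F (ext θ t l) x ≤ S.F (ext θ t' l) x' := by
  have h1 : S.F (ext θ t l) x ≤ S.F (ext θ t l) x' := (S.anti _).antitone hx
  refine h1.trans ?_
  cases l with
  | none => exact (S.mono x').monotone ht
  | some i => exact le_refl _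

theorem alt_le (S : Sys) (θ : Fin r → ℝ) {w : List (Option (Fin r))} (hw : Alt w)
    {t t' x x' : ℝ} (ht : t ≤ t') (hx : x' ≤ x) :
    W S (ext θ t') w x' ≤ W S (ext θ t) w x := by
  induction hw generalizing x x' with
  | nil => exact hx
  | cons l i w _ ih =>
    simp only [W_cons]
    exact ih ((S.anti (θ i)).antitone (ext_le S θ ht hx l))

theorem alt_lt (S : Sys) (θ : Fin r → ℝ) {w : List (Option (Fin r))} (hw : Alt w)
    {t t' x x' : ℝ} (ht : t ≤ t') (hx : x' < x) :
    W S (ext θ t') w x' < W S (ext θ t) w x := by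
  refine (alt_le S θ hw ht (le_refl x')).trans_lt ?_
  induction hw generalizing x x' with
  | nil => exact hx
  | cons l i w _ ih =>
    simp only [W_cons]
    exact ih ((S.anti (θ i)) ((S.anti _) hx))

/-- first part of the sign lemma: the first letter of the loop -/
theorem sign_core (S : Sys) (θ : Fin r → ℝ) {i : Fin r} {w : List (Option (Fin r))} {n : ℤ}
    {t t' c c' : ℝ} (ht : t ≤ t') (h : Loop S θ t c i w n) (h' : Loop S θ t' c' i w n)
    (hF : S.F t c < S.F t' c') : c' < c := by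
  have e : W S (ext θ t) w (S.F (θ i) (S.F t c)) = c + n := h.2
  have e' : W S (ext θ t') w (S.F (θ i) (S.F t' c')) = c' + n := h'.2
  have h1 := alt_lt S θ h.1 ht ((S.anti (θ i)) hF)
  rw [e, e'] at h1
  linarith

theorem sign_core' (S : Sys) (θ : Fin r → ℝ) {i : Fin r} {w : List (Option (Fin r))} {n : ℤ}
    {t t' c c' : ℝ} (ht : t ≤ t') (h : Loop S θ t c i w n) (h' : Loop S θ t' c' i w n)
    (hF : S.F t c ≤ S.F t' c') : c' ≤ c := by
  have e : W S (ext θ t) w (S.F (θ i) (S.F t c)) = c + n := h.2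
  have e' : W S (ext θ t') w (S.F (θ i) (S.F t' c')) = c' + n := h'.2
  have h1 := alt_le S θ h.1 ht ((S.anti (θ i)).antitone hF)
  rw [e, e'] at h1
  linarith

theorem sign_ne (S : Sys) (θ : Fin r → ℝ) {i : Fin r} {w : List (Option (Fin r))} {n : ℤ}
    {t t' c c' : ℝ} (ht : t < t') (h : Loop S θ t c i w n) (h' : Loop S θ t' c' i w n) :
    c ≠ c' := by
  rintro rfl
  exact lt_irrefl _ (sign_core S θ ht.le h h' (S.mono c ht))

theorem sign_lt (S : Sys) (θ : Fin r → ℝ) {i : Fin r} {w : List (Option (Fin r))} {n : ℤ}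
    {t t' c c' : ℝ} (ht : t ≤ t') (h : Loop S θ t c i w n) (h' : Loop S θ t' c' i w n)
    (hc : c < c') : S.F t' c' < S.F t c := by
  by_contra hcon
  exact absurd (sign_core' S θ ht h h' (not_lt.1 hcon)) (not_le.2 hc)

theorem sign_V (S : Sys) (θ : Fin r → ℝ) {i : Fin r} {w : List (Option (Fin r))} {n : ℤ}
    {t t' c c' : ℝ} (ht : t ≤ t') (ht1 : t' ≤ t + 1) (h : Loop S θ t c i w n)
    (h' : Loop S θ t' c' i w n) (hc : c < c') :
    S.s t c * (t' - t) ≤ 2 * (S.V c' - S.V c) := by
  have h1 := sign_lt S θ ht h h' hc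
  have h2 := S.anti t' h1
  rw [S.inv] at h2
  have h3 := S.Vmono h2
  have h4 := S.expand t t' c ht ht1
  linarith

end AD
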