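import Pool.Agent.Helper45.AD.Sets
import Pool.Agent.Helper45.AD.Sign

set_option autoImplicit false

/-! # AD-10b: injectivity on the base sets -/

namespace AD

variable {r : ℕ}

theorem base_inj (S : Sys) (θ : Fin r → ℝ) (β ε : ℝ) {g : List (Fin r)} {i : Fin r}
    {w : List (Option (Fin r))} {n m : ℤ} {t t' : ℝ} (ht : t ∈ Base S θ β ε g i w n m)
    (ht' : t' ∈ Base S θ β ε g i w n m)
    (h : aPt S (ext θ t) β ε = aPt S (ext θ t') β ε) : t = t' := by
  have ho : orb S θ β ε g t = orb S θ β ε g t' := by unfold orb; rw [h]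
  rcases lt_trichotomy t t' with hlt | heq | hlt
  · exact absurd ho (sign_ne S θ hlt ht.2.2 ht'.2.2)
  · exact heq
  · exact absurd ho.symm (sign_ne S θ hlt ht'.2.2 ht.2.2)

theorem rep_inj (S : Sys) (θ : Fin r → ℝ) (β ε : ℝ) {g₀ : List (Fin r)} {i : Fin r}
    {w : List (Option (Fin r))} {n m : ℤ} {t t' : ℝ} (ht : t ∈ Base S θ β ε g₀ i w n m)
    (ht' : t' ∈ Base S θ β ε g₀ i w n m) {g g' : List (Fin r)} (hg : t ∈ Rep S θ β ε g)
    (hg' : t' ∈ Rep S θ β ε g')
    (h : Int.fract (orb S θ β ε g t) = Int.fract (orb S θ β ε g' t')) : g = g' ∧ t = t' := by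
  have hT := aPt_eq_of_fract S θ β ε ht.1 ht'.1 h
  have e := base_inj S θ β ε ht ht' hT
  subst e
  refine ⟨?_, rfl⟩
  rcases lt_trichotomy (Encodable.encode g) (Encodable.encode g') with hlt | heq | hlt
  · exact absurd h (hg' g hlt)
  · exact Encodable.encode_injective heq
  · exact absurd h.symm (hg g' hlt)

theorem exists_rep (S : Sys) (θ : Fin r → ℝ) (β ε : ℝ) (t : ℝ) (g : List (Fin r)) :
    ∃ g', t ∈ Rep S θ β ε g' ∧
      Int.fract (orb S θ β ε g' t) = Int.fract (orb S θ β ε g t) := by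
  classical
  have hex : ∃ k : ℕ, ∃ g', Encodable.encode g' = k ∧
      Int.fract (orb S θ β ε g' t) = Int.fract (orb S θ β ε g t) := ⟨_, g, rfl, rfl⟩
  obtain ⟨g', hk, hf⟩ := Nat.find_spec hex
  refine ⟨g', fun g'' hlt heq => ?_, hf⟩
  rw [hk] at hlt
  exact Nat.find_min hex hlt ⟨g'', rfl, heq.trans hf⟩

end AD
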