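import Pool.Agent.Helper45.AD.GapMap
import Pool.Agent.Helper45.AD.APt

set_option autoImplicit false

/-!
# AD-H7: orbits of gap end points from orbits of points in the closed gap

PROOF of `three_pt`.  If `c = z` done.  If `c < z`: `z ≤ max c e`, so `e ≠ c` and `c < max c e`, so
`c = min c e`, `e = max c e`, `z ≤ e`.  `c ∈ M ∩ Iio z`, and every `x ∈ M` with `x < z` is `≤ c`
(otherwise it lies strictly between `c` and `e`), so `c = sSup (M ∩ Iio z)`
(`IsGreatest.csSup_eq`).  If `z < c`: symmetric, `IsLeast.csInf_eq`.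

PROOF of `gap_orbit_finite`.  `M = N`-type set: invariant under all letters, periodic.  Let
`c, e` be a gap of `M` and `z` in the closed gap.  For a word `g` over the letters `ι` the points
`W S θ g c`, `W S θ g e` are again a gap (`GapPair.W` below or by induction as in
`GapEnd.map`: `S.F φ` is strictly decreasing and maps `M` onto `M`), and `W S θ g z` is in the closed
gap (monotone or antitone in the word: by induction, `S.anti`).  So `W S θ g c` is one of
`sSup (M ∩ Iio z')`, `z'`, `sInf (M ∩ Ioi z')` with `z' = W S θ g z`.  For an integer `k`: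
`sSup (M ∩ Iio (z' + k)) = sSup (M ∩ Iio z') + k` (translation invariance of `M`; both sets are
nonempty and bounded, or use that the translation is an order isomorphism; for the sets that occur
here the supremum is a maximum, so one can instead argue as follows: with `k = -⌊z'⌋` the pair
`c' + k, e' + k` is a gap with `fract z' = z' + k` in its closure, so by `three_pt`
`c' + k ∈ {sSup (M ∩ Iio (fract z')), fract z', sInf (M ∩ Ioi (fract z'))}` and
`fract c' = fract (c' + k)`).  So the set of all `fract (W S θ g c)` is contained in the union of the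
images of the finite set `{fract (W S θ g z)}` under three functions. -/

namespace AD

variable {r : ℕ}

theorem three_pt {M : Set ℝ} {c e z : ℝ} (hc : c ∈ M) (hne : e ≠ c)
    (hg : ∀ x ∈ M, ¬ (min c e < x ∧ x < max c e)) (h1 : min c e ≤ z) (h2 : z ≤ max c e) :
    c = sSup (M ∩ Set.Iio z) ∨ c = z ∨ c = sInf (M ∩ Set.Ioi z) := by
  rcases lt_trichotomy c z with h | h | h
  · left
    have hce : c < e := by
      rcases lt_or_gt_of_ne hne with h' | h'
      · rw [max_eq_left h'.le] at h2
        exact absurd h (not_lt.2 h2)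
      · exact h'
    have hG : IsGreatest (M ∩ Set.Iio z) c := ⟨⟨hc, h⟩, fun x hx => by
      by_contra hx'
      refine hg x hx.1 ⟨?_, lt_of_lt_of_le hx.2 h2⟩
      rw [min_eq_left hce.le]
      exact not_le.1 hx'⟩
    exact hG.csSup_eq.symm
  · right; left; exact h
  · right; right
    have hce : e < c := by
      rcases lt_or_gt_of_ne hne with h' | h'
      · exact h'
      · rw [min_eq_left h'.le] at h1
        exact absurd h (not_lt.2 h1)
    have hG : IsLeast (M ∩ Set.Ioi z) c := ⟨⟨hc, h⟩, fun x hx => by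
      by_contra hx'
      refine hg x hx.1 ⟨lt_of_le_of_lt h1 hx.2, ?_⟩
      rw [max_eq_left hce.le]
      exact not_le.1 hx'⟩
    exact hG.csInf_eq.symm

/-- `c, e` is a gap of `M` and `z` is in the closed gap -/
private def Trip (M : Set ℝ) (c e z : ℝ) : Prop :=
  c ∈ M ∧ e ∈ M ∧ e ≠ c ∧ (∀ x ∈ M, ¬ (min c e < x ∧ x < max c e)) ∧ min c e ≤ z ∧ z ≤ max c e

private theorem Trip.map (S : Sys) (t : ℝ) {M : Set ℝ} (hM : ∀ x ∈ M, S.F t x ∈ M) {c e z : ℝ}
    (h : Trip M c e z) : Trip M (S.F t c) (S.F t e) (S.F t z) := by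
  obtain ⟨hc, he, hne, hg, h1, h2⟩ := h
  have ha := S.anti t
  have hmin : min (S.F t c) (S.F t e) = S.F t (max c e) := (ha.antitone.map_max).symm
  have hmax : max (S.F t c) (S.F t e) = S.F t (min c e) := (ha.antitone.map_min).symm
  refine ⟨hM c hc, hM e he, fun h => hne (ha.injective h), fun x hx hx' => ?_, ?_, ?_⟩
  · rw [hmin, hmax] at hx'
    refine hg (S.F t x) (hM x hx) ?_
    have h3 := ha hx'.1
    have h4 := ha hx'.2
    rw [S.inv] at h3 h4
    exact ⟨h4, h3⟩
  · rw [hmin]
    exact ha.antitone h2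
  · rw [hmax]
    exact ha.antitone h1

private theorem Trip.W (S : Sys) {ι : Type} (θ : ι → ℝ) {M : Set ℝ}
    (hM : ∀ i, ∀ x ∈ M, S.F (θ i) x ∈ M) (g : List ι) {c e z : ℝ} (h : Trip M c e z) :
    Trip M (AD.W S θ g c) (AD.W S θ g e) (AD.W S θ g z) := by
  induction g generalizing c e z with
  | nil => exact h
  | cons l w ih => exact ih (h.map S (θ l) (hM l))

private theorem Trip.add_int {M : Set ℝ} (hp : ∀ x ∈ M, ∀ k : ℤ, x + k ∈ M) {c e z : ℝ}
    (h : Trip M c e z) (k : ℤ) : Trip M (c + k) (e + k) (z + k) := by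
  obtain ⟨hc, he, hne, hg, h1, h2⟩ := h
  refine ⟨hp c hc k, hp e he k, fun h => hne (by linarith), fun x hx hx' => ?_, ?_, ?_⟩
  · refine hg (x + ((-k : ℤ) : ℝ)) (hp x hx _) ?_
    rw [min_add_add_right, max_add_add_right] at hx'
    push_cast
    exact ⟨by linarith [hx'.1], by linarith [hx'.2]⟩
  · rw [min_add_add_right]; linarith
  · rw [max_add_add_right]; linarith

theorem gap_orbit_finite (S : Sys) {ι : Type} (θ : ι → ℝ) {M : Set ℝ}
    (hM : ∀ i, ∀ x ∈ M, S.F (θ i) x ∈ M) (hp : ∀ x ∈ M, ∀ k : ℤ, x + k ∈ M) {c e z : ℝ}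
    (hc : c ∈ M) (he : e ∈ M) (hne : e ≠ c)
    (hg : ∀ x ∈ M, ¬ (min c e < x ∧ x < max c e)) (h1 : min c e ≤ z) (h2 : z ≤ max c e)
    (hfin : (Set.range fun g : List ι => Int.fract (W S θ g z)).Finite) :
    (Set.range fun g : List ι => Int.fract (W S θ g c)).Finite := by
  have hT : Trip M c e z := ⟨hc, he, hne, hg, h1, h2⟩
  refine ((hfin.image fun y => Int.fract (sSup (M ∩ Set.Iio y))).union
    ((hfin.image fun y => Int.fract y).union
      (hfin.image fun y => Int.fract (sInf (M ∩ Set.Ioi y))))).subset ?_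
  rintro _ ⟨g, rfl⟩
  have hT1 := (hT.W S θ hM g).add_int hp (-⌊W S θ g z⌋)
  have hz : W S θ g z + ((-⌊W S θ g z⌋ : ℤ) : ℝ) = Int.fract (W S θ g z) := by
    push_cast
    rw [← sub_eq_add_neg, Int.self_sub_floor]
  rw [hz] at hT1
  have hfr : Int.fract (W S θ g c) = Int.fract (W S θ g c + ((-⌊W S θ g z⌋ : ℤ) : ℝ)) :=
    (Int.fract_add_intCast _ _).symm
  obtain ⟨hc', he', hne', hg', h1', h2'⟩ := hT1
  rcases three_pt hc' hne' hg' h1' h2' with h | h | h
  · left
    refine ⟨Int.fract (W S θ g z), ⟨g, rfl⟩, ?_⟩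
    show _ = Int.fract (W S θ g c)
    rw [hfr, h]
  · right; left
    refine ⟨Int.fract (W S θ g z), ⟨g, rfl⟩, ?_⟩
    show _ = Int.fract (W S θ g c)
    rw [hfr, h]
  · right; right
    refine ⟨Int.fract (W S θ g z), ⟨g, rfl⟩, ?_⟩
    show _ = Int.fract (W S θ g c)
    rw [hfr, h]

end AD
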