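import Pool.Agent.Helper45.AD.Defs

set_option autoImplicit false

/-! # AD-01: elementary facts about words of lifts of chord maps -/

namespace AD

variable {L : Type} {r : ℕ}

theorem F_add_int (S : Sys) (t x : ℝ) (k : ℤ) : S.F t (x + k) = S.F t x - k := by
  have hn : ∀ (n : ℕ) (x : ℝ), S.F t (x + n) = S.F t x - n := by
    intro n
    induction n with
    | zero => intro x; simp
    | succ n ih =>
      intro x
      have h := S.per t (x + n)
      rw [ih] at h
      push_cast
      rw [show x + ((n : ℝ) + 1) = x + n + 1 by ring, h]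
      ring
  rcases Int.eq_nat_or_neg k with ⟨n, rfl | rfl⟩
  · push_cast
    exact hn n x
  · have h := hn n (x - n)
    rw [sub_add_cancel] at h
    push_cast
    rw [← sub_eq_add_neg, h]
    ring

theorem F_add_int_pi (S : Sys) (t x : ℝ) (k : ℤ) :
    S.F (t + k * Real.pi) x = S.F t x + k := by
  have hn : ∀ (n : ℕ) (t : ℝ), S.F (t + n * Real.pi) x = S.F t x + n := by
    intro n
    induction n with
    | zero => intro t; simp
    | succ n ih =>
      intro t
      have h := S.perT (t + n * Real.pi) x
      rw [ih] at h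
      push_cast
      rw [show t + ((n : ℝ) + 1) * Real.pi = t + n * Real.pi + Real.pi by ring, h]
      ring
  rcases Int.eq_nat_or_neg k with ⟨n, rfl | rfl⟩
  · push_cast
    exact hn n t
  · have h := hn n (t - n * Real.pi)
    rw [sub_add_cancel] at h
    push_cast
    rw [show t + -(n : ℝ) * Real.pi = t - n * Real.pi by ring, h]
    ring

theorem F_inj (S : Sys) (t : ℝ) : Function.Injective (S.F t) := (S.anti t).injective

theorem W_nil (S : Sys) (α : L → ℝ) (x : ℝ) : W S α [] x = x := rfl

theorem W_cons (S : Sys) (α : L → ℝ) (l : L) (w : List L) (x : ℝ) :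
    W S α (l :: w) x = W S α w (S.F (α l) x) := rfl

theorem W_append (S : Sys) (α : L → ℝ) (w w' : List L) (x : ℝ) :
    W S α (w ++ w') x = W S α w' (W S α w x) := by
  induction w generalizing x with
  | nil => rfl
  | cons l w ih => simp only [List.cons_append, W_cons, ih]

theorem W_map {L' : Type} (S : Sys) (α : L → ℝ) (f : L' → L) (w : List L') (x : ℝ) :
    W S α (w.map f) x = W S (α ∘ f) w x := by
  induction w generalizing x with
  | nil => rfl
  | cons l w ih => simp only [List.map_cons, W_cons, ih, Function.comp]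

theorem W_reverse (S : Sys) (α : L → ℝ) (w : List L) (x : ℝ) :
    W S α w.reverse (W S α w x) = x := by
  induction w generalizing x with
  | nil => rfl
  | cons l w ih =>
    rw [List.reverse_cons, W_append, W_cons S α l w, ih, W_cons, W_nil, S.inv]

theorem W_reverse' (S : Sys) (α : L → ℝ) (w : List L) (x : ℝ) :
    W S α w (W S α w.reverse x) = x := by
  have h := W_reverse S α w.reverse x
  rwa [List.reverse_reverse] at h

theorem W_add_int (S : Sys) (α : L → ℝ) (w : List L) (x : ℝ) (k : ℤ) :
    W S α w (x + k) = W S α w x + ((-1) ^ w.length * k : ℤ) := by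
  induction w generalizing x k with
  | nil => simp [W_nil]
  | cons l w ih =>
    rw [W_cons, W_cons, F_add_int,
      show S.F (α l) x - (k : ℝ) = S.F (α l) x + ((-k : ℤ) : ℝ) by push_cast; ring, ih]
    congr 2
    rw [List.length_cons, pow_succ]
    ring

theorem W_inj (S : Sys) (α : L → ℝ) (w : List L) : Function.Injective (W S α w) := by
  intro x y h
  have := congrArg (W S α w.reverse) h
  rwa [W_reverse, W_reverse] at this

theorem W_int_iff (S : Sys) (α : L → ℝ) (w : List L) (x y : ℝ) :
    (∃ k : ℤ, W S α w x = W S α w y + k) ↔ ∃ k : ℤ, x = y + k := by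
  constructor
  · rintro ⟨k, hk⟩
    have h := congrArg (W S α w.reverse) hk
    rw [W_reverse, W_add_int, W_reverse] at h
    exact ⟨_, h⟩
  · rintro ⟨k, rfl⟩
    exact ⟨_, W_add_int S α w y k⟩

theorem fract_eq_iff (x y : ℝ) : Int.fract x = Int.fract y ↔ ∃ k : ℤ, x = y + k := by
  rw [Int.fract_eq_fract]
  constructor
  · rintro ⟨k, hk⟩; exact ⟨k, by linarith⟩
  · rintro ⟨k, hk⟩; exact ⟨k, by linarith⟩

theorem fract_W_iff (S : Sys) (α : L → ℝ) (w : List L) (x y : ℝ) :
    Int.fract (W S α w x) = Int.fract (W S α w y) ↔ Int.fract x = Int.fract y := by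
  rw [fract_eq_iff, fract_eq_iff, W_int_iff]

theorem fract_F_iff (S : Sys) (t x y : ℝ) :
    Int.fract (S.F t x) = Int.fract (S.F t y) ↔ Int.fract x = Int.fract y :=
  fract_W_iff S (fun _ : Unit => t) [()] x y

theorem W_ext_some (S : Sys) (θ : Fin r → ℝ) (t : ℝ) (g : List (Fin r)) (x : ℝ) :
    W S (ext θ t) (g.map some) x = W S θ g x := by
  rw [W_map]
  rfl

theorem F_ne_of_dist (S : Sys) (θ : Fin r → ℝ) (hd : Dist θ) {i k : Fin r} (hik : i ≠ k)
    (x : ℝ) (n : ℤ) : S.F (θ i) x ≠ S.F (θ k) x + n := by
  intro h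
  rw [← F_add_int_pi] at h
  exact hd i k hik n ((S.mono x).injective h)

theorem Alt.even {w : List (Option (Fin r))} (hw : Alt w) : Even w.length := by
  induction hw with
  | nil => exact ⟨0, rfl⟩
  | cons l i w _ ih =>
    simp only [List.length_cons]
    rw [show w.length + 1 + 1 = w.length + 2 from rfl]
    exact ih.add (by decide)

theorem W_add_int_even (S : Sys) (α : L → ℝ) {w : List L} (hw : Even w.length) (x : ℝ) (k : ℤ) :
    W S α w (x + k) = W S α w x + k := by
  rw [W_add_int, hw.neg_one_pow, one_mul]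

/-- loops at `c` are loops at `c + k` -/
theorem Loop.add_int (S : Sys) (θ : Fin r → ℝ) {t c : ℝ} {i : Fin r}
    {w : List (Option (Fin r))} {n : ℤ} (h : Loop S θ t c i w n) (k : ℤ) :
    Loop S θ t (c + k) i w n := by
  refine ⟨h.1, ?_⟩
  rw [W_add_int_even S _ (Alt.even (Alt.cons none i w h.1)), h.2]
  ring

theorem s_add_int (S : Sys) (t x : ℝ) (k : ℤ) : S.s t (x + k) = S.s t x := by
  have hn : ∀ (n : ℕ) (x : ℝ), S.s t (x + n) = S.s t x := by
    intro n
    induction n with
    | zero => intro x; simp
    | succ n ih =>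
      intro x
      push_cast
      rw [show x + ((n : ℝ) + 1) = x + n + 1 by ring, S.s_per, ih]
  rcases Int.eq_nat_or_neg k with ⟨n, rfl | rfl⟩
  · push_cast
    exact hn n x
  · have h := hn n (x - n)
    rw [sub_add_cancel] at h
    push_cast
    rw [← sub_eq_add_neg, h]

end AD
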