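import Pool.Agent.Helper45.AD.WBasic

set_option autoImplicit false

/-! # AD-02: continuity of words, the arc -/

namespace AD

variable {L : Type} {r : ℕ}

theorem W_cont (S : Sys) (w : List L) {A : Type} [TopologicalSpace A] (α : A → L → ℝ)
    (hα : ∀ l, Continuous fun a => α a l) (x : A → ℝ) (hx : Continuous x) :
    Continuous fun a => W S (α a) w (x a) := by
  induction w generalizing x with
  | nil => exact hx
  | cons l w ih =>
    simp only [W_cons]
    exact ih _ (S.cont.comp ((hα l).prodMk hx))

theorem ext_cont (θ : Fin r → ℝ) (l : Option (Fin r)) : Continuous fun t => ext θ t l := by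
  cases l with
  | none => exact continuous_id
  | some i => exact continuous_const

theorem arc_isOpen (β ε : ℝ) : IsOpen (arc β ε) := by
  have : arc β ε = ⋃ k : ℤ, {x : ℝ | |x - β - k| < ε} := by
    ext x; simp [arc]
  rw [this]
  exact isOpen_iUnion fun k => isOpen_lt (by fun_prop) continuous_const

theorem arc_add_int (β ε x : ℝ) (k : ℤ) : x + k ∈ arc β ε ↔ x ∈ arc β ε := by
  constructor
  · rintro ⟨m, hm⟩
    refine ⟨m - k, ?_⟩
    push_cast
    rw [show x - β - ((m : ℝ) - k) = x + k - β - m by ring]
    exact hm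
  · rintro ⟨m, hm⟩
    refine ⟨m + k, ?_⟩
    push_cast
    rw [show x + k - β - ((m : ℝ) + k) = x - β - m by ring]
    exact hm

theorem mem_arc_self (β : ℝ) {ε : ℝ} (hε : 0 < ε) : β ∈ arc β ε :=
  ⟨0, by simpa using hε⟩

end AD
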